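import Mathlib
import Pool.Agent.Lib.MP_d57abb_nt.KT.Cond
import Pool.Agent.Lib.MP_d57abb_nt.KT.FourA
import Pool.Agent.Lib.MP_d57abb_nt.KT.Tot

/-!
# The kernel theorem for arbitrary sets of primes: definitions

As in `KT/`, with an arbitrary real function `f` dominated by `bd W P` in place of `KT.fN W P`; `fC c ct W P` is the function
`c` on the primes minus the function `ct` on the model `NN W P`, both normalised.
-/

namespace Pool.Agent.Lib.MP_d57abb_nt.KC

open Finset Pool.Agent.Lib.MP_d57abb_nt Pool.Agent.Lib.MP_d57abb_nt.KT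

/-- the dominating function -/
noncomputable def bd (W P n : ℕ) : ℝ :=
  (if n ∈ PP P then 1 / ((PP P).card : ℝ) else 0) + (if n ∈ NN W P then 1 / ((NN W P).card : ℝ) else 0)

/-- `f` as a function on `ℤ` -/
noncomputable def fz (f : ℕ → ℝ) (x : ℤ) : ℝ := f x.toNat

/-- the correlation of two columns -/
noncomputable def TT (f : ℕ → ℝ) (N R : ℕ) (t t' : ℤ × ℤ) : ℝ :=
  ∑ s ∈ Bx R, Ph N s * (fz f (dt s t) * fz f (dt s t'))

/-- `f` with the weight `(m / P)^i` -/
noncomputable def gi (f : ℕ → ℝ) (P i m : ℕ) : ℝ := f m * ((m : ℝ) / P) ^ i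

/-- the fourth moment condition -/
def F4 (K J : ℕ) (δ : ℝ) (f : ℕ → ℝ) (P : ℕ) : Prop := ∀ i : ℕ,
  ∑ D ∈ (Icc 1 (K * P)).filter (fun D => P ≤ J * D), 1 / (D.totient : ℝ) *
    ∑ χ ∈ allc D, ‖SS P (gi f P i) χ‖ ^ 4 ≤ δ

/-- `c` on the primes minus `ct` on the model -/
noncomputable def fC (c ct : ℕ → ℝ) (W P n : ℕ) : ℝ :=
  (if n ∈ PP P then c n / ((PP P).card : ℝ) else 0) - (if n ∈ NN W P then ct n / ((NN W P).card : ℝ) else 0)

/-- the integers of the interval `l` (of `L`) of `(0, P]` in the class `b` modulo `M` -/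
def cell (M L P b l : ℕ) : Finset ℕ := (Ioc (l * P / L) ((l + 1) * P / L)).filter (fun m => m % M = b)

/-- the means of `c` on the primes and of `ct` on the model are equal on every cell -/
def Mat (M W L P : ℕ) (c ct : ℕ → ℝ) : Prop := ∀ b < M, ∀ l < L,
  (∑ p ∈ (PP P).filter (fun p => p ∈ cell M L P b l), c p) / ((PP P).card : ℝ) =
    (∑ m ∈ (NN W P).filter (fun m => m ∈ cell M L P b l), ct m) / ((NN W P).card : ℝ)

/-- the primitive characters of conductor at most `R` -/
noncomputable def PrC (R : ℕ) : Finset (Σ r : ℕ, DirichletCharacter ℂ r) := (Icc 1 R).sigma prim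

end Pool.Agent.Lib.MP_d57abb_nt.KC
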