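import Pool.Agent.Lib.MP_d57abb_nt.KC.Defs

/-!
# the fourth moment, large conductors

Copy of `part_one` of `KT/FourA` for an arbitrary `f` dominated by `bd (primorial w) P`; `R0 P = ⌈(log P)^8⌉₊`.  The threshold does
not depend on `f`.
-/

open Finset

namespace Pool.Agent.Lib.MP_d57abb_nt.KC

open Pool.Agent.Lib.MP_d57abb_nt Pool.Agent.Lib.MP_d57abb_nt.KT

private theorem FourA_bd_le (W : ℕ) (hW : 0 < W) (h5 : 5 ∣ W) : ∃ P₀ : ℕ, ∀ P : ℕ, P₀ ≤ P → ∀ m : ℕ,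
    bd W P m ≤ 6 * Real.log P / P := by
  obtain ⟨P1, hP1⟩ := PP_lower
  obtain ⟨P2, hP2⟩ := NN_lower W hW h5
  have hlog : ∀ᶠ P : ℕ in Filter.atTop, 8 * (W : ℝ) ≤ Real.log P :=
    (Real.tendsto_log_atTop.comp tendsto_natCast_atTop_atTop).eventually_ge_atTop _
  obtain ⟨P3, hP3⟩ := Filter.eventually_atTop.1 hlog
  refine ⟨P1 + P2 + P3 + 3, fun P hP m => ?_⟩
  have h1 := hP1 P (by omega)
  have h2 := hP2 P (by omega)
  have h3 := hP3 P (by omega)
  have hP0 : (0 : ℝ) < P := by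
    have : 0 < P := by omega
    exact_mod_cast this
  have hW0 : (1 : ℝ) ≤ W := by exact_mod_cast hW
  have hL : (0 : ℝ) < Real.log P := by linarith
  have hφ : (1 : ℝ) ≤ (W.totient : ℝ) := by exact_mod_cast Nat.totient_pos.2 hW
  have h4 : (0 : ℝ) < (P : ℝ) / (5 * Real.log P) := by positivity
  have h5' : (0 : ℝ) < (P : ℝ) * (W.totient : ℝ) / (8 * W) := by positivity
  have h6 : 1 / ((PP P).card : ℝ) ≤ 5 * Real.log P / P := by
    refine (one_div_le_one_div_of_le h4 h1).trans (le_of_eq ?_)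
    rw [one_div_div]
  have h7 : 1 / ((NN W P).card : ℝ) ≤ Real.log P / P := by
    refine (one_div_le_one_div_of_le h5' h2).trans ?_
    rw [one_div_div, div_le_div_iff₀ (by positivity) hP0]
    have h8 : 8 * (W : ℝ) * 1 ≤ Real.log P * (W.totient : ℝ) :=
      mul_le_mul h3 hφ (by norm_num) hL.le
    calc 8 * (W : ℝ) * P = (8 * (W : ℝ) * 1) * P := by ring
      _ ≤ (Real.log P * (W.totient : ℝ)) * P := mul_le_mul_of_nonneg_right h8 hP0.le
      _ = Real.log P * (P * (W.totient : ℝ)) := by ring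
  have h10 : (if m ∈ PP P then 1 / ((PP P).card : ℝ) else 0) ≤ 5 * Real.log P / P := by
    split_ifs
    · exact h6
    · positivity
  have h11 : (if m ∈ NN W P then 1 / ((NN W P).card : ℝ) else 0) ≤ Real.log P / P := by
    split_ifs
    · exact h7
    · positivity
  calc bd W P m ≤ 5 * Real.log P / P + Real.log P / P := add_le_add h10 h11
    _ = 6 * Real.log P / P := by ring

private theorem FourA_gi_le (f : ℕ → ℝ) (P i m : ℕ) (hm : m ∈ Icc 1 P) : |gi f P i m| ≤ |f m| := by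
  have hm2 := Finset.mem_Icc.1 hm
  have hP0 : (0 : ℝ) < P := by
    have : 0 < P := by omega
    exact_mod_cast this
  unfold gi
  rw [abs_mul]
  have h12 : |((m : ℝ) / P) ^ i| ≤ 1 := by
    rw [abs_of_nonneg (by positivity)]
    refine pow_le_one₀ (by positivity) ?_
    rw [div_le_one hP0]
    exact_mod_cast hm2.2
  exact mul_le_of_le_one_right (abs_nonneg _) h12

private theorem FourA_five (w : ℕ) (hw : 5 ≤ w) : 5 ∣ primorial w := by
  refine Finset.dvd_prod_of_mem (fun p => p) (Finset.mem_filter.2 ⟨Finset.mem_range.2 (by omega), ?_⟩)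
  norm_num

private theorem FourA_re (X R : ℕ) (G : ℕ → ℕ → ℝ) (hG : ∀ r k, 0 ≤ G r k) :
    ∑ D ∈ Icc 1 X, 1 / (D.totient : ℝ) * ∑ r ∈ D.divisors.filter (fun r => R < r), G r (D / r) ≤
      ∑ k ∈ Icc 1 X, 1 / (k.totient : ℝ) * ∑ r ∈ Ioc R (X / k), 1 / (r.totient : ℝ) * G r k := by
  simp only [Finset.mul_sum]
  rw [Finset.sum_sigma', Finset.sum_sigma']
  let φ : (Σ _ : ℕ, ℕ) → (Σ _ : ℕ, ℕ) := fun x => ⟨x.1 / x.2, x.2⟩
  have hmem : ∀ x ∈ (Icc 1 X).sigma (fun D => D.divisors.filter (fun r => R < r)),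
      (1 ≤ x.1 ∧ x.1 ≤ X) ∧ x.2 ∣ x.1 ∧ R < x.2 := by
    intro x hx
    rw [Finset.mem_sigma, Finset.mem_Icc, Finset.mem_filter, Nat.mem_divisors] at hx
    exact ⟨hx.1, hx.2.1.1, hx.2.2⟩
  have hinj : Set.InjOn φ ((Icc 1 X).sigma (fun D => D.divisors.filter (fun r => R < r)) :
      Finset (Σ _ : ℕ, ℕ)) := by
    rintro ⟨D, r⟩ hx ⟨D', r'⟩ hy hxy
    obtain ⟨-, h1, -⟩ := hmem _ hx
    obtain ⟨-, h2, -⟩ := hmem _ hy
    simp only [φ, Sigma.mk.injEq, heq_eq_eq] at hxy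
    obtain ⟨h3, h4⟩ := hxy
    simp only at h1 h2
    subst h4
    have h5 : D = D' := by
      rw [← Nat.mul_div_cancel' h1, ← Nat.mul_div_cancel' h2, h3]
    subst h5
    rfl
  have hle : ∀ x ∈ (Icc 1 X).sigma (fun D => D.divisors.filter (fun r => R < r)),
      1 / (x.1.totient : ℝ) * G x.2 (x.1 / x.2) ≤
      (fun y : (Σ _ : ℕ, ℕ) => 1 / (y.1.totient : ℝ) * (1 / (y.2.totient : ℝ) * G y.2 y.1)) (φ x) := by
    rintro ⟨D, r⟩ hx
    obtain ⟨⟨h1, h2⟩, h3, h4⟩ := hmem _ hx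
    simp only at h1 h2 h3 h4
    simp only [φ]
    rw [← mul_assoc]
    refine mul_le_mul_of_nonneg_right ?_ (hG _ _)
    have hr : 0 < r := by omega
    have hk : 0 < D / r := Nat.div_pos (Nat.le_of_dvd h1 h3) hr
    have hs := Nat.totient_super_multiplicative (D / r) r
    rw [Nat.div_mul_cancel h3] at hs
    rw [one_div_mul_one_div]
    refine one_div_le_one_div_of_le ?_ (by exact_mod_cast hs)
    have h5 := Nat.totient_pos.2 hr
    have h6 := Nat.totient_pos.2 hk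
    positivity
  refine (Finset.sum_le_sum hle).trans ?_
  rw [← Finset.sum_image (f := fun y : (Σ _ : ℕ, ℕ) =>
    1 / (y.1.totient : ℝ) * (1 / (y.2.totient : ℝ) * G y.2 y.1)) hinj]
  refine Finset.sum_le_sum_of_subset_of_nonneg ?_ fun y _ _ =>
    mul_nonneg (by positivity) (mul_nonneg (by positivity) (hG _ _))
  intro y hy
  rw [Finset.mem_image] at hy
  obtain ⟨⟨D, r⟩, hx, rfl⟩ := hy
  obtain ⟨⟨h1, h2⟩, h3, h4⟩ := hmem _ hx
  simp only at h1 h2 h3 h4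
  have hr : 0 < r := by omega
  have hk : 0 < D / r := Nat.div_pos (Nat.le_of_dvd h1 h3) hr
  simp only [φ, Finset.mem_sigma, Finset.mem_Icc, Finset.mem_Ioc]
  refine ⟨⟨hk, (Nat.div_le_self _ _).trans h2⟩, h4, ?_⟩
  rw [Nat.le_div_iff_mul_le hk, Nat.mul_div_cancel' h3]
  exact h2

private theorem FourA_num (P K R : ℝ) (hP : 1 ≤ P) (hK : 1 ≤ K) (hL : 1 ≤ Real.log P)
    (hLK : Real.log K ≤ Real.log P) (hR : Real.log P ^ 8 ≤ R) :
    (9 * ((6 * Real.log P / P) ^ 4 * (2 * P ^ 2 * (1 + Real.log P)))) *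
      (2 * (P ^ 2 + 1) / R + 2 * (K * P)) *
        ((1 + Real.log (K * P) / Real.log 2) * (1 + Real.log (K * P))) ≤
      2239488 / Real.log P + 1119744 * K * (Real.log P ^ 7 / P) := by
  set L := Real.log P with hLdef
  have hP0 : 0 < P := by linarith
  have hL0 : 0 < L := by linarith
  have hL8 : 0 < L ^ 8 := by positivity
  have hR0 : 0 < R := lt_of_lt_of_le hL8 hR
  have hlogX : Real.log (K * P) = Real.log K + L := by
    rw [Real.log_mul (by positivity) (by positivity)]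
  have hK0 : 0 ≤ Real.log K := Real.log_nonneg hK
  have hX1 : Real.log (K * P) ≤ 2 * L := by rw [hlogX]; linarith
  have hX0 : 0 ≤ Real.log (K * P) := by rw [hlogX]; linarith
  have hl2 : (2 : ℝ) / 3 ≤ Real.log 2 := by
    have := Real.log_two_gt_d9
    linarith
  have h1 : 1 + Real.log (K * P) / Real.log 2 ≤ 4 * L := by
    have h2 : Real.log (K * P) / Real.log 2 ≤ 3 * L := by
      rw [div_le_iff₀ (by linarith)]
      calc Real.log (K * P) ≤ 2 * L := hX1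
        _ = 3 * L * (2 / 3) := by ring
        _ ≤ 3 * L * Real.log 2 := mul_le_mul_of_nonneg_left hl2 (by positivity)
    linarith
  have h1' : 0 ≤ 1 + Real.log (K * P) / Real.log 2 := by
    have : 0 ≤ Real.log (K * P) / Real.log 2 := div_nonneg hX0 (by linarith)
    linarith
  have h2 : 1 + Real.log (K * P) ≤ 3 * L := by linarith
  have h2' : 0 ≤ 1 + Real.log (K * P) := by linarith
  have h3 : (1 + Real.log (K * P) / Real.log 2) * (1 + Real.log (K * P)) ≤ 4 * L * (3 * L) :=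
    mul_le_mul h1 h2 h2' (by positivity)
  have h4 : 9 * ((6 * L / P) ^ 4 * (2 * P ^ 2 * (1 + L))) ≤ 46656 * L ^ 5 / P ^ 2 := by
    have h5 : 1 + L ≤ 2 * L := by linarith
    calc 9 * ((6 * L / P) ^ 4 * (2 * P ^ 2 * (1 + L)))
        ≤ 9 * ((6 * L / P) ^ 4 * (2 * P ^ 2 * (2 * L))) := by gcongr
      _ = 46656 * L ^ 5 / P ^ 2 := by
        field_simp
        ring
  have h6 : 2 * (P ^ 2 + 1) / R + 2 * (K * P) ≤ 4 * P ^ 2 / L ^ 8 + 2 * (K * P) := by
    have h7 : 2 * (P ^ 2 + 1) ≤ 4 * P ^ 2 := by nlinarith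
    have h8 : 2 * (P ^ 2 + 1) / R ≤ 4 * P ^ 2 / L ^ 8 := by
      calc 2 * (P ^ 2 + 1) / R ≤ 4 * P ^ 2 / R := by gcongr
        _ ≤ 4 * P ^ 2 / L ^ 8 := by gcongr
    linarith
  calc (9 * ((6 * L / P) ^ 4 * (2 * P ^ 2 * (1 + L)))) * (2 * (P ^ 2 + 1) / R + 2 * (K * P)) *
        ((1 + Real.log (K * P) / Real.log 2) * (1 + Real.log (K * P)))
      ≤ (46656 * L ^ 5 / P ^ 2) * (4 * P ^ 2 / L ^ 8 + 2 * (K * P)) * (4 * L * (3 * L)) := by
        refine mul_le_mul (mul_le_mul h4 h6 (by positivity) (by positivity)) h3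
          (mul_nonneg h1' h2') (by positivity)
    _ = 2239488 / L + 1119744 * K * (L ^ 7 / P) := by
        field_simp
        ring

theorem part_one (w K : ℕ) (hw : 5 ≤ w) (δ : ℝ) (hδ : 0 < δ) : ∃ P₀ : ℕ, ∀ P : ℕ, P₀ ≤ P →
    ∀ f : ℕ → ℝ, (∀ n, |f n| ≤ bd (primorial w) P n) → ∀ i : ℕ,
    ∑ D ∈ Icc 1 (K * P), 1 / (D.totient : ℝ) * ∑ r ∈ D.divisors.filter (fun r => R0 P < r),
      ∑ ψ ∈ prim r, ‖SC P (gi f P i) ψ (D / r)‖ ^ 4 ≤ δ := by
  rcases Nat.eq_zero_or_pos K with hK | hK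
  · subst hK
    refine ⟨0, fun P _ f _ i => ?_⟩
    rw [Nat.zero_mul]
    have e0 : Icc 1 0 = (∅ : Finset ℕ) := rfl
    rw [e0, Finset.sum_empty]
    exact hδ.le
  have hK' : (1 : ℝ) ≤ K := by exact_mod_cast hK
  obtain ⟨P1, hP1⟩ := FourA_bd_le (primorial w) (primorial_pos w) (FourA_five w hw)
  have hT : Filter.Tendsto (fun P : ℕ => Real.log (P : ℝ)) Filter.atTop Filter.atTop :=
    Real.tendsto_log_atTop.comp tendsto_natCast_atTop_atTop
  have e1 : ∀ᶠ P : ℕ in Filter.atTop, 1 ≤ Real.log (P : ℝ) := hT.eventually_ge_atTop _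
  have e2 : ∀ᶠ P : ℕ in Filter.atTop, Real.log (K : ℝ) ≤ Real.log (P : ℝ) :=
    hT.eventually_ge_atTop _
  have t1 : Filter.Tendsto (fun P : ℕ => 2239488 / Real.log (P : ℝ)) Filter.atTop (nhds 0) :=
    hT.const_div_atTop _
  have t2 : Filter.Tendsto (fun P : ℕ => 1119744 * (K : ℝ) * (Real.log (P : ℝ) ^ 7 / (P : ℝ)))
      Filter.atTop (nhds 0) := by
    have h := (Real.isLittleO_pow_log_id_atTop (n := 7)).tendsto_div_nhds_zero
    have h2 := (h.comp tendsto_natCast_atTop_atTop (α := ℕ) (β := ℝ)).const_mul (1119744 * (K : ℝ))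
    simpa using h2
  have t3 := t1.add t2
  rw [add_zero] at t3
  have e3 : ∀ᶠ P : ℕ in Filter.atTop, 2239488 / Real.log (P : ℝ) +
      1119744 * (K : ℝ) * (Real.log (P : ℝ) ^ 7 / (P : ℝ)) ≤ δ := t3.eventually_le_const hδ
  obtain ⟨P2, hP2⟩ := Filter.eventually_atTop.1 (e1.and (e2.and e3))
  refine ⟨P1 + P2 + 1, fun P hP f hf i => ?_⟩
  obtain ⟨k1, k2, k3⟩ := hP2 P (by omega)
  have hP0 : (1 : ℝ) ≤ P := by
    have : 1 ≤ P := by omega
    exact_mod_cast this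
  have hR : 1 ≤ R0 P := by
    unfold R0
    rw [Nat.one_le_ceil_iff]
    positivity
  have hR2 : Real.log P ^ 8 ≤ (R0 P : ℝ) := Nat.le_ceil _
  refine (FourA_re (K * P) (R0 P) (fun r k => ∑ ψ ∈ prim r, ‖SC P (gi f P i) ψ k‖ ^ 4)
    (fun r k => Finset.sum_nonneg fun ψ _ => by positivity)).trans ?_
  refine (large_cond P (K * P) (R0 P) hR (gi f P i) (6 * Real.log P / P)
    (fun m hm => ((FourA_gi_le f P i m hm).trans (hf m)).trans (hP1 P (by omega) m))).trans ?_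
  have h6 := FourA_num P K (R0 P) hP0 hK' k1 k2 hR2
  rw [Nat.cast_mul]
  exact h6.trans k3

end Pool.Agent.Lib.MP_d57abb_nt.KC
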