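import Pool.Agent.Lib.MP_d57abb_nt.KC.Defs
import Pool.Agent.Lib.MP_d57abb_nt.KT.CntP
import Pool.Agent.Lib.MP_d57abb_nt.KT.CntN
import Pool.Agent.Lib.MP_d57abb_nt.KT.CW
import Pool.Agent.Lib.MP_d57abb_nt.KT.Exc

/-!
# The fourth moment, conductors at most `r₀`

`W = primorial w`, `M = w!`, `w ≥ r₀`, so `r ∣ M` for `1 ≤ r ≤ r₀`.  `r ∣ D`, `ψ` modulo `r`, `k = D / r`.  `SC P (gi f P i) ψ k = S - E`, where `S` is the sum without the condition `(m, k) = 1` and `E` the sum over `(m, k) > 1`.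
* `‖S‖ ≤ 8 / L`: split `(0, P]` into the cells `cell M L P b l`; on a cell `ψ m = ψ b`, the weights are between their values at the ends of the interval, and the sum with a constant weight is zero by `Mat`.
* `‖E‖ ≤ 1/#PP + (P/#NN) ∑_{p ∣ D, p > w} 1/p`, `‖SC‖ ≤ 2`, so `‖SC‖^4 ≤ 8 ‖SC‖`.
* The number of the `(r, ψ)` with `r ≤ r₀` is at most `r₀²`.
-/

open Finset

namespace Pool.Agent.Lib.MP_d57abb_nt.KC

open Pool.Agent.Lib.MP_d57abb_nt Pool.Agent.Lib.MP_d57abb_nt.KT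

private theorem Low_fC (c ct : ℕ → ℝ) (hc : ∀ n, |c n| ≤ 1) (hct : ∀ n, |ct n| ≤ 1) (W P n : ℕ) :
    |fC c ct W P n| ≤ bd W P n := by
  unfold fC bd
  refine (abs_sub _ _).trans (add_le_add ?_ ?_)
  · split_ifs
    · rw [abs_div, Nat.abs_cast]
      exact div_le_div_of_nonneg_right (hc n) (Nat.cast_nonneg _)
    · rw [abs_zero]
  · split_ifs
    · rw [abs_div, Nat.abs_cast]
      exact div_le_div_of_nonneg_right (hct n) (Nat.cast_nonneg _)
    · rw [abs_zero]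

private theorem Low_bd0 (W P n : ℕ) : 0 ≤ bd W P n := by
  unfold bd
  refine add_nonneg ?_ ?_
  · split_ifs <;> positivity
  · split_ifs <;> positivity

private theorem Low_ite (A B : Finset ℕ) (u : ℕ → ℝ) (q : ℝ) :
    ∑ m ∈ A, (if m ∈ B then u m / q else 0) = (∑ m ∈ B.filter (fun m => m ∈ A), u m) / q := by
  classical
  rw [← Finset.sum_filter, Finset.sum_div]
  refine Finset.sum_congr ?_ fun _ _ => rfl
  ext m
  rw [Finset.mem_filter, Finset.mem_filter]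
  exact and_comm

private theorem Low_int (S : Finset ℕ) (P : ℕ) (hP : 0 < P) (hS : ∀ m ∈ S, P / 2 < m) (δ : ℝ) (hδ : 0 < δ)
    (h : ∀ y : ℕ, P / 2 ≤ y → y ≤ P →
      |((S.filter (fun n => n ≤ y)).card : ℝ) / (S.card : ℝ) - (2 * (y : ℝ) / P - 1)| ≤ δ)
    (a b : ℕ) (hab : a ≤ b) (hb : b ≤ P) :
    ((S.filter (fun m => m ∈ Ioc a b)).card : ℝ) / (S.card : ℝ) ≤ 2 * ((b : ℝ) - a) / P + 2 * δ := by
  classical
  have hPr : (0 : ℝ) < P := by exact_mod_cast hP
  have hab' : (a : ℝ) ≤ b := by exact_mod_cast hab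
  have h0 : 0 ≤ 2 * ((b : ℝ) - a) / P := div_nonneg (by linarith) hPr.le
  obtain ⟨a', ha'⟩ : ∃ a', a' = max a (P / 2) := ⟨_, rfl⟩
  have ha1 : a ≤ a' := by rw [ha']; exact le_max_left _ _
  have ha2 : P / 2 ≤ a' := by rw [ha']; exact le_max_right _ _
  rcases Nat.lt_or_ge b a' with hlt | hge
  · have hb2 : b < P / 2 := by
      rcases le_total a (P / 2) with h1 | h1
      · rwa [ha', max_eq_right h1] at hlt
      · rw [ha', max_eq_left h1] at hlt
        omega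
    have he : S.filter (fun m => m ∈ Ioc a b) = ∅ := by
      rw [Finset.filter_eq_empty_iff]
      intro m hm hm'
      have h1 := hS m hm
      have h2 := (Finset.mem_Ioc.1 hm').2
      omega
    rw [he, Finset.card_empty, Nat.cast_zero, zero_div]
    linarith
  · have he : S.filter (fun n => n ≤ b) = S.filter (fun m => m ∈ Ioc a b) ∪ S.filter (fun n => n ≤ a') := by
      ext m
      rw [Finset.mem_union, Finset.mem_filter, Finset.mem_filter, Finset.mem_filter, Finset.mem_Ioc]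
      constructor
      · rintro ⟨h1, h2⟩
        rcases Nat.lt_or_ge a' m with h3 | h3
        · exact Or.inl ⟨h1, by omega, h2⟩
        · exact Or.inr ⟨h1, h3⟩
      · rintro (⟨h1, _, h2⟩ | ⟨h1, h2⟩)
        · exact ⟨h1, h2⟩
        · exact ⟨h1, by omega⟩
    have hd : Disjoint (S.filter (fun m => m ∈ Ioc a b)) (S.filter (fun n => n ≤ a')) := by
      rw [Finset.disjoint_left]
      intro m hm hm'
      rw [Finset.mem_filter, Finset.mem_Ioc] at hm
      rw [Finset.mem_filter] at hm'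
      have h1 := hS m hm.1
      have h2 : a' < m := by rw [ha']; exact max_lt hm.2.1 h1
      omega
    have hcard : ((S.filter (fun n => n ≤ b)).card : ℝ) =
        ((S.filter (fun m => m ∈ Ioc a b)).card : ℝ) + ((S.filter (fun n => n ≤ a')).card : ℝ) := by
      rw [he, Finset.card_union_of_disjoint hd, Nat.cast_add]
    have e1 := (abs_le.1 (h b (ha2.trans hge) hb)).2
    have e2 := (abs_le.1 (h a' ha2 (hge.trans hb))).1
    rw [hcard, add_div] at e1
    have ha3 : (a : ℝ) ≤ a' := by exact_mod_cast ha1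
    have e3 : 2 * (a : ℝ) / P ≤ 2 * (a' : ℝ) / P :=
      div_le_div_of_nonneg_right (by linarith) hPr.le
    have e4 : 2 * ((b : ℝ) - a) / P = 2 * (b : ℝ) / P - 2 * (a : ℝ) / P := by ring
    rw [e4]
    linarith

private theorem Low_len (L P l : ℕ) (hL : 0 < L) (hP : 2 * L ≤ P) :
    2 * ((((l + 1) * P / L : ℕ) : ℝ) - ((l * P / L : ℕ) : ℝ)) / P ≤ 3 / L := by
  have hLr : (0 : ℝ) < L := by exact_mod_cast hL
  have hPr : (0 : ℝ) < P := by
    have : 0 < P := by omega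
    exact_mod_cast this
  have h1 : (((l + 1) * P / L : ℕ) : ℝ) ≤ ((l : ℝ) + 1) * P / L := by
    have h := Nat.cast_div_le (α := ℝ) (m := (l + 1) * P) (n := L)
    push_cast at h
    exact h
  have h2 : (l : ℝ) * P / L ≤ ((l * P / L : ℕ) : ℝ) + 1 := by
    rw [div_le_iff₀ hLr]
    have h3 : l * P ≤ (l * P / L + 1) * L := by
      have h4 := Nat.div_add_mod (l * P) L
      have h5 := Nat.mod_lt (l * P) hL
      nlinarith
    have h6 : ((l * P : ℕ) : ℝ) ≤ (((l * P / L + 1) * L : ℕ) : ℝ) := by exact_mod_cast h3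
    push_cast at h6
    exact h6
  have h7 : ((l : ℝ) + 1) * P / L = (l : ℝ) * P / L + P / L := by ring
  have h8 : (1 : ℝ) ≤ P / (2 * L) := by
    rw [le_div_iff₀ (by positivity), one_mul]
    exact_mod_cast hP
  have h9 : (((l + 1) * P / L : ℕ) : ℝ) - ((l * P / L : ℕ) : ℝ) ≤ 3 * P / (2 * L) := by
    have e : 3 * (P : ℝ) / (2 * L) = P / L + P / (2 * L) := by
      field_simp
      ring
    rw [e]
    linarith
  rw [div_le_iff₀ hPr]
  have e2 : 3 / (L : ℝ) * P = 2 * (3 * P / (2 * L)) := by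
    field_simp
  rw [e2]
  linarith

private theorem Low_wt (P i : ℕ) (hP : 0 < P) {m n : ℕ} (h : m ≤ n) :
    ((m : ℝ) / P) ^ i ≤ ((n : ℝ) / P) ^ i := by
  have hPr : (0 : ℝ) < P := by exact_mod_cast hP
  apply pow_le_pow_left₀ (by positivity)
  apply div_le_div_of_nonneg_right _ hPr.le
  exact_mod_cast h

private theorem Low_cell (M W L P : ℕ) (hP : 0 < P) (c ct : ℕ → ℝ)
    (hc : ∀ n, |c n| ≤ 1) (hct : ∀ n, |ct n| ≤ 1) (hMat : Mat M W L P c ct)
    (r : ℕ) (hr : r ∣ M) (ψ : DirichletCharacter ℂ r) (i b l : ℕ) (hb : b < M) (hl : l < L) :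
    ‖∑ m ∈ cell M L P b l, ((gi (fC c ct W P) P i m : ℝ) : ℂ) * ψ (m : ZMod r)‖ ≤
      (((((l + 1) * P / L : ℕ) : ℝ) / P) ^ i - (((l * P / L : ℕ) : ℝ) / P) ^ i) *
        ∑ m ∈ cell M L P b l, bd W P m := by
  classical
  set x : ℝ := (((l * P / L : ℕ) : ℝ) / P) ^ i with hx
  set y : ℝ := ((((l + 1) * P / L : ℕ) : ℝ) / P) ^ i with hy
  have h1 : ∑ m ∈ cell M L P b l, ((gi (fC c ct W P) P i m : ℝ) : ℂ) * ψ (m : ZMod r) =
      ((∑ m ∈ cell M L P b l, gi (fC c ct W P) P i m : ℝ) : ℂ) * ψ (b : ZMod r) := by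
    rw [Complex.ofReal_sum, Finset.sum_mul]
    refine Finset.sum_congr rfl fun m hm => ?_
    have h2 : m % M = b := (Finset.mem_filter.1 hm).2
    have h3 : m ≡ b [MOD M] := by
      unfold Nat.ModEq
      rw [h2, Nat.mod_eq_of_lt hb]
    have h4 : (m : ZMod r) = (b : ZMod r) := (ZMod.natCast_eq_natCast_iff m b r).2 (h3.of_dvd hr)
    rw [h4]
  have h2 : ∑ m ∈ cell M L P b l, fC c ct W P m = 0 := by
    unfold fC
    rw [Finset.sum_sub_distrib, Low_ite, Low_ite, hMat b hb l hl, sub_self]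
  have h3 : ∑ m ∈ cell M L P b l, gi (fC c ct W P) P i m =
      ∑ m ∈ cell M L P b l, fC c ct W P m * (((m : ℝ) / P) ^ i - x) := by
    have h4 : ∑ m ∈ cell M L P b l, gi (fC c ct W P) P i m =
        ∑ m ∈ cell M L P b l, (fC c ct W P m * (((m : ℝ) / P) ^ i - x) + x * fC c ct W P m) := by
      refine Finset.sum_congr rfl fun m _ => ?_
      unfold gi
      ring
    rw [h4, Finset.sum_add_distrib, ← Finset.mul_sum, h2, mul_zero, add_zero]
  rw [h1, norm_mul, Complex.norm_real, Real.norm_eq_abs]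
  have h5 : |∑ m ∈ cell M L P b l, gi (fC c ct W P) P i m| ≤ (y - x) * ∑ m ∈ cell M L P b l, bd W P m := by
    rw [h3, Finset.mul_sum]
    refine (Finset.abs_sum_le_sum_abs _ _).trans (Finset.sum_le_sum fun m hm => ?_)
    have hm1 := (Finset.mem_filter.1 hm).1
    rw [Finset.mem_Ioc] at hm1
    have h6 : x ≤ ((m : ℝ) / P) ^ i := Low_wt P i hP hm1.1.le
    have h7 : ((m : ℝ) / P) ^ i ≤ y := Low_wt P i hP hm1.2
    rw [abs_mul, abs_of_nonneg (sub_nonneg.2 h6), mul_comm]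
    exact mul_le_mul (by linarith) (Low_fC c ct hc hct W P m) (abs_nonneg _) (by linarith)
  have h8 : ‖ψ (b : ZMod r)‖ ≤ 1 := DirichletCharacter.norm_le_one ψ _
  calc |∑ m ∈ cell M L P b l, gi (fC c ct W P) P i m| * ‖ψ (b : ZMod r)‖
      ≤ |∑ m ∈ cell M L P b l, gi (fC c ct W P) P i m| * 1 :=
        mul_le_mul_of_nonneg_left h8 (abs_nonneg _)
    _ ≤ _ := by rw [mul_one]; exact h5

private theorem Low_fib {E : Type*} [AddCommMonoid E] (M L P l : ℕ) (hM : 0 < M) (h : ℕ → E) :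
    ∑ m ∈ Ioc (l * P / L) ((l + 1) * P / L), h m = ∑ b ∈ range M, ∑ m ∈ cell M L P b l, h m := by
  classical
  unfold cell
  exact (Finset.sum_fiberwise_of_maps_to (fun m _ => Finset.mem_range.2 (Nat.mod_lt m hM)) h).symm

private theorem Low_cons {E : Type*} [AddCommMonoid E] (L P : ℕ) (h : ℕ → E) (n : ℕ) :
    ∑ l ∈ range n, ∑ m ∈ Ioc (l * P / L) ((l + 1) * P / L), h m = ∑ m ∈ Ioc 0 (n * P / L), h m := by
  induction n with
  | zero => simp
  | succ n ih =>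
    rw [Finset.sum_range_succ, ih]
    exact Finset.sum_Ioc_consecutive h (Nat.zero_le _)
      (Nat.div_le_div_right (Nat.mul_le_mul_right P (Nat.le_succ n)))

private theorem Low_main (M W L P : ℕ) (hL : 0 < L) (hM : 0 < M) (hP : 0 < P) (c ct : ℕ → ℝ)
    (hc : ∀ n, |c n| ≤ 1) (hct : ∀ n, |ct n| ≤ 1) (hMat : Mat M W L P c ct)
    (hI : ∀ l < L, ∑ m ∈ Ioc (l * P / L) ((l + 1) * P / L), bd W P m ≤ 8 / L)
    (r : ℕ) (hr : r ∣ M) (ψ : DirichletCharacter ℂ r) (i : ℕ) :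
    ‖∑ m ∈ Icc 1 P, ((gi (fC c ct W P) P i m : ℝ) : ℂ) * ψ (m : ZMod r)‖ ≤ 8 / L := by
  classical
  have hPr : (0 : ℝ) < P := by exact_mod_cast hP
  have hLr : (0 : ℝ) < L := by exact_mod_cast hL
  obtain ⟨x, hx⟩ : ∃ x : ℕ → ℝ, x = fun l => (((l * P / L : ℕ) : ℝ) / P) ^ i := ⟨_, rfl⟩
  have hLP : L * P / L = P := Nat.mul_div_cancel_left P hL
  have h1 := Low_cons L P (fun m => ((gi (fC c ct W P) P i m : ℝ) : ℂ) * ψ (m : ZMod r)) L
  rw [hLP] at h1
  have h0 : Icc 1 P = Ioc 0 P := rfl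
  rw [h0, ← h1]
  have h2 : ∀ l ∈ range L, ‖∑ m ∈ Ioc (l * P / L) ((l + 1) * P / L),
      ((gi (fC c ct W P) P i m : ℝ) : ℂ) * ψ (m : ZMod r)‖ ≤ (x (l + 1) - x l) * (8 / L) := by
    intro l hl
    have hl' := Finset.mem_range.1 hl
    have hxx : 0 ≤ x (l + 1) - x l := by
      rw [hx]
      exact sub_nonneg.2 (Low_wt P i hP (Nat.div_le_div_right (Nat.mul_le_mul_right P (Nat.le_succ l))))
    rw [Low_fib M L P l hM]
    calc ‖∑ b ∈ range M, ∑ m ∈ cell M L P b l,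
          ((gi (fC c ct W P) P i m : ℝ) : ℂ) * ψ (m : ZMod r)‖
        ≤ ∑ b ∈ range M, ‖∑ m ∈ cell M L P b l,
          ((gi (fC c ct W P) P i m : ℝ) : ℂ) * ψ (m : ZMod r)‖ := norm_sum_le _ _
      _ ≤ ∑ b ∈ range M, (x (l + 1) - x l) * ∑ m ∈ cell M L P b l, bd W P m := by
          refine Finset.sum_le_sum fun b hb => ?_
          rw [hx]
          exact Low_cell M W L P hP c ct hc hct hMat r hr ψ i b l (Finset.mem_range.1 hb) hl'
      _ = (x (l + 1) - x l) * ∑ m ∈ Ioc (l * P / L) ((l + 1) * P / L), bd W P m := by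
          rw [← Finset.mul_sum, ← Low_fib M L P l hM]
      _ ≤ (x (l + 1) - x l) * (8 / L) := mul_le_mul_of_nonneg_left (hI l hl') hxx
  refine (norm_sum_le _ _).trans ((Finset.sum_le_sum h2).trans ?_)
  rw [← Finset.sum_mul, Finset.sum_range_sub]
  have h3 : x L ≤ 1 := by
    rw [hx]
    simp only
    rw [hLP, div_self hPr.ne', one_pow]
  have h4 : 0 ≤ x 0 := by
    rw [hx]
    positivity
  have h5 : 0 ≤ 8 / (L : ℝ) := by positivity
  calc (x L - x 0) * (8 / (L : ℝ)) ≤ 1 * (8 / (L : ℝ)) :=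
        mul_le_mul_of_nonneg_right (by linarith) h5
    _ = 8 / (L : ℝ) := one_mul _

private theorem Low_PP (P K k : ℕ) (hk : 0 < k) (hkP : k ≤ K * P) (hPK : 4 * K < P) :
    ((PP P).filter (fun m => ¬ m.Coprime k)).card ≤ 1 := by
  rw [Finset.card_le_one]
  intro a ha b hb
  rw [mem_filter, mem_PP] at ha hb
  by_contra hab
  have hap := ha.1.2.1
  have hbp := hb.1.2.1
  have h1 : a ∣ k := by
    by_contra h
    exact ha.2 ((Nat.Prime.coprime_iff_not_dvd hap).2 h)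
  have h2 : b ∣ k := by
    by_contra h
    exact hb.2 ((Nat.Prime.coprime_iff_not_dvd hbp).2 h)
  have h3 : a * b ∣ k := Nat.Coprime.mul_dvd_of_dvd_of_dvd
    ((Nat.coprime_primes hap hbp).2 hab) h1 h2
  have h4 := Nat.le_of_dvd hk h3
  have h5 : P < 2 * a := by have := ha.1.1.1; omega
  have h6 : P < 2 * b := by have := hb.1.1.1; omega
  have h7 : P * P < (2 * a) * (2 * b) := Nat.mul_lt_mul'' h5 h6
  have h8 : 4 * (a * b) ≤ 4 * (K * P) := Nat.mul_le_mul_left _ (h4.trans hkP)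
  have h9 : P * P < 4 * K * P := by nlinarith
  have h10 := Nat.lt_of_mul_lt_mul_right h9
  omega

private theorem Low_NN (W P k : ℕ) (hk : 0 < k) :
    (((NN W P).filter (fun m => ¬ m.Coprime k)).card : ℝ) ≤
      P * ∑ p ∈ k.primeFactors.filter (fun p => ¬ p ∣ W), 1 / (p : ℝ) := by
  classical
  have h1 : (NN W P).filter (fun m => ¬ m.Coprime k) ⊆
      (k.primeFactors.filter (fun p => ¬ p ∣ W)).biUnion
        (fun p => (Ioc 0 P).filter (fun x => p ∣ x)) := by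
    intro m hm
    rw [mem_filter, mem_NN] at hm
    obtain ⟨⟨⟨hm1, hm2⟩, hmW, _⟩, hmk⟩ := hm
    obtain ⟨p, hp, hpm, hpk⟩ := Nat.Prime.not_coprime_iff_dvd.1 hmk
    rw [mem_biUnion]
    refine ⟨p, ?_, ?_⟩
    · rw [mem_filter, Nat.mem_primeFactors]
      refine ⟨⟨hp, hpk, hk.ne'⟩, fun hpW => ?_⟩
      have := Nat.dvd_gcd hpm hpW
      rw [Nat.Coprime] at hmW
      rw [hmW] at this
      exact hp.one_lt.ne' (Nat.dvd_one.1 this)
    · rw [mem_filter, mem_Ioc]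
      exact ⟨⟨by omega, hm2⟩, hpm⟩
  have h2 := (card_le_card h1).trans card_biUnion_le
  calc (((NN W P).filter (fun m => ¬ m.Coprime k)).card : ℝ)
      ≤ ((∑ p ∈ k.primeFactors.filter (fun p => ¬ p ∣ W),
          ((Ioc 0 P).filter (fun x => p ∣ x)).card : ℕ) : ℝ) := by exact_mod_cast h2
    _ = ∑ p ∈ k.primeFactors.filter (fun p => ¬ p ∣ W), ((P / p : ℕ) : ℝ) := by
        push_cast
        apply Finset.sum_congr rfl
        intro p _
        rw [Nat.Ioc_filter_dvd_card_eq_div]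
    _ ≤ ∑ p ∈ k.primeFactors.filter (fun p => ¬ p ∣ W), (P : ℝ) * (1 / (p : ℝ)) := by
        apply Finset.sum_le_sum
        intro p _
        rw [mul_one_div]
        exact Nat.cast_div_le
    _ = P * ∑ p ∈ k.primeFactors.filter (fun p => ¬ p ∣ W), 1 / (p : ℝ) := by
        rw [Finset.mul_sum]

private theorem Low_iteE (S : Finset ℕ) (k P : ℕ) (c : ℝ) (hc : 0 ≤ c) :
    ∑ m ∈ (Icc 1 P).filter (fun m => ¬ m.Coprime k), (if m ∈ S then c else 0) ≤
      ((S.filter (fun m => ¬ m.Coprime k)).card : ℝ) * c := by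
  classical
  rw [Finset.sum_ite_mem, sum_const, nsmul_eq_mul]
  apply mul_le_mul_of_nonneg_right _ hc
  have : (Icc 1 P).filter (fun m => ¬ m.Coprime k) ∩ S ⊆ S.filter (fun m => ¬ m.Coprime k) := by
    intro m hm
    rw [mem_inter, mem_filter] at hm
    rw [mem_filter]
    exact ⟨hm.2, hm.1.2⟩
  exact_mod_cast card_le_card this

private theorem Low_pt (W P i r : ℕ) (f : ℕ → ℝ) (hf : ∀ n, |f n| ≤ bd W P n) (ψ : DirichletCharacter ℂ r)
    {m : ℕ} (hm : m ≤ P) : ‖((gi f P i m : ℝ) : ℂ) * ψ (m : ZMod r)‖ ≤ bd W P m := by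
  rw [norm_mul, Complex.norm_real, Real.norm_eq_abs]
  have a1 : |gi f P i m| ≤ |f m| := by
    unfold gi
    rw [abs_mul]
    have a0 : |((m : ℝ) / P) ^ i| ≤ 1 := by
      rw [abs_pow, abs_of_nonneg (by positivity)]
      apply pow_le_one₀ (by positivity)
      apply div_le_one_of_le₀ _ (by positivity)
      exact_mod_cast hm
    exact mul_le_of_le_one_right (abs_nonneg _) a0
  have a2 : ‖ψ (m : ZMod r)‖ ≤ 1 := DirichletCharacter.norm_le_one ψ _
  calc |gi f P i m| * ‖ψ (m : ZMod r)‖ ≤ |f m| * 1 := mul_le_mul a1 a2 (norm_nonneg _) (abs_nonneg _)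
    _ ≤ _ := by
        rw [mul_one]
        exact hf m

private theorem Low_E (W P K k r i : ℕ) (hk : 0 < k) (hkP : k ≤ K * P) (hPK : 4 * K < P)
    (f : ℕ → ℝ) (hf : ∀ n, |f n| ≤ bd W P n) (ψ : DirichletCharacter ℂ r) :
    ‖∑ m ∈ (Icc 1 P).filter (fun m => ¬ m.Coprime k), ((gi f P i m : ℝ) : ℂ) * ψ (m : ZMod r)‖ ≤
      1 / ((PP P).card : ℝ) + (P : ℝ) / ((NN W P).card : ℝ) *
        ∑ p ∈ k.primeFactors.filter (fun p => ¬ p ∣ W), 1 / (p : ℝ) := by
  refine (norm_sum_le _ _).trans ((Finset.sum_le_sum (fun m hm =>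
    Low_pt W P i r f hf ψ (Finset.mem_Icc.1 (Finset.mem_filter.1 hm).1).2)).trans ?_)
  unfold bd
  rw [Finset.sum_add_distrib]
  refine add_le_add ?_ ?_
  · refine (Low_iteE (PP P) k P _ (by positivity)).trans ?_
    have h1 : (((PP P).filter (fun m => ¬ m.Coprime k)).card : ℝ) ≤ 1 := by
      exact_mod_cast Low_PP P K k hk hkP hPK
    calc _ ≤ 1 * (1 / ((PP P).card : ℝ)) := mul_le_mul_of_nonneg_right h1 (by positivity)
      _ = _ := one_mul _
  · refine (Low_iteE (NN W P) k P _ (by positivity)).trans ?_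
    calc _ ≤ (P * ∑ p ∈ k.primeFactors.filter (fun p => ¬ p ∣ W), 1 / (p : ℝ)) *
          (1 / ((NN W P).card : ℝ)) :=
          mul_le_mul_of_nonneg_right (Low_NN W P k hk) (by positivity)
      _ = _ := by ring

private theorem Low_ite1 (S T : Finset ℕ) :
    ∑ m ∈ S, (if m ∈ T then 1 / (T.card : ℝ) else 0) ≤ 1 := by
  rw [← Finset.sum_filter, Finset.sum_const, nsmul_eq_mul]
  have h1 : (S.filter (fun m => m ∈ T)).card ≤ T.card :=
    Finset.card_le_card (fun m hm => (Finset.mem_filter.1 hm).2)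
  rcases Nat.eq_zero_or_pos T.card with h | h
  · rw [h]
    simp
  · have h2 : (0 : ℝ) < (T.card : ℝ) := by exact_mod_cast h
    rw [mul_one_div, div_le_one h2]
    exact_mod_cast h1

private theorem Low_two (W P i r k : ℕ) (f : ℕ → ℝ) (hf : ∀ n, |f n| ≤ bd W P n)
    (ψ : DirichletCharacter ℂ r) : ‖SC P (gi f P i) ψ k‖ ≤ 2 := by
  unfold SC
  refine (norm_sum_le _ _).trans ((Finset.sum_le_sum (fun m hm =>
    Low_pt W P i r f hf ψ (Finset.mem_Icc.1 (Finset.mem_filter.1 hm).1).2)).trans ?_)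
  unfold bd
  rw [Finset.sum_add_distrib]
  have h1 := Low_ite1 ((Icc 1 P).filter (fun m => m.Coprime k)) (PP P)
  have h2 := Low_ite1 ((Icc 1 P).filter (fun m => m.Coprime k)) (NN W P)
  linarith

private theorem Low_pow {x : ℝ} (h0 : 0 ≤ x) (h2 : x ≤ 2) : x ^ 4 ≤ 8 * x := by
  have h3 : x ^ 3 ≤ 2 ^ 3 := pow_le_pow_left₀ h0 h2 3
  calc x ^ 4 = x ^ 3 * x := by ring
    _ ≤ 2 ^ 3 * x := mul_le_mul_of_nonneg_right h3 h0
    _ = 8 * x := by norm_num

private theorem Low_one (w L P K D r i : ℕ) (hL : 0 < L) (hP : 0 < P) (hPK : 4 * K < P) (c ct : ℕ → ℝ)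
    (hc : ∀ n, |c n| ≤ 1) (hct : ∀ n, |ct n| ≤ 1) (hMat : Mat w.factorial (primorial w) L P c ct)
    (hI : ∀ l < L, ∑ m ∈ Ioc (l * P / L) ((l + 1) * P / L), bd (primorial w) P m ≤ 8 / L)
    (hD : 1 ≤ D) (hDK : D ≤ K * P) (hrD : r ∣ D) (hrw : r ≤ w) (ψ : DirichletCharacter ℂ r) :
    ‖SC P (gi (fC c ct (primorial w) P) P i) ψ (D / r)‖ ≤ 8 / L + (1 / ((PP P).card : ℝ) +
      (P : ℝ) / ((NN (primorial w) P).card : ℝ) *
        ∑ p ∈ D.primeFactors.filter (fun p => w < p), 1 / (p : ℝ)) := by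
  have hr0 : 0 < r := Nat.pos_of_dvd_of_pos hrD hD
  have hk0 : 0 < D / r := Nat.div_pos (Nat.le_of_dvd hD hrD) hr0
  have hkD : D / r ∣ D := Nat.div_dvd_of_dvd hrD
  have hkK : D / r ≤ K * P := (Nat.div_le_self D r).trans hDK
  have hf := Low_fC c ct hc hct (primorial w) P
  have hsplit : SC P (gi (fC c ct (primorial w) P) P i) ψ (D / r) =
      ∑ m ∈ Icc 1 P, ((gi (fC c ct (primorial w) P) P i m : ℝ) : ℂ) * ψ (m : ZMod r) -
      ∑ m ∈ (Icc 1 P).filter (fun m => ¬ m.Coprime (D / r)),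
        ((gi (fC c ct (primorial w) P) P i m : ℝ) : ℂ) * ψ (m : ZMod r) := by
    unfold SC
    rw [← Finset.sum_filter_add_sum_filter_not (Icc 1 P) (fun m => m.Coprime (D / r))
      (fun m => ((gi (fC c ct (primorial w) P) P i m : ℝ) : ℂ) * ψ (m : ZMod r))]
    ring
  have h1 := Low_main w.factorial (primorial w) L P hL (Nat.factorial_pos w) hP c ct hc hct hMat hI r
    (Nat.dvd_factorial hr0 hrw) ψ i
  have h2 := Low_E (primorial w) P K (D / r) r i hk0 hkK hPK _ hf ψ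
  have h5 : ∑ p ∈ (D / r).primeFactors.filter (fun p => ¬ p ∣ primorial w), 1 / (p : ℝ) ≤
      ∑ p ∈ D.primeFactors.filter (fun p => w < p), 1 / (p : ℝ) := by
    apply Finset.sum_le_sum_of_subset_of_nonneg
    · intro p hp
      rw [Finset.mem_filter] at hp ⊢
      have hpp : p.Prime := Nat.prime_of_mem_primeFactors hp.1
      refine ⟨Nat.primeFactors_mono hkD (by omega) hp.1, ?_⟩
      have h6 := hp.2
      rw [prime_dvd_primorial w p hpp] at h6
      omega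
    · intro p _ _
      positivity
  have hq0 : (0 : ℝ) ≤ (P : ℝ) / ((NN (primorial w) P).card : ℝ) := by positivity
  have h7 := mul_le_mul_of_nonneg_left h5 hq0
  rw [hsplit]
  refine (norm_sub_le _ _).trans (add_le_add h1 ?_)
  linarith

private theorem Low_num (D r₀ : ℕ) (B : ℝ) (hB : 0 ≤ B) (F : (r : ℕ) → DirichletCharacter ℂ r → ℝ)
    (hF : ∀ r ∈ D.divisors.filter (fun r => r ≤ r₀), ∀ ψ ∈ prim r, F r ψ ≤ B) :
    ∑ r ∈ D.divisors.filter (fun r => r ≤ r₀), ∑ ψ ∈ prim r, F r ψ ≤ ((r₀ : ℝ) ^ 2 + 1) * B := by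
  classical
  have h1 : ∀ r ∈ D.divisors.filter (fun r => r ≤ r₀), ∑ ψ ∈ prim r, F r ψ ≤ (r₀ : ℝ) * B := by
    intro r hr
    refine (Finset.sum_le_card_nsmul _ _ _ (hF r hr)).trans ?_
    rw [nsmul_eq_mul]
    apply mul_le_mul_of_nonneg_right _ hB
    have h2 : (prim r).card ≤ r₀ := by
      refine le_trans ?_ (Finset.mem_filter.1 hr).2
      refine le_trans ?_ (card_allc_le r)
      unfold prim
      exact Finset.card_le_card (Finset.filter_subset _ _)
    exact_mod_cast h2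
  refine (Finset.sum_le_sum h1).trans ?_
  rw [Finset.sum_const, nsmul_eq_mul, ← mul_assoc]
  apply mul_le_mul_of_nonneg_right _ hB
  have h3 : (D.divisors.filter (fun r => r ≤ r₀)).card ≤ r₀ := by
    have h4 : D.divisors.filter (fun r => r ≤ r₀) ⊆ Icc 1 r₀ := by
      intro r hr
      rw [Finset.mem_filter] at hr
      rw [Finset.mem_Icc]
      exact ⟨Nat.pos_of_mem_divisors hr.1, hr.2⟩
    have h5 := Finset.card_le_card h4
    rwa [Nat.card_Icc, Nat.add_sub_cancel] at h5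
  have h6 : ((D.divisors.filter (fun r => r ≤ r₀)).card : ℝ) ≤ r₀ := by exact_mod_cast h3
  have h7 : ((D.divisors.filter (fun r => r ≤ r₀)).card : ℝ) * r₀ ≤ (r₀ : ℝ) * r₀ :=
    mul_le_mul_of_nonneg_right h6 (Nat.cast_nonneg _)
  nlinarith

theorem part_low (K J r₀ : ℕ) (δ : ℝ) (hδ : 0 < δ) : ∃ L₀ : ℕ, ∀ L : ℕ, L₀ ≤ L → ∃ w₀ : ℕ, ∀ w : ℕ, w₀ ≤ w → ∃ P₀ : ℕ,
    ∀ P : ℕ, P₀ ≤ P → ∀ c ct : ℕ → ℝ, (∀ n, |c n| ≤ 1) → (∀ n, |ct n| ≤ 1) →
    Mat w.factorial (primorial w) L P c ct → ∀ i : ℕ,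
    ∑ D ∈ (Icc 1 (K * P)).filter (fun D => P ≤ J * D), 1 / (D.totient : ℝ) *
      ∑ r ∈ D.divisors.filter (fun r => r ≤ r₀),
        ∑ ψ ∈ prim r, ‖SC P (gi (fC c ct (primorial w) P) P i) ψ (D / r)‖ ^ 4 ≤ δ := by
  classical
  obtain ⟨C, hC1, -, -, hC3, hC4⟩ := tot
  have hC0 : 0 < C := by linarith
  obtain ⟨R, hR⟩ : ∃ R : ℝ, R = (r₀ : ℝ) ^ 2 + 1 := ⟨_, rfl⟩
  have hR0 : 0 < R := by rw [hR]; positivity
  have hden : 0 < 24 * R * C * ((J : ℝ) + 1) * ((K : ℝ) + 1) := by positivity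
  obtain ⟨δ₁, hδ₁⟩ : ∃ δ₁ : ℝ, δ₁ = δ / (24 * R * C * ((J : ℝ) + 1) * ((K : ℝ) + 1)) := ⟨_, rfl⟩
  have hδ₁0 : 0 < δ₁ := by rw [hδ₁]; exact div_pos hδ hden
  refine ⟨⌈8 / δ₁⌉₊ + 1, fun L hL0 => ?_⟩
  have hL : 0 < L := by omega
  have hLr : (0 : ℝ) < L := by exact_mod_cast hL
  have hL8 : 8 / (L : ℝ) ≤ δ₁ := by
    have h1 : 8 / δ₁ ≤ (L : ℝ) := by
      have h2 : ⌈8 / δ₁⌉₊ ≤ L := by omega
      exact Nat.ceil_le.1 h2
    rw [div_le_iff₀ hδ₁0] at h1
    rw [div_le_iff₀ hLr]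
    linarith
  obtain ⟨w₀, hw₀⟩ := cw (δ₁ / 8) (by positivity)
  refine ⟨max (max 5 r₀) w₀, fun w hw => ?_⟩
  have hw5 : 5 ≤ w := ((le_max_left _ _).trans (le_max_left _ _)).trans hw
  have hwr : r₀ ≤ w := ((le_max_right _ _).trans (le_max_left _ _)).trans hw
  have hww : w₀ ≤ w := (le_max_right _ _).trans hw
  have hW : 0 < primorial w := primorial_pos w
  have h5 := five_dvd_primorial w hw5
  obtain ⟨P₁, hP₁⟩ := PP_dist (1 / (2 * L)) (by positivity)
  obtain ⟨P₂, hP₂⟩ := NN_dist (primorial w) hW h5 (1 / (2 * L)) (by positivity)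
  obtain ⟨P₃, hP₃⟩ := NN_lower (primorial w) hW h5
  obtain ⟨P₄, hP₄⟩ := PP_lower
  have hlog : ∀ᶠ P : ℕ in Filter.atTop, ‖Real.log (P : ℝ)‖ ≤ δ₁ / 5 * ‖((P : ℕ) : ℝ)‖ := by
    have h1 := Real.isLittleO_log_id_atTop.def (c := δ₁ / 5) (by positivity)
    exact tendsto_natCast_atTop_atTop.eventually h1
  obtain ⟨P₅, hP₅⟩ := Filter.eventually_atTop.1 hlog
  refine ⟨P₁ + P₂ + P₃ + P₄ + P₅ + 4 * K + 2 * L + 3, fun P hP c ct hc hct hMat i => ?_⟩
  have hP0 : 0 < P := by omega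
  have hPr : (0 : ℝ) < P := by exact_mod_cast hP0
  -- the intervals
  have hI : ∀ l < L, ∑ m ∈ Ioc (l * P / L) ((l + 1) * P / L), bd (primorial w) P m ≤ 8 / L := by
    intro l hl
    have hab : l * P / L ≤ (l + 1) * P / L := Nat.div_le_div_right (Nat.mul_le_mul_right P (Nat.le_succ l))
    have hb : (l + 1) * P / L ≤ P := by
      apply Nat.div_le_of_le_mul
      exact Nat.mul_le_mul_right P hl
    have e1 := Low_int (PP P) P hP0 (fun m hm => (mem_PP.1 hm).1.1) (1 / (2 * L)) (by positivity)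
      (fun y h1 h2 => hP₁ P (by omega) y h1 h2) _ _ hab hb
    have e2 := Low_int (NN (primorial w) P) P hP0 (fun m hm => (mem_NN.1 hm).1.1) (1 / (2 * L))
      (by positivity) (fun y h1 h2 => hP₂ P (by omega) y h1 h2) _ _ hab hb
    have e3 := Low_len L P l hL (by omega)
    have e4 : 2 * (1 / (2 * (L : ℝ))) = 1 / L := by field_simp
    rw [e4] at e1 e2
    have e5 : 8 / (L : ℝ) = (3 / L + 1 / L) + (3 / L + 1 / L) := by ring
    unfold bd
    rw [Finset.sum_add_distrib, Low_ite, Low_ite, Finset.sum_const, Finset.sum_const, nsmul_eq_mul,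
      nsmul_eq_mul, mul_one, mul_one, e5]
    exact add_le_add (e1.trans (by linarith)) (e2.trans (by linarith))
  obtain ⟨q, hq⟩ : ∃ q : ℝ, q = (P : ℝ) / ((NN (primorial w) P).card : ℝ) := ⟨_, rfl⟩
  have hq0 : 0 ≤ q := by rw [hq]; positivity
  have hφ : (0 : ℝ) < ((primorial w).totient : ℝ) := by
    exact_mod_cast Nat.totient_pos.2 hW
  have hWr : (0 : ℝ) < (primorial w : ℝ) := by exact_mod_cast hW
  have hw0 : (0 : ℝ) < (w : ℝ) := by
    have : 0 < w := by omega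
    exact_mod_cast this
  have hq1 : q ≤ 8 * ((primorial w : ℝ) / ((primorial w).totient : ℝ)) := by
    rw [hq]
    apply div_le_of_le_mul₀ (by positivity) (by positivity)
    have h1 := hP₃ P (by omega)
    have h2 : (P : ℝ) = 8 * ((primorial w : ℝ) / ((primorial w).totient : ℝ)) *
        ((P : ℝ) * ((primorial w).totient : ℝ) / (8 * (primorial w : ℝ))) := by
      field_simp
    calc (P : ℝ) = 8 * ((primorial w : ℝ) / ((primorial w).totient : ℝ)) *
        ((P : ℝ) * ((primorial w).totient : ℝ) / (8 * (primorial w : ℝ))) := h2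
      _ ≤ _ := mul_le_mul_of_nonneg_left h1 (by positivity)
  have hq2 : (primorial w : ℝ) / ((primorial w).totient : ℝ) ≤ δ₁ / 8 * w := by
    have h1 : 1 ≤ (primorial w : ℝ) / ((primorial w).totient : ℝ) := by
      rw [le_div_iff₀ hφ, one_mul]
      exact_mod_cast Nat.totient_le _
    refine le_trans ?_ (hw₀ w hww)
    exact le_self_pow₀ h1 (by norm_num)
  have hq3 : q / w ≤ δ₁ := by
    rw [div_le_iff₀ hw0]
    linarith
  have hPP : 1 / ((PP P).card : ℝ) ≤ δ₁ := by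
    have h1 := hP₄ P (by omega)
    have h2 := hP₅ P (by omega)
    have hl : 0 < Real.log P := Real.log_pos (by
      have : 1 < P := by omega
      exact_mod_cast this)
    rw [Real.norm_eq_abs, Real.norm_eq_abs, abs_of_pos hl, abs_of_pos hPr] at h2
    have h3 : 0 < (P : ℝ) / (5 * Real.log P) := by positivity
    calc 1 / ((PP P).card : ℝ) ≤ 1 / ((P : ℝ) / (5 * Real.log P)) :=
          one_div_le_one_div_of_le h3 h1
      _ = 5 * Real.log P / P := by rw [one_div_div]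
      _ ≤ δ₁ := by
          rw [div_le_iff₀ hPr]
          linarith
  have hS0 : ∀ T : Finset ℕ, (0 : ℝ) ≤ ∑ p ∈ T, 1 / (p : ℝ) :=
    fun T => Finset.sum_nonneg (fun p _ => by positivity)
  have hmain : ∑ D ∈ (Icc 1 (K * P)).filter (fun D => P ≤ J * D), 1 / (D.totient : ℝ) *
      ∑ r ∈ D.divisors.filter (fun r => r ≤ r₀),
        ∑ ψ ∈ prim r, ‖SC P (gi (fC c ct (primorial w) P) P i) ψ (D / r)‖ ^ 4 ≤
      ∑ D ∈ (Icc 1 (K * P)).filter (fun D => P ≤ J * D), (8 * R * (2 * δ₁) * (1 / (D.totient : ℝ)) +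
        8 * R * q * (1 / (D.totient : ℝ) *
          ∑ p ∈ D.primeFactors.filter (fun p => w < p), 1 / (p : ℝ))) := by
    apply Finset.sum_le_sum
    intro D hD
    rw [Finset.mem_filter, Finset.mem_Icc] at hD
    obtain ⟨B, hB⟩ : ∃ B : ℝ, B = 2 * δ₁ + q * ∑ p ∈ D.primeFactors.filter (fun p => w < p), 1 / (p : ℝ) :=
      ⟨_, rfl⟩
    have hB0 : 0 ≤ B := by
      rw [hB]
      exact add_nonneg (by positivity) (mul_nonneg hq0 (hS0 _))
    have h1 := Low_num D r₀ (8 * B) (by positivity)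
      (fun r ψ => ‖SC P (gi (fC c ct (primorial w) P) P i) ψ (D / r)‖ ^ 4) (by
        intro r hr ψ _
        rw [Finset.mem_filter] at hr
        have hrD : r ∣ D := Nat.dvd_of_mem_divisors hr.1
        have h2 := Low_one w L P K D r i hL hP0 (by omega) c ct hc hct hMat hI hD.1.1 hD.1.2 hrD
          (hr.2.trans hwr) ψ
        rw [← hq] at h2
        refine (Low_pow (norm_nonneg _) (Low_two (primorial w) P i r (D / r) _
          (Low_fC c ct hc hct (primorial w) P) ψ)).trans ?_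
        rw [hB]
        linarith)
    have h2 := mul_le_mul_of_nonneg_left h1 (show (0 : ℝ) ≤ 1 / (D.totient : ℝ) by positivity)
    refine h2.trans (le_of_eq ?_)
    rw [← hR, hB]
    ring
  refine hmain.trans ?_
  rw [Finset.sum_add_distrib, ← Finset.mul_sum, ← Finset.mul_sum]
  have h3 := hC3 K J P (by omega)
  have h4 := hC4 K J P w (by omega) (by omega)
  have h5' : 8 * R * (2 * δ₁) * ∑ D ∈ (Icc 1 (K * P)).filter (fun D => P ≤ J * D), 1 / (D.totient : ℝ) ≤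
      8 * R * (2 * δ₁) * (C * J * K) := mul_le_mul_of_nonneg_left h3 (by positivity)
  have h6 : 8 * R * q * ∑ D ∈ (Icc 1 (K * P)).filter (fun D => P ≤ J * D),
      (1 / (D.totient : ℝ) * ∑ p ∈ D.primeFactors.filter (fun p => w < p), 1 / (p : ℝ)) ≤
      8 * R * q * (C * J * K / w) := mul_le_mul_of_nonneg_left h4 (by positivity)
  have h7 : 8 * R * q * (C * J * K / w) = 8 * R * (C * J * K) * (q / w) := by ring
  have h8 : 8 * R * (C * J * K) * (q / w) ≤ 8 * R * (C * J * K) * δ₁ :=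
    mul_le_mul_of_nonneg_left hq3 (by positivity)
  have h9 : 24 * R * C * J * K * δ₁ ≤ δ := by
    have e : δ₁ * (24 * R * C * ((J : ℝ) + 1) * ((K : ℝ) + 1)) = δ := by
      rw [hδ₁]
      exact div_mul_cancel₀ δ hden.ne'
    have h10 : 24 * R * C * (J : ℝ) * K ≤ 24 * R * C * ((J : ℝ) + 1) * ((K : ℝ) + 1) := by
      have hJ : (J : ℝ) ≤ J + 1 := by linarith
      have hK : (K : ℝ) ≤ K + 1 := by linarith
      have h11 : 24 * R * C * (J : ℝ) ≤ 24 * R * C * ((J : ℝ) + 1) :=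
        mul_le_mul_of_nonneg_left hJ (by positivity)
      exact mul_le_mul h11 hK (by positivity) (by positivity)
    calc 24 * R * C * J * K * δ₁ ≤ 24 * R * C * ((J : ℝ) + 1) * ((K : ℝ) + 1) * δ₁ :=
          mul_le_mul_of_nonneg_right h10 hδ₁0.le
      _ = δ := by rw [← e]; ring
  rw [h7] at h6
  have h12 : 8 * R * (2 * δ₁) * (C * J * K) + 8 * R * (C * J * K) * δ₁ = 24 * R * C * J * K * δ₁ := by ring
  linarith

end Pool.Agent.Lib.MP_d57abb_nt.KC
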