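import Pool.Agent.Lib.MP_d57abb_nt.KC.Defs

/-!
# the sum over the multiples of `r`

`D = r k`, `1/φ(r k) ≤ 1/(φ(r) φ(k))` (`Nat.totient_super_multiplicative`), `P' = (P + r - 1) / r ≥ 1` (so `P ≤ r P'`): `P ≤ J r k` gives `P' ≤ J k` (`J k` is an integer `≥ P/r`), and `r k ≤ K P ≤ K r P'` gives `k ≤ K P'`.  Third part of `KT.tot` for `P'`.
-/

open Finset

namespace Pool.Agent.Lib.MP_d57abb_nt.KC

open Pool.Agent.Lib.MP_d57abb_nt Pool.Agent.Lib.MP_d57abb_nt.KT

theorem tot_r : ∃ C : ℝ, 1 ≤ C ∧ ∀ K J P r : ℕ, 1 ≤ P → 1 ≤ r →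
    ∑ D ∈ ((Icc 1 (K * P)).filter (fun D => P ≤ J * D)).filter (fun D => r ∣ D), 1 / (D.totient : ℝ) ≤
      C * J * K / (r.totient : ℝ) := by
  obtain ⟨C, hC, -, -, h3, -⟩ := tot
  refine ⟨C, hC, fun K J P r hP hr => ?_⟩
  obtain ⟨P', hP'⟩ : ∃ P' : ℕ, P' = (P + r - 1) / r := ⟨_, rfl⟩
  have hlt : P ≤ r * P' := by
    have h1 : P + r - 1 < r * ((P + r - 1) / r + 1) := Nat.lt_mul_div_succ (P + r - 1) hr
    rw [← hP'] at h1
    have h2 : r * (P' + 1) = r * P' + r := by ring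
    omega
  have hP1 : 1 ≤ P' := by
    rcases Nat.eq_zero_or_pos P' with h0 | h0
    · rw [h0, Nat.mul_zero] at hlt
      omega
    · exact h0
  have hle : ∀ x : ℕ, P ≤ r * x → P' ≤ x := by
    intro x hx
    rw [hP']
    have h1 : P + r - 1 < r * (x + 1) := by
      have h2 : r * (x + 1) = r * x + r := by ring
      omega
    have h3 : (P + r - 1) / r < x + 1 := Nat.div_lt_of_lt_mul h1
    omega
  have hφr : (0 : ℝ) < (r.totient : ℝ) := by exact_mod_cast Nat.totient_pos.2 hr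
  have hsub : ((Icc 1 (K * P)).filter (fun D => P ≤ J * D)).filter (fun D => r ∣ D) ⊆
      ((Icc 1 (K * P')).filter (fun D => P' ≤ J * D)).image (fun k => r * k) := by
    intro D hD
    rw [mem_filter, mem_filter, mem_Icc] at hD
    obtain ⟨⟨⟨hD1, hD2⟩, hD3⟩, k, rfl⟩ := hD
    refine mem_image.2 ⟨k, ?_, rfl⟩
    rw [mem_filter, mem_Icc]
    refine ⟨⟨?_, ?_⟩, ?_⟩
    · rcases Nat.eq_zero_or_pos k with h0 | h0
      · rw [h0, Nat.mul_zero] at hD1
        omega
      · exact h0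
    · have h1 : r * k ≤ r * (K * P') := by
        calc r * k ≤ K * P := hD2
          _ ≤ K * (r * P') := Nat.mul_le_mul_left K hlt
          _ = r * (K * P') := by ring
      exact Nat.le_of_mul_le_mul_left h1 hr
    · refine hle _ ?_
      calc P ≤ J * (r * k) := hD3
        _ = r * (J * k) := by ring
  calc ∑ D ∈ ((Icc 1 (K * P)).filter (fun D => P ≤ J * D)).filter (fun D => r ∣ D), 1 / (D.totient : ℝ)
      ≤ ∑ D ∈ ((Icc 1 (K * P')).filter (fun D => P' ≤ J * D)).image (fun k => r * k),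
          1 / (D.totient : ℝ) :=
        Finset.sum_le_sum_of_subset_of_nonneg hsub (fun D _ _ => by positivity)
    _ = ∑ k ∈ (Icc 1 (K * P')).filter (fun D => P' ≤ J * D), 1 / ((r * k).totient : ℝ) :=
        Finset.sum_image (fun a _ b _ hab => Nat.eq_of_mul_eq_mul_left hr hab)
    _ ≤ ∑ k ∈ (Icc 1 (K * P')).filter (fun D => P' ≤ J * D), 1 / (r.totient : ℝ) * (1 / (k.totient : ℝ)) := by
        refine Finset.sum_le_sum fun k hk => ?_
        rw [mem_filter, mem_Icc] at hk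
        have hφk : (0 : ℝ) < (k.totient : ℝ) := by exact_mod_cast Nat.totient_pos.2 hk.1.1
        have h4 : (r.totient : ℝ) * k.totient ≤ ((r * k).totient : ℝ) := by
          exact_mod_cast Nat.totient_super_multiplicative r k
        rw [one_div_mul_one_div]
        exact one_div_le_one_div_of_le (mul_pos hφr hφk) h4
    _ = 1 / (r.totient : ℝ) * ∑ k ∈ (Icc 1 (K * P')).filter (fun D => P' ≤ J * D), 1 / (k.totient : ℝ) := by
        rw [Finset.mul_sum]
    _ ≤ 1 / (r.totient : ℝ) * (C * J * K) :=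
        mul_le_mul_of_nonneg_left (h3 K J P' hP1) (by positivity)
    _ = C * J * K / (r.totient : ℝ) := by
        rw [one_div, inv_mul_eq_div]

private theorem TotR_ratio {p : ℕ} (hp : p.Prime) :
    ((p : ℝ) / ((p : ℝ) - 1)) ^ 2 ≤ (if p = 2 then 2 else 1) * (p : ℝ) := by
  have h2 : (2 : ℝ) ≤ p := by exact_mod_cast hp.two_le
  split_ifs with h
  · rw [h]
    norm_num
  · have h3 : (3 : ℝ) ≤ p := by
      have h4 : 3 ≤ p := lt_of_le_of_ne hp.two_le (Ne.symm h)
      exact_mod_cast h4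
    have h5 : (0 : ℝ) < ((p : ℝ) - 1) ^ 2 := by
      have : (0 : ℝ) < (p : ℝ) - 1 := by linarith
      positivity
    rw [div_pow, div_le_iff₀ h5, one_mul]
    have h6 : (p : ℝ) ≤ ((p : ℝ) - 1) ^ 2 := by nlinarith
    nlinarith

/-- `φ(r) ≥ √(r / 2)` -/
theorem tot_ge {r : ℕ} (hr : 1 ≤ r) : (r : ℝ) ≤ 2 * (r.totient : ℝ) ^ 2 := by
  have hr0 : (0 : ℝ) < r := by exact_mod_cast hr
  have hφ : (0 : ℝ) < (r.totient : ℝ) := by exact_mod_cast Nat.totient_pos.2 hr
  have h1 : ((r : ℝ) / (r.totient : ℝ)) ^ 2 ≤ 2 * r := by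
    rw [MP_9c2ea5_nt.div_totient_eq hr, ← Finset.prod_pow]
    calc ∏ p ∈ r.primeFactors, ((p : ℝ) / ((p : ℝ) - 1)) ^ 2
        ≤ ∏ p ∈ r.primeFactors, ((if p = 2 then (2 : ℝ) else 1) * (p : ℝ)) :=
          Finset.prod_le_prod (fun p _ => sq_nonneg _)
            (fun p hp => TotR_ratio (Nat.prime_of_mem_primeFactors hp))
      _ = (∏ p ∈ r.primeFactors, (if p = 2 then (2 : ℝ) else 1)) * ∏ p ∈ r.primeFactors, (p : ℝ) :=
          Finset.prod_mul_distrib
      _ ≤ 2 * r := by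
          have h2 : ∏ p ∈ r.primeFactors, (if p = 2 then (2 : ℝ) else 1) ≤ 2 := by
            rw [Finset.prod_ite_eq']
            split_ifs <;> norm_num
          have h3 : ∏ p ∈ r.primeFactors, (p : ℝ) ≤ r := by
            rw [← Nat.cast_prod]
            exact_mod_cast Nat.le_of_dvd hr (Nat.prod_primeFactors_dvd r)
          have h4 : 0 ≤ ∏ p ∈ r.primeFactors, (p : ℝ) := Finset.prod_nonneg fun p _ => Nat.cast_nonneg p
          exact mul_le_mul h2 h3 h4 (by norm_num)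
  rw [div_pow, div_le_iff₀ (by positivity)] at h1
  have h2 : (r : ℝ) * r ≤ r * (2 * (r.totient : ℝ) ^ 2) := by
    have h3 : (r : ℝ) ^ 2 = r * r := sq _
    linarith
  exact le_of_mul_le_mul_left h2 hr0

end Pool.Agent.Lib.MP_d57abb_nt.KC
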