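import Pool.Agent.Lib.MP_d57abb_nt.KC.LS
import Pool.Agent.Lib.MP_d57abb_nt.KC.TotR
import Pool.Agent.Lib.MP_d57abb_nt.KT.CW

/-!
# the fourth moment, conductors between `r₀` and `R0 P`

`W = primorial w`, `r ∣ D`, `ψ ∈ prim r`, `k = D / r`.  `ψ m ≠ 0` implies `m` prime to `r`, so on the support of `ψ` the condition `(m, k) = 1` is `(m, D) = 1`, and
`SC P (gi f P i) ψ k = Sp - Ep - Sn + En`, where `Sp = (1/#PP) ∑_{p ∈ PP} c p (p/P)^i ψ p`, `Ep` the same sum over the `p ∈ PP` with `(p, D) > 1`, `Sn = (1/#NN) ∑_{m ∈ NN} ct m (m/P)^i ψ m`, `En` the same over `(m, D) > 1`.  All four have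
norm at most `1`, so `‖SC‖^4 ≤ 64 (‖Sp‖^4 + ...) ≤ 64 (‖Sp‖² + ‖Ep‖² + ‖Sn‖² + ‖En‖²)`.
* `Sp`, `Sn` do not depend on `D`: `∑_D (1/φ(D)) ∑_{r ∣ D, r₀ < r ≤ R0} ∑_ψ (‖Sp‖² + ‖Sn‖²) = ∑_{r₀ < r ≤ R0} (∑_{D : r ∣ D} 1/φ(D)) ∑_ψ (..) ≤ max_{r > r₀} (C J K/φ(r)) · (3 + 3)` by `tot_r`, `ls_P`, `ls_N` (coefficients `c m (m/P)^i`, of absolute value
  at most `1`), and `φ(r) ≥ √(r/2) ≥ √(r₀/2)` (`tot_ge`).  This is `≤ δ/128` for `r₀` large.
* `En` for fixed `D`: `ls_N` with the coefficients `ct m (m/P)^i [(m, D) > 1]`: `∑_{r, ψ} ‖En‖² ≤ 3 #{m ∈ NN : (m, D) > 1}/#NN ≤ 3 (P/#NN) ∑_{p ∣ D, p > w} 1/p` (`p ∤ W` means `p > w`; the number of the multiples of `p` in `(0, P]` is `≤ P/p`), then the last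
  part of `KT.tot`, `NN_lower` and `cw` exactly as in `KT/FourC`: total `≤ 24 (W/φ(W)) C J K/w` small for `w` large.
* `Ep`: `#{p ∈ PP : p ∣ D} ≤ 1` for `P > 4 K` (see `Small_one`, `Exc_PP`), so `∑_{r, ψ} ‖Ep‖² ≤ 3/#PP` by `ls_P`, total `≤ 3 C J K/#PP`.
(The sum over `r ∈ D.divisors.filter (r₀ < r ∧ r ≤ R0 P)` and `ψ ∈ prim r` is at most the sum over `PrC (R0 P)`.)
-/

open Finset

namespace Pool.Agent.Lib.MP_d57abb_nt.KC

open Pool.Agent.Lib.MP_d57abb_nt Pool.Agent.Lib.MP_d57abb_nt.KT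

/-- the normalised character sum over `S` -/
private noncomputable def Mid_A (S : Finset ℕ) (g : ℕ → ℝ) {r : ℕ} (ψ : DirichletCharacter ℂ r) : ℂ :=
  ((1 / (S.card : ℝ) : ℝ) : ℂ) * ∑ m ∈ S, (g m : ℂ) * ψ (m : ZMod r)

private theorem Mid_A_le (S : Finset ℕ) (g : ℕ → ℝ) (hg : ∀ m ∈ S, |g m| ≤ 1) {r : ℕ}
    (ψ : DirichletCharacter ℂ r) : ‖Mid_A S g ψ‖ ≤ 1 := by
  unfold Mid_A
  rw [norm_mul, Complex.norm_real, Real.norm_eq_abs, abs_of_nonneg (by positivity)]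
  have h1 : ‖∑ m ∈ S, (g m : ℂ) * ψ (m : ZMod r)‖ ≤ (S.card : ℝ) := by
    refine (norm_sum_le _ _).trans ?_
    have h2 : ∑ m ∈ S, ‖(g m : ℂ) * ψ (m : ZMod r)‖ ≤ S.card • (1 : ℝ) := by
      refine Finset.sum_le_card_nsmul _ _ 1 fun m hm => ?_
      rw [norm_mul, Complex.norm_real, Real.norm_eq_abs]
      exact mul_le_one₀ (hg m hm) (norm_nonneg _) (DirichletCharacter.norm_le_one ψ _)
    rwa [nsmul_one] at h2
  rcases Nat.eq_zero_or_pos S.card with h | h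
  · rw [h, Nat.cast_zero, div_zero, zero_mul]
    exact zero_le_one
  · have h3 : (0 : ℝ) < (S.card : ℝ) := by exact_mod_cast h
    calc 1 / (S.card : ℝ) * ‖∑ m ∈ S, (g m : ℂ) * ψ (m : ZMod r)‖ ≤ 1 / (S.card : ℝ) * S.card :=
          mul_le_mul_of_nonneg_left h1 (by positivity)
      _ = 1 := one_div_mul_cancel h3.ne'

private theorem Mid_A_sum (R : ℕ) (S T : Finset ℕ)
    (hls : ∀ c : ℕ → ℝ, ∑ x ∈ PrC R, ‖∑ m ∈ S, (c m : ℂ) * x.2 (m : ZMod x.1)‖ ^ 2 ≤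
      3 * (S.card : ℝ) * ∑ m ∈ S, (c m) ^ 2)
    (g : ℕ → ℝ) (hg : ∀ m ∈ S, |g m| ≤ 1) (hTS : T ⊆ S) (hT : ∀ m ∈ S, m ∉ T → g m = 0) :
    ∑ r ∈ Icc 1 R, ∑ ψ ∈ prim r, ‖Mid_A S g ψ‖ ^ 2 ≤ 3 * ((T.card : ℝ) / (S.card : ℝ)) := by
  have h0 : ∑ r ∈ Icc 1 R, ∑ ψ ∈ prim r, ‖Mid_A S g ψ‖ ^ 2 = ∑ x ∈ PrC R, ‖Mid_A S g x.2‖ ^ 2 := by
    unfold PrC
    rw [Finset.sum_sigma]
  have h1 : ∀ x : (Σ r : ℕ, DirichletCharacter ℂ r), ‖Mid_A S g x.2‖ ^ 2 =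
      (1 / (S.card : ℝ)) ^ 2 * ‖∑ m ∈ S, (g m : ℂ) * x.2 (m : ZMod x.1)‖ ^ 2 := by
    intro x
    unfold Mid_A
    rw [norm_mul, mul_pow, Complex.norm_real, Real.norm_eq_abs, sq_abs]
  have h2 : ∑ m ∈ S, (g m) ^ 2 ≤ (T.card : ℝ) := by
    rw [← Finset.sum_subset hTS (fun m hm hm' => by rw [hT m hm hm']; ring)]
    have h3 : ∑ m ∈ T, (g m) ^ 2 ≤ T.card • (1 : ℝ) := by
      refine Finset.sum_le_card_nsmul _ _ 1 fun m hm => ?_
      rw [← sq_abs]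
      exact pow_le_one₀ (abs_nonneg _) (hg m (hTS hm))
    rwa [nsmul_one] at h3
  rw [h0, Finset.sum_congr rfl fun x _ => h1 x, ← Finset.mul_sum]
  have h3 : (1 / (S.card : ℝ)) ^ 2 * ∑ x ∈ PrC R, ‖∑ m ∈ S, (g m : ℂ) * x.2 (m : ZMod x.1)‖ ^ 2 ≤
      (1 / (S.card : ℝ)) ^ 2 * (3 * (S.card : ℝ) * (T.card : ℝ)) :=
    mul_le_mul_of_nonneg_left ((hls g).trans (mul_le_mul_of_nonneg_left h2 (by positivity)))
      (by positivity)
  refine h3.trans (le_of_eq ?_)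
  rcases Nat.eq_zero_or_pos S.card with h | h
  · rw [h]
    simp
  · have h4 : (0 : ℝ) < (S.card : ℝ) := by exact_mod_cast h
    field_simp

private theorem Mid_pick (P : ℕ) (S : Finset ℕ) (hS : S ⊆ Icc 1 P) (D r : ℕ) (hr : r ∣ D)
    (u f : ℕ → ℝ) (N : ℝ) (ψ : DirichletCharacter ℂ r) :
    ∑ m ∈ (Icc 1 P).filter (fun m => m.Coprime (D / r)),
        (((if m ∈ S then u m / N else 0) * f m : ℝ) : ℂ) * ψ (m : ZMod r) =
      ((1 / N : ℝ) : ℂ) * ∑ m ∈ S, ((u m * f m : ℝ) : ℂ) * ψ (m : ZMod r) -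
        ((1 / N : ℝ) : ℂ) * ∑ m ∈ S, ((if m.Coprime D then 0 else u m * f m : ℝ) : ℂ) *
          ψ (m : ZMod r) := by
  rw [Finset.sum_filter, ← Finset.sum_subset hS, Finset.mul_sum, Finset.mul_sum,
    ← Finset.sum_sub_distrib]
  · refine Finset.sum_congr rfl fun m hm => ?_
    rw [if_pos hm]
    have hDr : D / r ∣ D := Nat.div_dvd_of_dvd hr
    by_cases h1 : m.Coprime (D / r)
    · rw [if_pos h1]
      by_cases h2 : m.Coprime r
      · have h3 : m.Coprime D := by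
          have h4 := Nat.Coprime.mul_right h2 h1
          rwa [Nat.mul_div_cancel' hr] at h4
        rw [if_pos h3]
        push_cast
        ring
      · have h3 : ψ (m : ZMod r) = 0 :=
          ψ.map_nonunit (fun h' => h2 ((ZMod.isUnit_iff_coprime m r).1 h'))
        rw [h3]
        ring
    · have h3 : ¬ m.Coprime D := fun h => h1 (Nat.Coprime.coprime_dvd_right hDr h)
      rw [if_neg h1, if_neg h3]
      ring
  · intro m _ hm
    rw [if_neg hm]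
    split_ifs
    · push_cast
      ring
    · rfl

private theorem Mid_split (P W i : ℕ) (c ct : ℕ → ℝ) (D r : ℕ) (hr : r ∣ D)
    (ψ : DirichletCharacter ℂ r) :
    SC P (gi (fC c ct W P) P i) ψ (D / r) =
      Mid_A (PP P) (fun m => c m * ((m : ℝ) / P) ^ i) ψ -
        Mid_A (PP P) (fun m => if m.Coprime D then 0 else c m * ((m : ℝ) / P) ^ i) ψ -
      (Mid_A (NN W P) (fun m => ct m * ((m : ℝ) / P) ^ i) ψ -
        Mid_A (NN W P) (fun m => if m.Coprime D then 0 else ct m * ((m : ℝ) / P) ^ i) ψ) := by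
  have hP : PP P ⊆ Icc 1 P := by
    intro m hm
    have h1 := (mem_PP.1 hm).1
    exact Finset.mem_Icc.2 ⟨by omega, h1.2⟩
  have hN : NN W P ⊆ Icc 1 P := by
    intro m hm
    have h1 := (mem_NN.1 hm).1
    exact Finset.mem_Icc.2 ⟨by omega, h1.2⟩
  have e1 := Mid_pick P (PP P) hP D r hr c (fun m => ((m : ℝ) / P) ^ i) ((PP P).card : ℝ) ψ
  have e2 := Mid_pick P (NN W P) hN D r hr ct (fun m => ((m : ℝ) / P) ^ i) ((NN W P).card : ℝ) ψ
  unfold Mid_A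
  rw [← e1, ← e2, ← Finset.sum_sub_distrib]
  unfold SC gi fC
  refine Finset.sum_congr rfl fun m _ => ?_
  rw [← sub_mul, ← Complex.ofReal_sub, ← sub_mul]

private theorem Mid_four (x₁ x₂ x₃ x₄ : ℂ) (h₁ : ‖x₁‖ ≤ 1) (h₂ : ‖x₂‖ ≤ 1) (h₃ : ‖x₃‖ ≤ 1)
    (h₄ : ‖x₄‖ ≤ 1) :
    ‖x₁ - x₂ - (x₃ - x₄)‖ ^ 4 ≤ 64 * (‖x₁‖ ^ 2 + ‖x₃‖ ^ 2 + ‖x₄‖ ^ 2 + ‖x₂‖ ^ 2) := by
  have n1 := norm_nonneg x₁
  have n2 := norm_nonneg x₂
  have n3 := norm_nonneg x₃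
  have n4 := norm_nonneg x₄
  have h5 : ‖x₁ - x₂ - (x₃ - x₄)‖ ≤ ‖x₁‖ + ‖x₂‖ + (‖x₃‖ + ‖x₄‖) :=
    (norm_sub_le _ _).trans (add_le_add (norm_sub_le _ _) (norm_sub_le _ _))
  have h0 := norm_nonneg (x₁ - x₂ - (x₃ - x₄))
  have h6 : ‖x₁ - x₂ - (x₃ - x₄)‖ ^ 2 ≤ 4 * (‖x₁‖ ^ 2 + ‖x₃‖ ^ 2 + ‖x₄‖ ^ 2 + ‖x₂‖ ^ 2) := by
    refine (pow_le_pow_left₀ h0 h5 2).trans ?_
    nlinarith [sq_nonneg (‖x₁‖ - ‖x₂‖), sq_nonneg (‖x₁‖ - ‖x₃‖), sq_nonneg (‖x₁‖ - ‖x₄‖),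
      sq_nonneg (‖x₂‖ - ‖x₃‖), sq_nonneg (‖x₂‖ - ‖x₄‖), sq_nonneg (‖x₃‖ - ‖x₄‖)]
  have q1 : ‖x₁‖ ^ 2 ≤ 1 := pow_le_one₀ n1 h₁
  have q2 : ‖x₂‖ ^ 2 ≤ 1 := pow_le_one₀ n2 h₂
  have q3 : ‖x₃‖ ^ 2 ≤ 1 := pow_le_one₀ n3 h₃
  have q4 : ‖x₄‖ ^ 2 ≤ 1 := pow_le_one₀ n4 h₄
  have h7 : (‖x₁ - x₂ - (x₃ - x₄)‖ ^ 2) ^ 2 ≤
      (4 * (‖x₁‖ ^ 2 + ‖x₃‖ ^ 2 + ‖x₄‖ ^ 2 + ‖x₂‖ ^ 2)) ^ 2 := pow_le_pow_left₀ (by positivity) h6 2
  have h8 : ‖x₁ - x₂ - (x₃ - x₄)‖ ^ 4 = (‖x₁ - x₂ - (x₃ - x₄)‖ ^ 2) ^ 2 := by ring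
  rw [h8]
  refine h7.trans ?_
  have hQ : 0 ≤ ‖x₁‖ ^ 2 + ‖x₃‖ ^ 2 + ‖x₄‖ ^ 2 + ‖x₂‖ ^ 2 := by positivity
  nlinarith

private theorem Mid_comm (𝒟 : Finset ℕ) (h𝒟 : ∀ D ∈ 𝒟, 0 < D) (r₀ R : ℕ) (F : ℕ → ℝ) :
    ∑ D ∈ 𝒟, 1 / (D.totient : ℝ) * ∑ r ∈ D.divisors.filter (fun r => r₀ < r ∧ r ≤ R), F r =
    ∑ r ∈ (Icc 1 R).filter (fun r => r₀ < r),
      (∑ D ∈ 𝒟.filter (fun D => r ∣ D), 1 / (D.totient : ℝ)) * F r := by
  have h1 : ∀ D ∈ 𝒟, 1 / (D.totient : ℝ) *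
      ∑ r ∈ D.divisors.filter (fun r => r₀ < r ∧ r ≤ R), F r =
      ∑ r ∈ (Icc 1 R).filter (fun r => r₀ < r), if r ∣ D then 1 / (D.totient : ℝ) * F r else 0 := by
    intro D hD
    have h2 : D.divisors.filter (fun r => r₀ < r ∧ r ≤ R) =
        ((Icc 1 R).filter (fun r => r₀ < r)).filter (fun r => r ∣ D) := by
      ext r
      rw [Finset.mem_filter, Finset.mem_filter, Finset.mem_filter, Nat.mem_divisors,
        Finset.mem_Icc]
      constructor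
      · rintro ⟨⟨h3, -⟩, h4, h5⟩
        exact ⟨⟨⟨Nat.pos_of_dvd_of_pos h3 (h𝒟 D hD), h5⟩, h4⟩, h3⟩
      · rintro ⟨⟨⟨-, h5⟩, h4⟩, h3⟩
        exact ⟨⟨h3, (h𝒟 D hD).ne'⟩, h4, h5⟩
    rw [h2, Finset.mul_sum, Finset.sum_filter]
  have h2 : ∀ r ∈ (Icc 1 R).filter (fun r => r₀ < r),
      (∑ D ∈ 𝒟.filter (fun D => r ∣ D), 1 / (D.totient : ℝ)) * F r =
      ∑ D ∈ 𝒟, if r ∣ D then 1 / (D.totient : ℝ) * F r else 0 := by
    intro r _
    rw [Finset.sum_mul, Finset.sum_filter]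
  rw [Finset.sum_congr rfl h1, Finset.sum_congr rfl h2, Finset.sum_comm]

private theorem Mid_NN (W P k : ℕ) (hk : 0 < k) :
    (((NN W P).filter (fun m => ¬ m.Coprime k)).card : ℝ) ≤
      P * ∑ p ∈ k.primeFactors.filter (fun p => ¬ p ∣ W), 1 / (p : ℝ) := by
  classical
  have h1 : (NN W P).filter (fun m => ¬ m.Coprime k) ⊆
      (k.primeFactors.filter (fun p => ¬ p ∣ W)).biUnion
        (fun p => (Ioc 0 P).filter (fun x => p ∣ x)) := by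
    intro m hm
    rw [mem_filter, mem_NN] at hm
    obtain ⟨⟨⟨hm1, hm2⟩, hmW, _⟩, hmk⟩ := hm
    obtain ⟨p, hp, hpm, hpk⟩ := Nat.Prime.not_coprime_iff_dvd.1 hmk
    rw [mem_biUnion]
    refine ⟨p, ?_, ?_⟩
    · rw [mem_filter, Nat.mem_primeFactors]
      refine ⟨⟨hp, hpk, hk.ne'⟩, fun hpW => ?_⟩
      have := Nat.dvd_gcd hpm hpW
      rw [Nat.Coprime] at hmW
      rw [hmW] at this
      exact hp.one_lt.ne' (Nat.dvd_one.1 this)
    · rw [mem_filter, mem_Ioc]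
      exact ⟨⟨by omega, hm2⟩, hpm⟩
  have h2 := (card_le_card h1).trans card_biUnion_le
  calc (((NN W P).filter (fun m => ¬ m.Coprime k)).card : ℝ)
      ≤ ((∑ p ∈ k.primeFactors.filter (fun p => ¬ p ∣ W),
          ((Ioc 0 P).filter (fun x => p ∣ x)).card : ℕ) : ℝ) := by exact_mod_cast h2
    _ = ∑ p ∈ k.primeFactors.filter (fun p => ¬ p ∣ W), ((P / p : ℕ) : ℝ) := by
        push_cast
        apply Finset.sum_congr rfl
        intro p _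
        rw [Nat.Ioc_filter_dvd_card_eq_div]
    _ ≤ ∑ p ∈ k.primeFactors.filter (fun p => ¬ p ∣ W), (P : ℝ) * (1 / (p : ℝ)) := by
        apply Finset.sum_le_sum
        intro p _
        rw [mul_one_div]
        exact Nat.cast_div_le
    _ = P * ∑ p ∈ k.primeFactors.filter (fun p => ¬ p ∣ W), 1 / (p : ℝ) := by
        rw [Finset.mul_sum]

private theorem Mid_PP (P K k : ℕ) (hk : 0 < k) (hkP : k ≤ K * P) (hPK : 4 * K < P) :
    ((PP P).filter (fun m => ¬ m.Coprime k)).card ≤ 1 := by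
  rw [Finset.card_le_one]
  intro a ha b hb
  rw [mem_filter, mem_PP] at ha hb
  by_contra hab
  have hap := ha.1.2.1
  have hbp := hb.1.2.1
  have h1 : a ∣ k := by
    by_contra h
    exact ha.2 ((Nat.Prime.coprime_iff_not_dvd hap).2 h)
  have h2 : b ∣ k := by
    by_contra h
    exact hb.2 ((Nat.Prime.coprime_iff_not_dvd hbp).2 h)
  have h3 : a * b ∣ k := Nat.Coprime.mul_dvd_of_dvd_of_dvd
    ((Nat.coprime_primes hap hbp).2 hab) h1 h2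
  have h4 := Nat.le_of_dvd hk h3
  have h5 : P < 2 * a := by have := ha.1.1.1; omega
  have h6 : P < 2 * b := by have := hb.1.1.1; omega
  have h7 : P * P < (2 * a) * (2 * b) := Nat.mul_lt_mul'' h5 h6
  have h8 : 4 * (a * b) ≤ 4 * (K * P) := Nat.mul_le_mul_left _ (h4.trans hkP)
  have h9 : P * P < 4 * K * P := by nlinarith
  have h10 := Nat.lt_of_mul_lt_mul_right h9
  omega

/-- The number of the primes tends to infinity. -/
private theorem Mid_PPinf (T : ℝ) : ∃ P₀ : ℕ, ∀ P : ℕ, P₀ ≤ P → T ≤ ((PP P).card : ℝ) := by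
  obtain ⟨P₁, hP₁⟩ := PP_lower
  have h1 : ∀ᶠ x : ℝ in Filter.atTop, ‖Real.log x‖ ≤ 1 / (5 * (|T| + 1)) * ‖id x‖ :=
    Real.isLittleO_log_id_atTop.bound (by positivity)
  have h2 : ∀ᶠ P : ℕ in Filter.atTop, ‖Real.log (P : ℝ)‖ ≤ 1 / (5 * (|T| + 1)) * ‖id (P : ℝ)‖ :=
    tendsto_natCast_atTop_atTop.eventually h1
  obtain ⟨P₂, hP₂⟩ := Filter.eventually_atTop.1 h2
  refine ⟨max 2 (max P₁ P₂), fun P hP => ?_⟩
  have hP2 : 2 ≤ P := (le_max_left _ _).trans hP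
  have a1 := hP₁ P ((le_max_left _ _).trans ((le_max_right _ _).trans hP))
  have a2 := hP₂ P ((le_max_right _ _).trans ((le_max_right _ _).trans hP))
  have hPr : (2 : ℝ) ≤ P := by exact_mod_cast hP2
  have hlog : 0 < Real.log P := Real.log_pos (by linarith)
  have hPa : |(P : ℝ)| = P := abs_of_nonneg (Nat.cast_nonneg _)
  rw [id, Real.norm_eq_abs, Real.norm_eq_abs, abs_of_pos hlog, hPa] at a2
  refine le_trans ?_ a1
  rw [le_div_iff₀ (by positivity)]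
  have hT : T ≤ |T| := le_abs_self T
  have hT0 : 0 ≤ |T| := abs_nonneg T
  have a3 : 5 * (|T| + 1) * Real.log P ≤ P := by
    have a4 := mul_le_mul_of_nonneg_left a2 (show (0 : ℝ) ≤ 5 * (|T| + 1) by positivity)
    have a5 : 5 * (|T| + 1) * (1 / (5 * (|T| + 1)) * (P : ℝ)) = P := by
      field_simp
    linarith
  nlinarith

theorem part_mid (K J : ℕ) (δ : ℝ) (hδ : 0 < δ) : ∃ r₀ w₀ : ℕ, ∀ w : ℕ, w₀ ≤ w → ∃ P₀ : ℕ, ∀ P : ℕ, P₀ ≤ P →
    ∀ c ct : ℕ → ℝ, (∀ n, |c n| ≤ 1) → (∀ n, |ct n| ≤ 1) → ∀ i : ℕ,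
    ∑ D ∈ (Icc 1 (K * P)).filter (fun D => P ≤ J * D), 1 / (D.totient : ℝ) *
      ∑ r ∈ D.divisors.filter (fun r => r₀ < r ∧ r ≤ R0 P),
        ∑ ψ ∈ prim r, ‖SC P (gi (fC c ct (primorial w) P) P i) ψ (D / r)‖ ^ 4 ≤ δ := by
  obtain ⟨C, hC1, -, -, hC3, hC4⟩ := tot
  obtain ⟨C', hC1', hC'⟩ := tot_r
  have hC0 : 0 < C := by linarith
  have hC0' : 0 < C' := by linarith
  set B : ℝ := (C + C') * (J + 1) * (K + 1) with hB
  have hB0 : 0 < B := by positivity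
  have hCB : C * J * K ≤ B := by
    rw [hB]
    have hJ : (0 : ℝ) ≤ J := Nat.cast_nonneg _
    have hK : (0 : ℝ) ≤ K := Nat.cast_nonneg _
    have h1 : C * (J : ℝ) ≤ (C + C') * (J + 1) :=
      mul_le_mul (by linarith) (by linarith) hJ (by positivity)
    exact mul_le_mul h1 (by linarith) hK (by positivity)
  have hCB' : C' * J * K ≤ B := by
    rw [hB]
    have hJ : (0 : ℝ) ≤ J := Nat.cast_nonneg _
    have hK : (0 : ℝ) ≤ K := Nat.cast_nonneg _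
    have h1 : C' * (J : ℝ) ≤ (C + C') * (J + 1) :=
      mul_le_mul (by linarith) (by linarith) hJ (by positivity)
    exact mul_le_mul h1 (by linarith) hK (by positivity)
  obtain ⟨M, hM⟩ := exists_nat_ge (768 * B / δ)
  have hM0 : 0 < (M : ℝ) := lt_of_lt_of_le (by positivity) hM
  obtain ⟨w₀, hw₀⟩ := cw (δ / (6144 * B)) (by positivity)
  refine ⟨2 * M ^ 2, max 5 w₀, fun w hw => ?_⟩
  have hw5 : 5 ≤ w := (le_max_left _ _).trans hw
  have hww : w₀ ≤ w := (le_max_right _ _).trans hw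
  have hW : 0 < primorial w := primorial_pos w
  have h5 := five_dvd_primorial w hw5
  obtain ⟨P₁, hP₁⟩ := ls_P
  obtain ⟨P₂, hP₂⟩ := ls_N (primorial w) hW h5
  obtain ⟨P₃, hP₃⟩ := NN_lower (primorial w) hW h5
  obtain ⟨P₄, hP₄⟩ := Mid_PPinf (768 * B / δ)
  refine ⟨(4 * K + 1) + (P₁ + P₂ + P₃ + P₄), fun P hP c ct hc hct i => ?_⟩
  have hls1 := hP₁ P (by omega)
  have hls2 := hP₂ P (by omega)
  have hNl := hP₃ P (by omega)
  have hPl := hP₄ P (by omega)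
  have hPK : 4 * K < P := by omega
  have hP1 : 1 ≤ P := by omega
  have hP0 : (0 : ℝ) < P := by exact_mod_cast hP1
  clear hP₁ hP₂ hP₃ hP₄
  set W := primorial w with hWdef
  have hpow : ∀ m : ℕ, m ≤ P → 0 ≤ ((m : ℝ) / P) ^ i ∧ ((m : ℝ) / P) ^ i ≤ 1 := by
    intro m hm
    refine ⟨by positivity, pow_le_one₀ (by positivity) ?_⟩
    rw [div_le_one hP0]
    exact_mod_cast hm
  set a : ℕ → ℝ := fun m => c m * ((m : ℝ) / P) ^ i with ha
  set b : ℕ → ℝ := fun m => ct m * ((m : ℝ) / P) ^ i with hb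
  have ha1 : ∀ m ∈ PP P, |a m| ≤ 1 := by
    intro m hm
    obtain ⟨h1, h2⟩ := hpow m (mem_PP.1 hm).1.2
    rw [ha]
    simp only
    rw [abs_mul, abs_of_nonneg h1]
    exact mul_le_one₀ (hc m) h1 h2
  have hb1 : ∀ m ∈ NN W P, |b m| ≤ 1 := by
    intro m hm
    obtain ⟨h1, h2⟩ := hpow m (mem_NN.1 hm).1.2
    rw [hb]
    simp only
    rw [abs_mul, abs_of_nonneg h1]
    exact mul_le_one₀ (hct m) h1 h2
  have ha2 : ∀ D : ℕ, ∀ m ∈ PP P, |if m.Coprime D then 0 else a m| ≤ 1 := by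
    intro D m hm
    split_ifs
    · rw [abs_zero]
      exact zero_le_one
    · exact ha1 m hm
  have hb2 : ∀ D : ℕ, ∀ m ∈ NN W P, |if m.Coprime D then 0 else b m| ≤ 1 := by
    intro D m hm
    split_ifs
    · rw [abs_zero]
      exact zero_le_one
    · exact hb1 m hm
  -- the four sums
  let F : ℕ → ℝ := fun r => ∑ ψ ∈ prim r, (‖Mid_A (PP P) a ψ‖ ^ 2 + ‖Mid_A (NN W P) b ψ‖ ^ 2)
  have hF0 : ∀ r, 0 ≤ F r := fun r => Finset.sum_nonneg fun ψ _ => by positivity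
  have hFs : ∑ r ∈ Icc 1 (R0 P), F r ≤ 6 := by
    have e1 := Mid_A_sum (R0 P) (PP P) (PP P) hls1 a ha1 (Finset.Subset.refl _)
      (fun m hm hm' => absurd hm hm')
    have e2 := Mid_A_sum (R0 P) (NN W P) (NN W P) hls2 b hb1 (Finset.Subset.refl _)
      (fun m hm hm' => absurd hm hm')
    have e3 : ∀ S : Finset ℕ, (S.card : ℝ) / (S.card : ℝ) ≤ 1 := fun S => div_self_le_one _
    have e4 : ∑ r ∈ Icc 1 (R0 P), F r = ∑ r ∈ Icc 1 (R0 P), ∑ ψ ∈ prim r, ‖Mid_A (PP P) a ψ‖ ^ 2 +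
        ∑ r ∈ Icc 1 (R0 P), ∑ ψ ∈ prim r, ‖Mid_A (NN W P) b ψ‖ ^ 2 := by
      rw [← Finset.sum_add_distrib]
      exact Finset.sum_congr rfl fun r _ => Finset.sum_add_distrib
    have e5 := e3 (PP P)
    have e6 := e3 (NN W P)
    rw [e4]
    linarith
  let 𝒟 : Finset ℕ := (Icc 1 (K * P)).filter (fun D => P ≤ J * D)
  have h𝒟 : ∀ D ∈ 𝒟, 0 < D ∧ D ≤ K * P := by
    intro D hD
    have h1 := Finset.mem_Icc.1 (Finset.mem_filter.1 hD).1
    exact ⟨h1.1, h1.2⟩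
  have hinner : ∀ D ∈ 𝒟, ∑ r ∈ D.divisors.filter (fun r => 2 * M ^ 2 < r ∧ r ≤ R0 P),
      ∑ ψ ∈ prim r, ‖SC P (gi (fC c ct W P) P i) ψ (D / r)‖ ^ 4 ≤
      64 * ∑ r ∈ D.divisors.filter (fun r => 2 * M ^ 2 < r ∧ r ≤ R0 P), F r +
        (192 * ((P : ℝ) / ((NN W P).card : ℝ)) *
          ∑ p ∈ D.primeFactors.filter (fun p => w < p), 1 / (p : ℝ) +
        192 * (1 / ((PP P).card : ℝ))) := by
    intro D hD
    obtain ⟨hD0, hDK⟩ := h𝒟 D hD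
    have hsub : D.divisors.filter (fun r => 2 * M ^ 2 < r ∧ r ≤ R0 P) ⊆ Icc 1 (R0 P) := by
      intro r hr
      rw [Finset.mem_filter, Nat.mem_divisors] at hr
      exact Finset.mem_Icc.2 ⟨Nat.pos_of_dvd_of_pos hr.1.1 hD0, hr.2.2⟩
    have g1 : ∀ r ∈ D.divisors.filter (fun r => 2 * M ^ 2 < r ∧ r ≤ R0 P),
        ∑ ψ ∈ prim r, ‖SC P (gi (fC c ct W P) P i) ψ (D / r)‖ ^ 4 ≤
        64 * F r + 64 * ((∑ ψ ∈ prim r, ‖Mid_A (NN W P) (fun m => if m.Coprime D then 0 else b m) ψ‖ ^ 2) +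
          ∑ ψ ∈ prim r, ‖Mid_A (PP P) (fun m => if m.Coprime D then 0 else a m) ψ‖ ^ 2) := by
      intro r hr
      rw [Finset.mem_filter, Nat.mem_divisors] at hr
      rw [← Finset.sum_add_distrib, ← mul_add, ← Finset.sum_add_distrib, Finset.mul_sum]
      refine Finset.sum_le_sum fun ψ _ => ?_
      rw [Mid_split P W i c ct D r hr.1.1 ψ]
      refine (Mid_four _ _ _ _ (Mid_A_le _ _ ha1 ψ) (Mid_A_le _ _ (ha2 D) ψ) (Mid_A_le _ _ hb1 ψ)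
        (Mid_A_le _ _ (hb2 D) ψ)).trans (le_of_eq ?_)
      ring
    have g2 : ∑ r ∈ D.divisors.filter (fun r => 2 * M ^ 2 < r ∧ r ≤ R0 P),
        ∑ ψ ∈ prim r, ‖Mid_A (NN W P) (fun m => if m.Coprime D then 0 else b m) ψ‖ ^ 2 ≤
        3 * ((P : ℝ) / ((NN W P).card : ℝ) *
          ∑ p ∈ D.primeFactors.filter (fun p => w < p), 1 / (p : ℝ)) := by
      refine (Finset.sum_le_sum_of_subset_of_nonneg hsub fun r _ _ =>
        Finset.sum_nonneg fun ψ _ => by positivity).trans ?_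
      refine (Mid_A_sum (R0 P) (NN W P) ((NN W P).filter (fun m => ¬ m.Coprime D)) hls2 _ (hb2 D)
        (Finset.filter_subset _ _) ?_).trans ?_
      · intro m hm hm'
        have h1 : m.Coprime D := by
          by_contra h
          exact hm' (Finset.mem_filter.2 ⟨hm, h⟩)
        rw [if_pos h1]
      · have h1 := Mid_NN W P D hD0
        have h2 : D.primeFactors.filter (fun p => ¬ p ∣ W) = D.primeFactors.filter (fun p => w < p) := by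
          refine Finset.filter_congr fun p hp => ?_
          rw [hWdef, prime_dvd_primorial w p (Nat.prime_of_mem_primeFactors hp)]
          omega
        rw [h2] at h1
        have h3 := div_le_div_of_nonneg_right h1 (Nat.cast_nonneg (α := ℝ) (NN W P).card)
        have h5 : (P : ℝ) / ((NN W P).card : ℝ) *
            ∑ p ∈ D.primeFactors.filter (fun p => w < p), 1 / (p : ℝ) =
            (P : ℝ) * (∑ p ∈ D.primeFactors.filter (fun p => w < p), 1 / (p : ℝ)) /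
              ((NN W P).card : ℝ) := by ring
        rw [h5]
        linarith
    have g3 : ∑ r ∈ D.divisors.filter (fun r => 2 * M ^ 2 < r ∧ r ≤ R0 P),
        ∑ ψ ∈ prim r, ‖Mid_A (PP P) (fun m => if m.Coprime D then 0 else a m) ψ‖ ^ 2 ≤
        3 * (1 / ((PP P).card : ℝ)) := by
      refine (Finset.sum_le_sum_of_subset_of_nonneg hsub fun r _ _ =>
        Finset.sum_nonneg fun ψ _ => by positivity).trans ?_
      refine (Mid_A_sum (R0 P) (PP P) ((PP P).filter (fun m => ¬ m.Coprime D)) hls1 _ (ha2 D)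
        (Finset.filter_subset _ _) ?_).trans ?_
      · intro m hm hm'
        have h1 : m.Coprime D := by
          by_contra h
          exact hm' (Finset.mem_filter.2 ⟨hm, h⟩)
        rw [if_pos h1]
      · have h1 : (((PP P).filter (fun m => ¬ m.Coprime D)).card : ℝ) ≤ 1 := by
          exact_mod_cast Mid_PP P K D hD0 hDK hPK
        have h3 := div_le_div_of_nonneg_right h1 (Nat.cast_nonneg (α := ℝ) (PP P).card)
        linarith
    refine (Finset.sum_le_sum g1).trans ?_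
    rw [Finset.sum_add_distrib, ← Finset.mul_sum, ← Finset.mul_sum, Finset.sum_add_distrib]
    linarith
  have hsum : ∑ D ∈ 𝒟, 1 / (D.totient : ℝ) *
      ∑ r ∈ D.divisors.filter (fun r => 2 * M ^ 2 < r ∧ r ≤ R0 P),
        ∑ ψ ∈ prim r, ‖SC P (gi (fC c ct W P) P i) ψ (D / r)‖ ^ 4 ≤
      64 * ∑ D ∈ 𝒟, 1 / (D.totient : ℝ) *
        ∑ r ∈ D.divisors.filter (fun r => 2 * M ^ 2 < r ∧ r ≤ R0 P), F r +
      (192 * ((P : ℝ) / ((NN W P).card : ℝ)) * ∑ D ∈ 𝒟, 1 / (D.totient : ℝ) *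
          ∑ p ∈ D.primeFactors.filter (fun p => w < p), 1 / (p : ℝ) +
        192 * (1 / ((PP P).card : ℝ)) * ∑ D ∈ 𝒟, 1 / (D.totient : ℝ)) := by
    rw [Finset.mul_sum, Finset.mul_sum, Finset.mul_sum, ← Finset.sum_add_distrib,
      ← Finset.sum_add_distrib]
    refine Finset.sum_le_sum fun D hD => ?_
    have h1 := mul_le_mul_of_nonneg_left (hinner D hD)
      (show (0 : ℝ) ≤ 1 / (D.totient : ℝ) by positivity)
    refine h1.trans (le_of_eq ?_)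
    ring
  -- part one
  have hone : ∑ D ∈ 𝒟, 1 / (D.totient : ℝ) *
        ∑ r ∈ D.divisors.filter (fun r => 2 * M ^ 2 < r ∧ r ≤ R0 P), F r ≤ 6 * (B / M) := by
    rw [Mid_comm 𝒟 (fun D hD => (h𝒟 D hD).1)]
    have k1 : ∀ r ∈ (Icc 1 (R0 P)).filter (fun r => 2 * M ^ 2 < r),
        (∑ D ∈ 𝒟.filter (fun D => r ∣ D), 1 / (D.totient : ℝ)) * F r ≤ B / M * F r := by
      intro r hr
      rw [Finset.mem_filter, Finset.mem_Icc] at hr
      refine mul_le_mul_of_nonneg_right ?_ (hF0 r)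
      have l1 := hC' K J P r hP1 hr.1.1
      have l2 := tot_ge hr.1.1
      have l3 : (M : ℝ) ≤ (r.totient : ℝ) := by
        by_contra hlt
        push Not at hlt
        have l4 : (r.totient : ℝ) ^ 2 ≤ (M : ℝ) ^ 2 :=
          pow_le_pow_left₀ (Nat.cast_nonneg _) hlt.le 2
        have l5 : ((2 * M ^ 2 : ℕ) : ℝ) < (r : ℝ) := by exact_mod_cast hr.2
        push_cast at l5
        linarith
      refine l1.trans ?_
      exact div_le_div₀ hB0.le hCB' hM0 l3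
    refine (Finset.sum_le_sum k1).trans ?_
    rw [← Finset.mul_sum]
    have k2 : ∑ r ∈ (Icc 1 (R0 P)).filter (fun r => 2 * M ^ 2 < r), F r ≤ 6 :=
      (Finset.sum_le_sum_of_subset_of_nonneg (Finset.filter_subset _ _) fun r _ _ => hF0 r).trans hFs
    have k3 := mul_le_mul_of_nonneg_left k2 (show (0 : ℝ) ≤ B / M by positivity)
    linarith
  have hone' : B / M ≤ δ / 768 := by
    rw [div_le_iff₀ hM0]
    have k1 := mul_le_mul_of_nonneg_left hM (show (0 : ℝ) ≤ δ / 768 by positivity)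
    have k2 : δ / 768 * (768 * B / δ) = B := by
      field_simp
    linarith
  -- part two
  have h3 := hC3 K J P hP1
  have h4 := hC4 K J P w hP1 (by omega)
  have hφ : (0 : ℝ) < (W.totient : ℝ) := by exact_mod_cast Nat.totient_pos.2 hW
  have hWr : (0 : ℝ) < (W : ℝ) := by exact_mod_cast hW
  have hw0 : (0 : ℝ) < (w : ℝ) := by
    have : 0 < w := by omega
    exact_mod_cast this
  have hq1 : (P : ℝ) / ((NN W P).card : ℝ) ≤ 8 * ((W : ℝ) / (W.totient : ℝ)) := by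
    apply div_le_of_le_mul₀ (by positivity) (by positivity)
    have h2 : (P : ℝ) = 8 * ((W : ℝ) / (W.totient : ℝ)) *
        ((P : ℝ) * (W.totient : ℝ) / (8 * (W : ℝ))) := by
      field_simp
    calc (P : ℝ) = 8 * ((W : ℝ) / (W.totient : ℝ)) *
        ((P : ℝ) * (W.totient : ℝ) / (8 * (W : ℝ))) := h2
      _ ≤ _ := mul_le_mul_of_nonneg_left hNl (by positivity)
  have hq2 : (W : ℝ) / (W.totient : ℝ) ≤ δ / (6144 * B) * w := by
    have h1 : 1 ≤ (W : ℝ) / (W.totient : ℝ) := by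
      rw [le_div_iff₀ hφ, one_mul]
      exact_mod_cast Nat.totient_le _
    refine le_trans ?_ (hw₀ w hww)
    exact le_self_pow₀ h1 (by norm_num)
  have htwo : 192 * ((P : ℝ) / ((NN W P).card : ℝ)) * ∑ D ∈ 𝒟, 1 / (D.totient : ℝ) *
          ∑ p ∈ D.primeFactors.filter (fun p => w < p), 1 / (p : ℝ) ≤ δ / 4 := by
    have k1 : ∑ D ∈ 𝒟, 1 / (D.totient : ℝ) *
          ∑ p ∈ D.primeFactors.filter (fun p => w < p), 1 / (p : ℝ) ≤ B / w :=
      h4.trans (div_le_div_of_nonneg_right hCB hw0.le)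
    have k2 : 192 * ((P : ℝ) / ((NN W P).card : ℝ)) ≤ 192 * (8 * (δ / (6144 * B) * w)) := by
      linarith
    have k3 : 0 ≤ ∑ D ∈ 𝒟, 1 / (D.totient : ℝ) *
          ∑ p ∈ D.primeFactors.filter (fun p => w < p), 1 / (p : ℝ) :=
      Finset.sum_nonneg fun D _ => mul_nonneg (by positivity)
        (Finset.sum_nonneg fun p _ => by positivity)
    calc _ ≤ 192 * (8 * (δ / (6144 * B) * w)) * (B / w) :=
          mul_le_mul k2 k1 k3 (by positivity)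
      _ = δ / 4 := by
          field_simp
          norm_num
  have hthree : 192 * (1 / ((PP P).card : ℝ)) * ∑ D ∈ 𝒟, 1 / (D.totient : ℝ) ≤ δ / 4 := by
    have k0 : 0 < ((PP P).card : ℝ) := lt_of_lt_of_le (by positivity) hPl
    have k1 : ∑ D ∈ 𝒟, 1 / (D.totient : ℝ) ≤ B := h3.trans hCB
    have k2 : 192 * (1 / ((PP P).card : ℝ)) * ∑ D ∈ 𝒟, 1 / (D.totient : ℝ) ≤
        192 * (1 / ((PP P).card : ℝ)) * B := mul_le_mul_of_nonneg_left k1 (by positivity)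
    refine k2.trans ?_
    have k3 : 192 * (1 / ((PP P).card : ℝ)) * B = 192 * B / ((PP P).card : ℝ) := by ring
    rw [k3, div_le_iff₀ k0]
    have k4 := mul_le_mul_of_nonneg_left hPl (show (0 : ℝ) ≤ δ / 4 by positivity)
    have k5 : δ / 4 * (768 * B / δ) = 192 * B := by
      field_simp
      norm_num
    linarith
  refine hsum.trans ?_
  linarith

end Pool.Agent.Lib.MP_d57abb_nt.KC
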