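import Pool.Agent.Lib.MP_d57abb_nt.KC.Defs
import Pool.Agent.Lib.MP_d57abb_nt.KT.CntP
import Pool.Agent.Lib.MP_d57abb_nt.KT.CntN
import Pool.Agent.Lib.MP_d57abb_nt.KT.CW

/-!
# the primes in a cell

`M = w!`, `W = primorial w`, `w ≥ 5`, `L` even, `b < M`, `l < L`, `I = (l P / L, (l + 1) P / L]`.  If `PP P ∩ cell` is empty there is nothing to prove.  Otherwise `b` is prime to `M` (for `P / 2 > w` a prime `> P/2` is prime to `M`), `R5 b` (`5 ∣ M`), and `l ≥ L/2`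
(`L` even: for `l < L / 2` the cell lies in `(0, P/2]`, as `(l + 1) P / L ≤ P / 2`), so the cell lies in `(P/2, P]` (`(L/2) P / L = P / 2`) and `NN W P ∩ cell` is the whole cell (prime to `M` iff prime to `W`), with at least `P/(L M) - 2` elements.
`#NN ≤ P φ(W)/(4 W) + 2 W` (`NN_count`), `φ(M)/M = φ(W)/W` (same prime factors).  So `#(NN ∩ cell)/#NN ≥ 3/(L φ(M))` for `P` large.
`#(PP ∩ cell) log (P/2) ≤ ∑_{p ∈ I, p ≡ b (M)} log p ≤ P/(L φ(M)) + 1 + 2 P/(log P)^2`-like by `All.sw` (`sw 2 1` for the modulus `M`, see `KT/CntP`), `#PP ≥ P/(5 log P)` (`PP_lower`): `#(PP ∩ cell)/#PP ≤ 6/(L φ(M))` for `P` large.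
-/

open Finset

namespace Pool.Agent.Lib.MP_d57abb_nt.KC

open Pool.Agent.Lib.MP_d57abb_nt Pool.Agent.Lib.MP_d57abb_nt.KT

private theorem Ratio_up (M : ℕ) (hM : 0 < M) : ∃ P₀ : ℕ, ∀ P : ℕ, P₀ ≤ P → ∀ b : ℕ, Nat.Coprime b M →
    ∀ x y : ℕ, P / 2 ≤ x → x ≤ y → y ≤ P →
    (((Ioc x y).filter (fun p => p.Prime ∧ p ≡ b [MOD M])).card : ℝ) * (Real.log P - 1) ≤
      ((y : ℝ) - x) / (M.totient : ℝ) + 8 * (P / Real.log P ^ 2) := by
  obtain ⟨y0, h0⟩ := All.sw 2 1
  obtain ⟨z1, hz1⟩ := Filter.eventually_atTop.1 (CntP_log.eventually_ge_atTop (M : ℝ))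
  obtain ⟨P2, hP2⟩ := Filter.eventually_atTop.1 (CntP_log.eventually_ge_atTop 8)
  refine ⟨max (max (2 * y0 + 2) (2 * z1 + 2)) (max P2 4), fun P hP b hb x y hx hxy hy => ?_⟩
  have hPa : 2 * y0 + 2 ≤ P := ((le_max_left _ _).trans (le_max_left _ _)).trans hP
  have hPb : 2 * z1 + 2 ≤ P := ((le_max_right _ _).trans (le_max_left _ _)).trans hP
  have hPc : P2 ≤ P := ((le_max_left _ _).trans (le_max_right _ _)).trans hP
  have hPd : 4 ≤ P := ((le_max_right _ _).trans (le_max_right _ _)).trans hP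
  have hL8 : 8 ≤ Real.log P := hP2 P hPc
  have hP0 : (0 : ℝ) < P := by
    have : 0 < P := by omega
    exact_mod_cast this
  have hx2 : x ≤ P := hxy.trans hy
  have hy2 : P / 2 ≤ y := hx.trans hxy
  have e1 := h0 y (by omega) M hM (by rw [pow_one]; exact hz1 y (by omega)) b hb
  have e2 := h0 x (by omega) M hM (by rw [pow_one]; exact hz1 x (by omega)) b hb
  have f1 := CntP_err (P := P) (z := y) rfl hL8 hPd hy2 hy
  have f2 := CntP_err (P := P) (z := x) rfl hL8 hPd hx hx2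
  have hsum : ∑ n ∈ (Ioc x y).filter (fun p => p.Prime ∧ p ≡ b [MOD M]), Real.log n =
      ∑ n ∈ (Ioc 0 y).filter (fun n => n ≡ b [MOD M]), All.lp n -
        ∑ n ∈ (Ioc 0 x).filter (fun n => n ≡ b [MOD M]), All.lp n := by
    rw [Finset.sum_filter (s := Ioc 0 y), Finset.sum_filter (s := Ioc 0 x),
      ← Finset.sum_Ioc_consecutive _ (Nat.zero_le x) hxy, add_sub_cancel_left, Finset.sum_filter]
    refine Finset.sum_congr rfl fun n _ => ?_
    by_cases hp : n.Prime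
    · by_cases h5 : n ≡ b [MOD M]
      · rw [if_pos ⟨hp, h5⟩, if_pos h5, All.lp, if_pos hp]
      · rw [if_neg (fun h => h5 h.2), if_neg h5]
    · rw [if_neg (fun h => hp h.1)]
      by_cases h5 : n ≡ b [MOD M]
      · rw [if_pos h5, All.lp, if_neg hp]
      · rw [if_neg h5]
  have hlow : (((Ioc x y).filter (fun p => p.Prime ∧ p ≡ b [MOD M])).card : ℝ) * (Real.log P - 1) ≤
      ∑ n ∈ (Ioc x y).filter (fun p => p.Prime ∧ p ≡ b [MOD M]), Real.log n := by
    rw [← nsmul_eq_mul]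
    refine Finset.card_nsmul_le_sum _ _ _ fun n hn => ?_
    have h3 := Finset.mem_Ioc.1 (Finset.mem_filter.1 hn).1
    have h4 : P ≤ 2 * n := by omega
    have h5 : (P : ℝ) ≤ 2 * n := by exact_mod_cast h4
    have h6 : Real.log P ≤ Real.log (2 * n) := Real.log_le_log hP0 h5
    have hn0 : (0 : ℝ) < n := by linarith
    rw [Real.log_mul (by norm_num) hn0.ne'] at h6
    have h7 : Real.log 2 ≤ 1 := by
      have := Real.log_le_sub_one_of_pos (show (0 : ℝ) < 2 by norm_num)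
      linarith
    linarith
  rw [hsum] at hlow
  rw [abs_le] at e1 e2
  have h8 : ((y : ℝ) - x) / (M.totient : ℝ) = (y : ℝ) / (M.totient : ℝ) - x / (M.totient : ℝ) := sub_div _ _ _
  rw [h8]
  linarith [e1.2, e2.1]

/-- the ends of the cells -/
private theorem Ratio_ends (L P l : ℕ) (hL : 0 < L) :
    ((l * P / L : ℕ) : ℝ) ≤ (((l + 1) * P / L : ℕ) : ℝ) ∧
    (P : ℝ) / L - 1 ≤ (((l + 1) * P / L : ℕ) : ℝ) - ((l * P / L : ℕ) : ℝ) ∧
    (((l + 1) * P / L : ℕ) : ℝ) - ((l * P / L : ℕ) : ℝ) ≤ (P : ℝ) / L + 1 := by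
  have hL0 : (0 : ℝ) < L := by exact_mod_cast hL
  have h1 : ∀ n : ℕ, ((n / L : ℕ) : ℝ) ≤ (n : ℝ) / L ∧ (n : ℝ) / L - 1 ≤ ((n / L : ℕ) : ℝ) := by
    intro n
    refine ⟨Nat.cast_div_le, ?_⟩
    have h2 := Nat.lt_div_mul_add (a := n) hL
    have h3 : (n : ℝ) ≤ (n / L : ℕ) * L + L := by exact_mod_cast h2.le
    rw [sub_le_iff_le_add, div_le_iff₀ hL0]
    linarith
  have h2 := h1 (l * P)
  have h3 := h1 ((l + 1) * P)
  have h4 : (((l + 1) * P : ℕ) : ℝ) / L = ((l * P : ℕ) : ℝ) / L + P / L := by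
    push_cast
    ring
  rw [h4] at h3
  refine ⟨?_, by linarith [h2.1, h3.2], by linarith [h2.2, h3.1]⟩
  have h5 : l * P / L ≤ (l + 1) * P / L := Nat.div_le_div_right (Nat.mul_le_mul_right P (Nat.le_succ l))
  exact_mod_cast h5

/-- the number of integers of a cell -/
private theorem Ratio_cell (M L P b l : ℕ) (hM : 0 < M) (hL : 0 < L) (hb : b < M) :
    (P : ℝ) / (L * M) - 2 ≤ ((cell M L P b l).card : ℝ) := by
  have hM0 : (0 : ℝ) < M := by exact_mod_cast hM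
  have hM1 : (1 : ℝ) ≤ M := by exact_mod_cast hM
  have hL0 : (0 : ℝ) < L := by exact_mod_cast hL
  have h1 : cell M L P b l = (Ioc (l * P / L) ((l + 1) * P / L)).filter (fun m => m ≡ b [MOD M]) := by
    unfold cell
    refine Finset.filter_congr fun m _ => ?_
    rw [Nat.ModEq, Nat.mod_eq_of_lt hb]
  have h2 := Nat.Ioc_filter_modEq_card (l * P / L) ((l + 1) * P / L) hM b
  rw [← h1] at h2
  obtain ⟨x, hx⟩ : ∃ x : ℕ, x = l * P / L := ⟨_, rfl⟩
  obtain ⟨y, hy⟩ : ∃ y : ℕ, y = (l + 1) * P / L := ⟨_, rfl⟩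
  have h3 := (Ratio_ends L P l hL).2.1
  rw [← hx, ← hy] at h2 h3
  have h4 : ⌊((y : ℚ) - b) / (M : ℚ)⌋ - ⌊((x : ℚ) - b) / (M : ℚ)⌋ ≤ ((cell M L P b l).card : ℤ) := by
    rw [h2]
    exact le_max_left _ _
  have h5 : ((⌊((y : ℚ) - b) / (M : ℚ)⌋ : ℤ) : ℚ) - ((⌊((x : ℚ) - b) / (M : ℚ)⌋ : ℤ) : ℚ) ≤
      ((cell M L P b l).card : ℚ) := by exact_mod_cast h4
  have h6 := Int.lt_floor_add_one (((y : ℚ) - b) / (M : ℚ))
  have h7 := Int.floor_le (((x : ℚ) - b) / (M : ℚ))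
  have h8 : ((y : ℚ) - b) / (M : ℚ) - ((x : ℚ) - b) / (M : ℚ) - 1 ≤ ((cell M L P b l).card : ℚ) := by
    linarith
  have h9 : ((y : ℚ) - b) / (M : ℚ) - ((x : ℚ) - b) / (M : ℚ) = ((y : ℚ) - x) / M := by ring
  rw [h9] at h8
  have h10 : (((y : ℝ) - x) / M - 1 : ℝ) ≤ ((cell M L P b l).card : ℝ) := by exact_mod_cast h8
  have h11 : ((P : ℝ) / L - 1) / M ≤ ((y : ℝ) - x) / M := div_le_div_of_nonneg_right h3 hM0.le
  have h12 : ((P : ℝ) / L - 1) / M = (P : ℝ) / (L * M) - 1 / M := by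
    rw [sub_div, div_div]
  have h13 : 1 / (M : ℝ) ≤ 1 := by
    rw [div_le_one hM0]
    exact hM1
  linarith

private theorem Ratio_tot (w : ℕ) : (primorial w : ℝ) / ((primorial w).totient : ℝ) =
    (w.factorial : ℝ) / ((w.factorial).totient : ℝ) := by
  rw [Pool.Agent.Lib.MP_9c2ea5_nt.div_totient_eq (primorial_pos w),
    Pool.Agent.Lib.MP_9c2ea5_nt.div_totient_eq (Nat.factorial_pos w)]
  have h1 : (primorial w).primeFactors = (w.factorial).primeFactors := by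
    ext p
    rw [Nat.mem_primeFactors, Nat.mem_primeFactors]
    constructor
    · rintro ⟨h1, h2, _⟩
      exact ⟨h1, (h1.dvd_factorial).2 ((prime_dvd_primorial w p h1).1 h2), (Nat.factorial_pos w).ne'⟩
    · rintro ⟨h1, h2, _⟩
      exact ⟨h1, (prime_dvd_primorial w p h1).2 ((h1.dvd_factorial).1 h2), (primorial_pos w).ne'⟩
  rw [h1]

/-- the number of elements of `NN` -/
private theorem Ratio_NN (W P : ℕ) (hW : 0 < W) (h5 : 5 ∣ W) :
    ((NN W P).card : ℝ) ≤ (P : ℝ) * ((W.totient : ℝ) / (4 * W)) + 1 + 2 * W := by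
  have hW0 : (0 : ℝ) < W := by exact_mod_cast hW
  have h1 := NN_count W hW h5 P
  have h2 := NN_count W hW h5 (P / 2)
  rw [abs_le] at h1 h2
  have h3 : ((NN W P).card : ℝ) + (((Ioc 0 (P / 2)).filter (fun n => n.Coprime W ∧ R5 n)).card : ℝ) ≤
      (((Ioc 0 P).filter (fun n => n.Coprime W ∧ R5 n)).card : ℝ) := by
    have h4 : (NN W P).card + ((Ioc 0 (P / 2)).filter (fun n => n.Coprime W ∧ R5 n)).card ≤
        ((Ioc 0 P).filter (fun n => n.Coprime W ∧ R5 n)).card := by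
      rw [← Finset.card_union_of_disjoint]
      · refine Finset.card_le_card fun n hn => ?_
        rw [Finset.mem_union, mem_NN, Finset.mem_filter, Finset.mem_Ioc] at hn
        rw [Finset.mem_filter, Finset.mem_Ioc]
        rcases hn with ⟨h6, h7⟩ | ⟨h6, h7⟩
        · exact ⟨⟨by omega, h6.2⟩, h7⟩
        · exact ⟨⟨h6.1, h6.2.trans (Nat.div_le_self P 2)⟩, h7⟩
      · rw [Finset.disjoint_left]
        intro n hn hn'
        rw [mem_NN] at hn
        rw [Finset.mem_filter, Finset.mem_Ioc] at hn'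
        omega
    exact_mod_cast h4
  obtain ⟨κ, hκ⟩ : ∃ κ : ℝ, κ = (W.totient : ℝ) / (2 * W) := ⟨_, rfl⟩
  rw [← hκ] at h1 h2
  have hκ0 : 0 ≤ κ := by
    rw [hκ]
    positivity
  have hκ1 : κ ≤ 1 / 2 := by
    rw [hκ, div_le_iff₀ (by positivity)]
    have : (W.totient : ℝ) ≤ W := by exact_mod_cast Nat.totient_le W
    linarith
  have h4 : (P : ℝ) / 2 - 1 / 2 ≤ ((P / 2 : ℕ) : ℝ) := by
    have h3 : P ≤ 2 * (P / 2) + 1 := by omega
    have h4 : (P : ℝ) ≤ 2 * ((P / 2 : ℕ) : ℝ) + 1 := by exact_mod_cast h3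
    linarith
  have h5 : ((P : ℝ) / 2 - 1 / 2) * κ ≤ ((P / 2 : ℕ) : ℝ) * κ := mul_le_mul_of_nonneg_right h4 hκ0
  have h6 : (W.totient : ℝ) / (4 * W) = κ / 2 := by
    rw [hκ]
    field_simp
    norm_num
  rw [h6]
  linarith [h1.2, h2.1]

theorem cell_ratio (w L : ℕ) (hw : 5 ≤ w) (hL : 0 < L) (hL2 : 2 ∣ L) : ∃ P₀ : ℕ, ∀ P : ℕ, P₀ ≤ P →
    ∀ b < w.factorial, ∀ l < L,
    (((PP P).filter (fun p => p ∈ cell w.factorial L P b l)).card : ℝ) / ((PP P).card : ℝ) ≤
      4 * ((((NN (primorial w) P).filter (fun m => m ∈ cell w.factorial L P b l)).card : ℝ) /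
        ((NN (primorial w) P).card : ℝ)) := by
  obtain ⟨M, hMd⟩ : ∃ M : ℕ, M = w.factorial := ⟨_, rfl⟩
  obtain ⟨W, hWd⟩ : ∃ W : ℕ, W = primorial w := ⟨_, rfl⟩
  have hM : 0 < M := by
    rw [hMd]
    exact Nat.factorial_pos w
  have hW : 0 < W := by
    rw [hWd]
    exact primorial_pos w
  have h5W : 5 ∣ W := by
    rw [hWd]
    exact five_dvd_primorial w hw
  have h5M : 5 ∣ M := by
    rw [hMd]
    exact (Nat.Prime.dvd_factorial (by norm_num)).2 hw
  have htot := Ratio_tot w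
  rw [← hMd, ← hWd] at htot ⊢
  have hM0 : (0 : ℝ) < M := by exact_mod_cast hM
  have hW0 : (0 : ℝ) < W := by exact_mod_cast hW
  have hL0 : (0 : ℝ) < L := by exact_mod_cast hL
  have hφM : (0 : ℝ) < M.totient := by exact_mod_cast Nat.totient_pos.2 hM
  have hφM1 : (1 : ℝ) ≤ M.totient := by exact_mod_cast Nat.totient_pos.2 hM
  have hφW : (0 : ℝ) < W.totient := by exact_mod_cast Nat.totient_pos.2 hW
  obtain ⟨P1, hP1⟩ := Ratio_up M hM
  obtain ⟨P2, hP2⟩ := PP_lower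
  obtain ⟨P3, hP3⟩ := Filter.eventually_atTop.1 (CntP_log.eventually_ge_atTop
    (max 11 (176 * ((L : ℝ) * M.totient))))
  refine ⟨max (max P1 P2) (max P3 (100 * (L * M * (W + 1)) + 1)), fun P hP b hb l hl => ?_⟩
  have hPa : P1 ≤ P := ((le_max_left _ _).trans (le_max_left _ _)).trans hP
  have hPb : P2 ≤ P := ((le_max_right _ _).trans (le_max_left _ _)).trans hP
  have hPc : P3 ≤ P := ((le_max_left _ _).trans (le_max_right _ _)).trans hP
  have hPd : 100 * (L * M * (W + 1)) + 1 ≤ P := ((le_max_right _ _).trans (le_max_right _ _)).trans hP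
  have hΛ := hP3 P hPc
  rcases ((PP P).filter (fun p => p ∈ cell M L P b l)).eq_empty_or_nonempty with he | ⟨p0, hp0⟩
  · rw [he, Finset.card_empty, Nat.cast_zero, zero_div]
    positivity
  rw [Finset.mem_filter, mem_PP] at hp0
  obtain ⟨⟨hp1, hp2, hp3⟩, hp4⟩ := hp0
  unfold cell at hp4
  rw [Finset.mem_filter, Finset.mem_Ioc] at hp4
  obtain ⟨⟨hp5, hp6⟩, hp7⟩ := hp4
  have hLMW : M ≤ L * M * (W + 1) := by
    calc M = 1 * M * 1 := by ring
      _ ≤ L * M * (W + 1) := Nat.mul_le_mul (Nat.mul_le_mul_right M hL) (Nat.le_add_left 1 W)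
  have hMP : M < p0 := by omega
  have hpM : Nat.Coprime p0 M := by
    rw [Nat.Prime.coprime_iff_not_dvd hp2]
    intro h
    exact absurd (Nat.le_of_dvd hM h) (not_le.2 hMP)
  have hbM : Nat.Coprime b M := by
    rw [← hp7, Nat.Coprime, ← Nat.gcd_rec, Nat.gcd_comm]
    exact hpM
  -- the cell lies in the upper half
  obtain ⟨L', hL'⟩ := hL2
  have hL'0 : 0 < L' := by omega
  have hlL : L' ≤ l := by
    by_contra hcon
    push Not at hcon
    have h1 : (l + 1) * P / L ≤ L' * P / L := Nat.div_le_div_right (Nat.mul_le_mul_right P hcon)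
    have h2 : L' * P / L = P / 2 := by
      rw [hL', mul_comm 2 L', Nat.mul_div_mul_left _ _ hL'0]
    omega
  have hx : P / 2 ≤ l * P / L := by
    have h1 : L' * P / L ≤ l * P / L := Nat.div_le_div_right (Nat.mul_le_mul_right P hlL)
    have h2 : L' * P / L = P / 2 := by
      rw [hL', mul_comm 2 L', Nat.mul_div_mul_left _ _ hL'0]
    omega
  have hy : (l + 1) * P / L ≤ P := by
    have h1 : (l + 1) * P / L ≤ L * P / L := Nat.div_le_div_right (Nat.mul_le_mul_right P hl)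
    rw [Nat.mul_div_cancel_left _ hL] at h1
    exact h1
  have hends := Ratio_ends L P l hL
  have hxy : l * P / L ≤ (l + 1) * P / L := by exact_mod_cast hends.1
  -- upper bound
  have hup := hP1 P hPa b hbM _ _ hx hxy hy
  have hcard : (((PP P).filter (fun p => p ∈ cell M L P b l)).card : ℝ) ≤
      (((Ioc (l * P / L) ((l + 1) * P / L)).filter (fun p => p.Prime ∧ p ≡ b [MOD M])).card : ℝ) := by
    have h1 : ((PP P).filter (fun p => p ∈ cell M L P b l)).card ≤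
        ((Ioc (l * P / L) ((l + 1) * P / L)).filter (fun p => p.Prime ∧ p ≡ b [MOD M])).card := by
      refine Finset.card_le_card fun p hp => ?_
      rw [Finset.mem_filter, mem_PP] at hp
      have h2 := hp.2
      unfold cell at h2
      rw [Finset.mem_filter] at h2
      rw [Finset.mem_filter]
      refine ⟨h2.1, hp.1.2.1, ?_⟩
      rw [Nat.ModEq, Nat.mod_eq_of_lt hb]
      exact h2.2
    exact_mod_cast h1
  obtain ⟨Λ, hΛd⟩ : ∃ Λ : ℝ, Λ = Real.log P := ⟨_, rfl⟩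
  have hlow := hP2 P hPb
  rw [← hΛd] at hup hlow hΛ
  have hΛ1 : 11 ≤ Λ := (le_max_left _ _).trans hΛ
  have hΛ2 : 176 * ((L : ℝ) * M.totient) ≤ Λ := (le_max_right _ _).trans hΛ
  have hPdR : 100 * ((L : ℝ) * M * (W + 1)) + 1 ≤ P := by exact_mod_cast hPd
  have hP0 : (0 : ℝ) < P := lt_of_lt_of_le (by positivity) hPdR
  obtain ⟨c, hc⟩ : ∃ c : ℝ, c = (((PP P).filter (fun p => p ∈ cell M L P b l)).card : ℝ) := ⟨_, rfl⟩
  obtain ⟨n, hn⟩ : ∃ n : ℝ, n = ((PP P).card : ℝ) := ⟨_, rfl⟩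
  obtain ⟨A, hA⟩ : ∃ A : ℝ, A = (L : ℝ) * M.totient := ⟨_, rfl⟩
  rw [← hA] at hΛ2
  have hA0 : 0 < A := by
    rw [hA]
    positivity
  have hn0 : (P : ℝ) / (5 * Λ) ≤ n := by
    rw [hn]
    exact hlow
  have hΛ0 : 0 < Λ := by linarith
  have hn1 : 0 < n := lt_of_lt_of_le (by positivity) hn0
  have hup2 : c * (Λ - 1) ≤ P / A + 1 + 8 * (P / Λ ^ 2) := by
    rw [hc]
    refine (mul_le_mul_of_nonneg_right hcard (by linarith)).trans (hup.trans ?_)
    have h1 : ((((l + 1) * P / L : ℕ) : ℝ) - ((l * P / L : ℕ) : ℝ)) / (M.totient : ℝ) ≤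
        ((P : ℝ) / L + 1) / M.totient := div_le_div_of_nonneg_right hends.2.2 hφM.le
    have h2 : ((P : ℝ) / L + 1) / M.totient = P / A + 1 / M.totient := by
      rw [hA, add_div, div_div]
    have h3 : 1 / (M.totient : ℝ) ≤ 1 := by
      rw [div_le_one hφM]
      exact hφM1
    linarith
  have hone : 1 ≤ P / A / 22 := by
    have h1 : A ≤ L * M * (W + 1) := by
      rw [hA]
      have h2 : (M.totient : ℝ) ≤ M := by exact_mod_cast Nat.totient_le M
      have h3 : (L : ℝ) * M.totient ≤ L * M := mul_le_mul_of_nonneg_left h2 hL0.le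
      have h4 : (L : ℝ) * M ≤ L * M * (W + 1) := le_mul_of_one_le_right (by positivity) (by linarith)
      linarith
    rw [div_div, le_div_iff₀ (by positivity)]
    linarith
  have htwo : 8 * (P / Λ ^ 2) ≤ P / A / 22 := by
    have h1 : 176 * A ≤ Λ ^ 2 := by nlinarith
    have h2 : P / Λ ^ 2 ≤ P / (176 * A) := div_le_div_of_nonneg_left hP0.le (by positivity) h1
    have h3 : 8 * (P / (176 * A)) = P / A / 22 := by
      field_simp
      norm_num
    linarith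
  have hc6 : c * Λ ≤ 6 / 5 * (P / A) := by
    have hc0 : 0 ≤ c := by
      rw [hc]
      exact Nat.cast_nonneg _
    have h1 : c * (10 / 11 * Λ) ≤ c * (Λ - 1) := mul_le_mul_of_nonneg_left (by linarith) hc0
    have h2 : P / A + 1 + 8 * (P / Λ ^ 2) ≤ 12 / 11 * (P / A) := by linarith
    have h3 : c * (10 / 11 * Λ) = 10 / 11 * (c * Λ) := by ring
    linarith
  have hfirst : c / n ≤ 6 / A := by
    rw [div_le_iff₀ hn1]
    have h1 : 6 / A * (P / (5 * Λ)) ≤ 6 / A * n := mul_le_mul_of_nonneg_left hn0 (by positivity)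
    have h2 : 6 / A * (P / (5 * Λ)) = 6 / 5 * (P / A) / Λ := by
      field_simp
    rw [h2] at h1
    have h3 : c ≤ 6 / 5 * (P / A) / Λ := by
      rw [le_div_iff₀ hΛ0]
      exact hc6
    exact h3.trans h1
  -- lower bound
  have hsub : (cell M L P b l) ⊆ (NN W P).filter (fun m => m ∈ cell M L P b l) := by
    intro m hm
    rw [Finset.mem_filter]
    refine ⟨?_, hm⟩
    unfold cell at hm
    rw [Finset.mem_filter, Finset.mem_Ioc] at hm
    rw [mem_NN]
    have h1 : m % 5 = p0 % 5 := by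
      have h2 : m ≡ p0 [MOD M] := by
        rw [Nat.ModEq, hm.2, hp7]
      exact h2.of_dvd h5M
    refine ⟨⟨by omega, hm.1.2.trans hy⟩, ?_, ?_⟩
    · have h2 : Nat.Coprime m M := by
        have h3 : Nat.gcd M m = Nat.gcd M b := by
          rw [← hm.2, Nat.gcd_comm M (m % M), ← Nat.gcd_rec]
        rw [Nat.Coprime, Nat.gcd_comm, h3, Nat.gcd_comm]
        exact hbM
      refine Nat.coprime_of_dvd fun q hq h3 h4 => ?_
      rw [hWd, prime_dvd_primorial w q hq] at h4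
      have h5 : q ∣ M := by
        rw [hMd]
        exact (hq.dvd_factorial).2 h4
      exact Nat.not_coprime_of_dvd_of_dvd hq.one_lt h3 h5 h2
    · unfold R5 at hp3 ⊢
      rw [h1]
      exact hp3
  have hNc : (P : ℝ) / (L * M) - 2 ≤ (((NN W P).filter (fun m => m ∈ cell M L P b l)).card : ℝ) := by
    refine (Ratio_cell M L P b l hM hL hb).trans ?_
    exact_mod_cast Finset.card_le_card hsub
  have hN := Ratio_NN W P hW h5W
  obtain ⟨Nc, hNcd⟩ : ∃ x : ℝ, x = (((NN W P).filter (fun m => m ∈ cell M L P b l)).card : ℝ) := ⟨_, rfl⟩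
  obtain ⟨N, hNd⟩ : ∃ x : ℝ, x = ((NN W P).card : ℝ) := ⟨_, rfl⟩
  rw [← hNcd] at hNc ⊢
  rw [← hNd] at hN ⊢
  rw [← hc, ← hn]
  have hNcN : Nc ≤ N := by
    rw [hNcd, hNd]
    exact_mod_cast Finset.card_filter_le _ _
  have hLM : (0 : ℝ) < L * M := by positivity
  have hLM1 : (1 : ℝ) ≤ M := by exact_mod_cast hM
  have hNcpos : 0 < Nc := by
    have h1 : 3 ≤ (P : ℝ) / (L * M) := by
      rw [le_div_iff₀ hLM]
      have h2 : (L : ℝ) * M ≤ L * M * (W + 1) := le_mul_of_one_le_right hLM.le (by linarith)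
      linarith
    linarith
  have hNpos : 0 < N := lt_of_lt_of_le hNcpos hNcN
  refine hfirst.trans ?_
  rw [mul_div_assoc', le_div_iff₀ hNpos]
  have hκ : (W.totient : ℝ) / (4 * W) = (M.totient : ℝ) / (4 * M) := by
    rw [div_eq_div_iff hφW.ne' hφM.ne'] at htot
    rw [div_eq_div_iff (by positivity) (by positivity)]
    linarith
  rw [hκ] at hN
  have h1 : 6 / A * N ≤ 6 / A * (P * ((M.totient : ℝ) / (4 * M)) + 1 + 2 * W) :=
    mul_le_mul_of_nonneg_left hN (by positivity)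
  have h2 : 6 / A * (P * ((M.totient : ℝ) / (4 * M)) + 1 + 2 * W) =
      3 / 2 * (P / (L * M)) + 6 / A * (1 + 2 * W) := by
    rw [hA]
    field_simp
    ring
  have h3 : 6 / A * (1 + 2 * W) ≤ 6 * (1 + 2 * W) := by
    have h4 : 6 / A ≤ 6 := by
      rw [div_le_iff₀ hA0]
      have h5 : 1 ≤ A := by
        rw [hA]
        have h6 : (1 : ℝ) ≤ L := by exact_mod_cast hL
        nlinarith
      linarith
    exact mul_le_mul_of_nonneg_right h4 (by positivity)
  have h4 : 100 * (W + 1 : ℝ) ≤ P / (L * M) := by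
    rw [le_div_iff₀ hLM]
    have h5 : 100 * ((L : ℝ) * M * (W + 1)) = 100 * (W + 1 : ℝ) * (L * M) := by ring
    linarith
  linarith

end Pool.Agent.Lib.MP_d57abb_nt.KC
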