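import Pool.Agent.Lib.MP_d57abb_nt.KC.Kernel
import Pool.Agent.Lib.MP_d57abb_nt.KC.FourA
import Pool.Agent.Lib.MP_d57abb_nt.KC.Mid
import Pool.Agent.Lib.MP_d57abb_nt.KC.Low
import Pool.Agent.Lib.MP_d57abb_nt.KC.Ratio

/-!
# The kernel theorem for arbitrary sets of primes

Let `kernel_abs K (ε κ / 4)` give `J, δ, w₁`; `part_mid K J (δ/3)` gives `r₀, w₂`; `part_low K J r₀ (δ/3)` gives `L₀`; take `L` even, `L ≥ L₀`, `L > 0`; `part_low` gives `w₃`; `w = max` of the `w_i`, `r₀`, `5`; `part_one w K (δ/3)`, `cell_ratio w L`; `P ≥ N²/K` is large for `N` large.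
For `S ⊆ PP P`: `c n = 1/4` on `S`, `0` elsewhere.  On a cell `C = cell w! L P b l` let `ct = (#NN/#PP) (∑_{PP ∩ C} c)/#(NN ∩ C)` (a function of `b = m % w!` and of the index `l` of the interval of `m`, e.g. `ct m = v (m % w!) (l m)`, `l m` the unique `l < L` with `m ∈ (l P/L, (l+1) P/L]`),
so `0 ≤ ct ≤ 1` by `cell_ratio`, and `Mat w! (primorial w) L P c ct` (if `NN ∩ C` is empty then `PP ∩ C` is empty by `cell_ratio`).  `f = fC c ct (primorial w) P` is dominated by `bd`, and `F4 K J δ f P` follows from `cond_le` and the three parts (split `D.divisors` at `r₀` and `R0 P`; the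
sum over the filtered `D` of `part_one` is at most the sum over all `D`; see `KT/Four.lean`).  Multiply `kernel_abs` by `4 #PP/#S ≤ 4/κ`.
`τ b l = (4 #PP/#S) P ct/#NN` for the value `ct` on the cell (`0` if `NN ∩ C` is empty; the cell of `l < L/2` lies outside `(P/2, P]`, and there `τ = 0`; for `l ≥ L/2` the cell lies in `(P/2, P]` as `L` is even, and `NN ∩ C` is the whole cell if `b` is
prime to `w!` and `R5 b`, and empty otherwise).  `P/#NN ≤ 8 W/φ(W)` (`NN_lower`), so `Cτ = (4/κ) 8 W/φ(W)`.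
-/

open Finset

namespace Pool.Agent.Lib.MP_d57abb_nt.KC

open Pool.Agent.Lib.MP_d57abb_nt Pool.Agent.Lib.MP_d57abb_nt.KT

private theorem Gen_uniq {M L P b l b' l' m : ℕ} (h : m ∈ cell M L P b l)
    (h' : m ∈ cell M L P b' l') : b = b' ∧ l = l' := by
  unfold cell at h h'
  rw [Finset.mem_filter, Finset.mem_Ioc] at h h'
  refine ⟨h.2.symm.trans h'.2, ?_⟩
  rcases lt_trichotomy l l' with hl | hl | hl
  · exfalso
    have h1 : (l + 1) * P / L ≤ l' * P / L := Nat.div_le_div_right (Nat.mul_le_mul_right P hl)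
    omega
  · exact hl
  · exfalso
    have h1 : (l' + 1) * P / L ≤ l * P / L := Nat.div_le_div_right (Nat.mul_le_mul_right P hl)
    omega

/-- the function which is `v b l` on the cell `b, l` -/
private noncomputable def Gen_ct (M L P : ℕ) (v : ℕ → ℕ → ℝ) (m : ℕ) : ℝ :=
  ∑ b ∈ range M, ∑ l ∈ range L, if m ∈ cell M L P b l then v b l else 0

private theorem Gen_ct_eq {M L P b l m : ℕ} (v : ℕ → ℕ → ℝ) (hb : b < M) (hl : l < L)
    (h : m ∈ cell M L P b l) : Gen_ct M L P v m = v b l := by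
  unfold Gen_ct
  rw [Finset.sum_eq_single b, Finset.sum_eq_single l, if_pos h]
  · intro l' _ hne
    rw [if_neg]
    intro h'
    exact hne (Gen_uniq h' h).2
  · intro h'
    exact absurd (Finset.mem_range.2 hl) h'
  · intro b' _ hne
    refine Finset.sum_eq_zero fun l' _ => ?_
    rw [if_neg]
    intro h'
    exact hne (Gen_uniq h' h).1
  · intro h'
    exact absurd (Finset.mem_range.2 hb) h'

private theorem Gen_ct_zero {M L P m : ℕ} (v : ℕ → ℕ → ℝ)
    (h : ∀ b < M, ∀ l < L, m ∉ cell M L P b l) : Gen_ct M L P v m = 0 := by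
  unfold Gen_ct
  refine Finset.sum_eq_zero fun b hb => Finset.sum_eq_zero fun l hl => ?_
  rw [if_neg (h b (Finset.mem_range.1 hb) l (Finset.mem_range.1 hl))]

private theorem Gen_ct_abs {M L P : ℕ} (v : ℕ → ℕ → ℝ) (hv : ∀ b < M, ∀ l < L, 0 ≤ v b l ∧ v b l ≤ 1)
    (m : ℕ) : |Gen_ct M L P v m| ≤ 1 := by
  by_cases h : ∃ b, b < M ∧ ∃ l, l < L ∧ m ∈ cell M L P b l
  · obtain ⟨b, hb, l, hl, h⟩ := h
    rw [Gen_ct_eq v hb hl h, abs_le]
    have := hv b hb l hl
    constructor <;> linarith
  · push Not at h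
    rw [Gen_ct_zero v h, abs_zero]
    exact zero_le_one

private theorem Gen_cnt (M L P : ℕ) (T : Finset ℕ) : ∑ b ∈ range M, ∑ l ∈ range L,
    ((T.filter (fun m => m ∈ cell M L P b l)).card : ℝ) ≤ (T.card : ℝ) := by
  have h1 : ∀ m, Gen_ct M L P (fun _ _ => 1) m ≤ 1 := fun m =>
    (le_abs_self _).trans (Gen_ct_abs _ (fun _ _ _ _ => ⟨zero_le_one, le_rfl⟩) m)
  calc ∑ b ∈ range M, ∑ l ∈ range L, ((T.filter (fun m => m ∈ cell M L P b l)).card : ℝ)
      = ∑ m ∈ T, Gen_ct M L P (fun _ _ => 1) m := by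
        unfold Gen_ct
        symm
        rw [Finset.sum_comm]
        refine Finset.sum_congr rfl fun b _ => ?_
        rw [Finset.sum_comm]
        refine Finset.sum_congr rfl fun l _ => ?_
        rw [Finset.sum_boole]
    _ ≤ ∑ m ∈ T, (1 : ℝ) := Finset.sum_le_sum fun m _ => h1 m
    _ = (T.card : ℝ) := by rw [Finset.sum_const, nsmul_eq_mul, mul_one]

/-- A cell which meets the model is contained in it. -/
private theorem Gen_whole {w h P b l m n : ℕ} (hw : 5 ≤ w) (hl : l < 2 * h)
    (hm : m ∈ cell w.factorial (2 * h) P b l) (hmN : m ∈ NN (primorial w) P)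
    (hn : n ∈ cell w.factorial (2 * h) P b l) : n ∈ NN (primorial w) P := by
  have hh : 0 < h := by omega
  have hhalf : h * P / (2 * h) = P / 2 := by
    rw [mul_comm h P, mul_comm 2 h]
    rw [mul_comm P h]
    exact Nat.mul_div_mul_left P 2 hh
  unfold cell at hm hn
  rw [Finset.mem_filter, Finset.mem_Ioc] at hm hn
  rw [mem_NN] at hmN ⊢
  have hmod : n ≡ m [MOD w.factorial] := hn.2.trans hm.2.symm
  have hdvd : primorial w ∣ w.factorial := by
    unfold primorial
    refine Finset.prod_primes_dvd _ (fun p hp => (Finset.mem_filter.1 hp).2.prime) fun p hp => ?_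
    have h1 := Finset.mem_filter.1 hp
    exact (h1.2.dvd_factorial).2 (by have := Finset.mem_range.1 h1.1; omega)
  have h5 : 5 ∣ w.factorial := (Nat.prime_five.dvd_factorial).2 hw
  refine ⟨⟨?_, ?_⟩, ?_, ?_⟩
  · have h1 : h ≤ l := by
      by_contra hcon
      push Not at hcon
      have h2 : (l + 1) * P / (2 * h) ≤ h * P / (2 * h) :=
        Nat.div_le_div_right (Nat.mul_le_mul_right P hcon)
      omega
    have h2 : h * P / (2 * h) ≤ l * P / (2 * h) := Nat.div_le_div_right (Nat.mul_le_mul_right P h1)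
    omega
  · have h2 : (l + 1) * P / (2 * h) ≤ 2 * h * P / (2 * h) :=
      Nat.div_le_div_right (Nat.mul_le_mul_right P hl)
    rw [Nat.mul_div_cancel_left P (by omega)] at h2
    omega
  · have h1 : n ≡ m [MOD primorial w] := hmod.of_dvd hdvd
    have h2 := h1.gcd_eq
    have h3 : Nat.gcd m (primorial w) = 1 := hmN.2.1
    show Nat.gcd n (primorial w) = 1
    rw [h2, h3]
  · have h1 : n % 5 = m % 5 := hmod.of_dvd h5
    have h2 := hmN.2.2
    unfold R5 at h2 ⊢
    rw [h1]
    exact h2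

private theorem Gen_F4 {w K J r₀ P : ℕ} {δ : ℝ} {c ct : ℕ → ℝ}
    (hbd : ∀ n, |fC c ct (primorial w) P n| ≤ bd (primorial w) P n)
    (h1 : ∀ f : ℕ → ℝ, (∀ n, |f n| ≤ bd (primorial w) P n) → ∀ i : ℕ,
      ∑ D ∈ Icc 1 (K * P), 1 / (D.totient : ℝ) * ∑ r ∈ D.divisors.filter (fun r => R0 P < r),
      ∑ ψ ∈ prim r, ‖SC P (gi f P i) ψ (D / r)‖ ^ 4 ≤ δ / 3)
    (h2 : ∀ i : ℕ, ∑ D ∈ (Icc 1 (K * P)).filter (fun D => P ≤ J * D), 1 / (D.totient : ℝ) *
      ∑ r ∈ D.divisors.filter (fun r => r₀ < r ∧ r ≤ R0 P),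
        ∑ ψ ∈ prim r, ‖SC P (gi (fC c ct (primorial w) P) P i) ψ (D / r)‖ ^ 4 ≤ δ / 3)
    (h3 : ∀ i : ℕ, ∑ D ∈ (Icc 1 (K * P)).filter (fun D => P ≤ J * D), 1 / (D.totient : ℝ) *
      ∑ r ∈ D.divisors.filter (fun r => r ≤ r₀),
        ∑ ψ ∈ prim r, ‖SC P (gi (fC c ct (primorial w) P) P i) ψ (D / r)‖ ^ 4 ≤ δ / 3) :
    F4 K J δ (fC c ct (primorial w) P) P := by
  classical
  intro i
  have h1' := h1 _ hbd i
  have h2' := h2 i
  have h3' := h3 i
  have hA : ∑ D ∈ (Icc 1 (K * P)).filter (fun D => P ≤ J * D), 1 / (D.totient : ℝ) *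
      ∑ r ∈ D.divisors.filter (fun r => R0 P < r),
        ∑ ψ ∈ prim r, ‖SC P (gi (fC c ct (primorial w) P) P i) ψ (D / r)‖ ^ 4 ≤ δ / 3 := by
    refine le_trans (Finset.sum_le_sum_of_subset_of_nonneg (Finset.filter_subset _ _) ?_) h1'
    intro D _ _
    exact mul_nonneg (by positivity) (Finset.sum_nonneg fun r _ => Finset.sum_nonneg fun ψ _ =>
      by positivity)
  have key : ∀ D ∈ (Icc 1 (K * P)).filter (fun D => P ≤ J * D),
      1 / (D.totient : ℝ) * ∑ χ ∈ allc D, ‖SS P (gi (fC c ct (primorial w) P) P i) χ‖ ^ 4 ≤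
      1 / (D.totient : ℝ) * ∑ r ∈ D.divisors.filter (fun r => R0 P < r),
        ∑ ψ ∈ prim r, ‖SC P (gi (fC c ct (primorial w) P) P i) ψ (D / r)‖ ^ 4 +
      (1 / (D.totient : ℝ) * ∑ r ∈ D.divisors.filter (fun r => r₀ < r ∧ r ≤ R0 P),
        ∑ ψ ∈ prim r, ‖SC P (gi (fC c ct (primorial w) P) P i) ψ (D / r)‖ ^ 4 +
      1 / (D.totient : ℝ) * ∑ r ∈ D.divisors.filter (fun r => r ≤ r₀),
        ∑ ψ ∈ prim r, ‖SC P (gi (fC c ct (primorial w) P) P i) ψ (D / r)‖ ^ 4) := by
    intro D hD
    have hD1 : 0 < D := (Finset.mem_Icc.1 (Finset.mem_filter.1 hD).1).1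
    rw [← mul_add, ← mul_add]
    refine mul_le_mul_of_nonneg_left ?_ (by positivity)
    refine le_trans (cond_le D hD1 P _) ?_
    rw [← Finset.sum_filter_add_sum_filter_not D.divisors (fun r => R0 P < r)]
    refine add_le_add le_rfl ?_
    have hsub : D.divisors.filter (fun r => ¬ R0 P < r) ⊆
        D.divisors.filter (fun r => r₀ < r ∧ r ≤ R0 P) ∪ D.divisors.filter (fun r => r ≤ r₀) := by
      intro r hr
      rw [Finset.mem_filter] at hr
      rw [Finset.mem_union, Finset.mem_filter, Finset.mem_filter]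
      rcases le_or_gt r r₀ with h | h
      · exact Or.inr ⟨hr.1, h⟩
      · exact Or.inl ⟨hr.1, h, not_lt.1 hr.2⟩
    have hdisj : Disjoint (D.divisors.filter (fun r => r₀ < r ∧ r ≤ R0 P))
        (D.divisors.filter (fun r => r ≤ r₀)) := by
      rw [Finset.disjoint_filter]
      intro r _ ha hb
      omega
    rw [← Finset.sum_union hdisj]
    refine Finset.sum_le_sum_of_subset_of_nonneg hsub fun r _ _ => ?_
    exact Finset.sum_nonneg fun ψ _ => by positivity
  calc ∑ D ∈ (Icc 1 (K * P)).filter (fun D => P ≤ J * D), 1 / (D.totient : ℝ) *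
      ∑ χ ∈ allc D, ‖SS P (gi (fC c ct (primorial w) P) P i) χ‖ ^ 4
      ≤ _ := Finset.sum_le_sum key
    _ ≤ δ / 3 + (δ / 3 + δ / 3) := by
        rw [Finset.sum_add_distrib, Finset.sum_add_distrib]
        exact add_le_add hA (add_le_add h2' h3')
    _ = δ := by ring

private theorem Gen_bd {W P : ℕ} {c ct : ℕ → ℝ} (hc : ∀ n, |c n| ≤ 1) (hct : ∀ n, |ct n| ≤ 1)
    (n : ℕ) : |fC c ct W P n| ≤ bd W P n := by
  unfold fC bd
  refine (abs_sub _ _).trans (add_le_add ?_ ?_)
  · split_ifs
    · rw [abs_div, abs_of_nonneg (Nat.cast_nonneg (PP P).card : (0 : ℝ) ≤ _)]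
      exact div_le_div_of_nonneg_right (hc n) (Nat.cast_nonneg _)
    · rw [abs_zero]
  · split_ifs
    · rw [abs_div, abs_of_nonneg (Nat.cast_nonneg (NN W P).card : (0 : ℝ) ≤ _)]
      exact div_le_div_of_nonneg_right (hct n) (Nat.cast_nonneg _)
    · rw [abs_zero]

theorem kernel_gen (K : ℕ) (hK : 1 ≤ K) (κ : ℝ) (hκ : 0 < κ) (ε : ℝ) (hε : 0 < ε) :
    ∃ (w L : ℕ) (Cτ : ℝ), 5 ≤ w ∧ 0 < L ∧ 0 ≤ Cτ ∧ ∃ N₀ : ℕ, ∀ N : ℕ, N₀ ≤ N → ∀ P : ℕ, P ≤ N ^ 2 → N ^ 2 ≤ K * P →
    ∀ S : Finset ℕ, S ⊆ PP P → κ * ((PP P).card : ℝ) ≤ (S.card : ℝ) →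
    ∃ τ : ℕ → ℕ → ℝ, (∀ b l, |τ b l| ≤ Cτ) ∧ (∀ b l, 2 * l < L → τ b l = 0) ∧
      (∑ b ∈ range w.factorial, ∑ l ∈ range L, |τ b l| / P * ((cell w.factorial L P b l).card : ℝ) ≤ 4 / κ) ∧
      ∀ A B : ℤ × ℤ → ℂ, (∀ v, ‖A v‖ ≤ 1) → (∀ v, ‖B v‖ ≤ 1) →
      ‖∑ s ∈ box N, ∑ t ∈ box N, A s * B t *
        ((((if (dt s t).toNat ∈ S then 1 / (S.card : ℝ) else 0) -
          ∑ b ∈ range w.factorial, ∑ l ∈ range L,
            (if (dt s t).toNat ∈ cell w.factorial L P b l then τ b l / P else 0) : ℝ)) : ℂ)‖ ≤ ε * (N : ℝ) ^ 2 := by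
  classical
  obtain ⟨J, δ, hδ, w₁, hker⟩ := kernel_abs K hK (ε * κ / 4) (by positivity)
  obtain ⟨r₀, w₂, hmid⟩ := part_mid K J (δ / 3) (by positivity)
  obtain ⟨L₀, hlow⟩ := part_low K J r₀ (δ / 3) (by positivity)
  obtain ⟨w₃, hlow2⟩ := hlow (2 * (L₀ + 1)) (by omega)
  obtain ⟨h, hh⟩ : ∃ h, h = L₀ + 1 := ⟨_, rfl⟩
  rw [← hh] at hlow2
  have hh0 : 0 < h := by omega
  obtain ⟨w, hw⟩ : ∃ w, w = max (max w₁ w₂) (max w₃ 5) := ⟨_, rfl⟩
  have hw1 : w₁ ≤ w := by rw [hw]; exact (le_max_left _ _).trans (le_max_left _ _)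
  have hw2 : w₂ ≤ w := by rw [hw]; exact (le_max_right _ _).trans (le_max_left _ _)
  have hw3 : w₃ ≤ w := by rw [hw]; exact (le_max_left _ _).trans (le_max_right _ _)
  have hw5 : 5 ≤ w := by rw [hw]; exact (le_max_right _ _).trans (le_max_right _ _)
  obtain ⟨N₁, hker1⟩ := hker w hw1
  obtain ⟨P₁, hmid1⟩ := hmid w hw2
  obtain ⟨P₂, hlow1⟩ := hlow2 w hw3
  obtain ⟨P₃, hone⟩ := part_one w K hw5 (δ / 3) (by positivity)
  obtain ⟨P₄, hratio⟩ := cell_ratio w (2 * h) hw5 (by omega) (dvd_mul_right 2 h)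
  have hW0 : 0 < primorial w := primorial_pos w
  have h5W : 5 ∣ primorial w := five_dvd_primorial w hw5
  obtain ⟨P₅, hNN⟩ := NN_lower (primorial w) hW0 h5W
  obtain ⟨P₆, hPP⟩ := PP_lower
  have hφ : (0 : ℝ) < (primorial w).totient := by exact_mod_cast Nat.totient_pos.2 hW0
  have hWr : (0 : ℝ) < primorial w := by exact_mod_cast hW0
  refine ⟨w, 2 * h, 4 / κ * (8 * (primorial w : ℝ) / (primorial w).totient), hw5, by omega,
    by positivity, max N₁ (K * (P₁ + P₂ + P₃ + P₄ + P₅ + P₆ + 2)), ?_⟩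
  intro N hN P hP1 hP2 S hS hSκ
  have hN1 : N₁ ≤ N := (le_max_left _ _).trans hN
  have hN2 : K * (P₁ + P₂ + P₃ + P₄ + P₅ + P₆ + 2) ≤ N := (le_max_right _ _).trans hN
  have hPbig : P₁ + P₂ + P₃ + P₄ + P₅ + P₆ + 2 ≤ P := by
    have e1 : 1 ≤ N := le_trans (by nlinarith) hN2
    have e2 : K * (P₁ + P₂ + P₃ + P₄ + P₅ + P₆ + 2) ≤ K * P := by
      calc K * (P₁ + P₂ + P₃ + P₄ + P₅ + P₆ + 2) ≤ N := hN2
        _ ≤ N ^ 2 := by nlinarith
        _ ≤ K * P := hP2
    exact Nat.le_of_mul_le_mul_left e2 hK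
  have hP0 : (0 : ℝ) < P := by
    have : 0 < P := by omega
    exact_mod_cast this
  have hPPc : (0 : ℝ) < ((PP P).card : ℝ) := by
    refine lt_of_lt_of_le ?_ (hPP P (by omega))
    have e1 : (1 : ℝ) < P := by
      have : 1 < P := by omega
      exact_mod_cast this
    have e2 := Real.log_pos e1
    positivity
  have hNNc : (0 : ℝ) < ((NN (primorial w) P).card : ℝ) := by
    refine lt_of_lt_of_le ?_ (hNN P (by omega))
    positivity
  have hSc : (0 : ℝ) < (S.card : ℝ) := lt_of_lt_of_le (mul_pos hκ hPPc) hSκ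
  -- the functions `c`, `ct`
  obtain ⟨c, hc⟩ : ∃ c : ℕ → ℝ, c = fun n => if n ∈ S then 1 / 4 else 0 := ⟨_, rfl⟩
  have hc0 : ∀ n, 0 ≤ c n := by
    intro n
    rw [hc]
    show (0 : ℝ) ≤ if n ∈ S then 1 / 4 else 0
    split_ifs <;> norm_num
  have hc4 : ∀ n, c n ≤ 1 / 4 := by
    intro n
    rw [hc]
    show (if n ∈ S then (1 : ℝ) / 4 else 0) ≤ 1 / 4
    split_ifs <;> norm_num
  have hc1 : ∀ n, |c n| ≤ 1 := by
    intro n
    rw [abs_of_nonneg (hc0 n)]
    have := hc4 n
    linarith
  obtain ⟨v, hv⟩ : ∃ v : ℕ → ℕ → ℝ, v = fun b l =>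
    ((NN (primorial w) P).card : ℝ) / ((PP P).card : ℝ) *
      (∑ p ∈ (PP P).filter (fun p => p ∈ cell w.factorial (2 * h) P b l), c p) /
      (((NN (primorial w) P).filter (fun m => m ∈ cell w.factorial (2 * h) P b l)).card : ℝ) :=
    ⟨_, rfl⟩
  have hvv : ∀ b l, v b l = ((NN (primorial w) P).card : ℝ) / ((PP P).card : ℝ) *
      (∑ p ∈ (PP P).filter (fun p => p ∈ cell w.factorial (2 * h) P b l), c p) /
      (((NN (primorial w) P).filter (fun m => m ∈ cell w.factorial (2 * h) P b l)).card : ℝ) := by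
    intro b l
    rw [hv]
  have hsumle : ∀ b l, ∑ p ∈ (PP P).filter (fun p => p ∈ cell w.factorial (2 * h) P b l), c p ≤
      1 / 4 * (((PP P).filter (fun p => p ∈ cell w.factorial (2 * h) P b l)).card : ℝ) := by
    intro b l
    refine (Finset.sum_le_sum fun p _ => hc4 p).trans (le_of_eq ?_)
    rw [Finset.sum_const, nsmul_eq_mul, mul_comm]
  have hsum0 : ∀ b l, 0 ≤ ∑ p ∈ (PP P).filter (fun p => p ∈ cell w.factorial (2 * h) P b l), c p :=
    fun b l => Finset.sum_nonneg fun p _ => hc0 p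
  have hv01 : ∀ b < w.factorial, ∀ l < 2 * h, 0 ≤ v b l ∧ v b l ≤ 1 := by
    intro b hb l hl
    rw [hvv]
    have hs0 := hsum0 b l
    have hsl := hsumle b l
    have hr := hratio P (by omega) b hb l hl
    obtain ⟨x, hx⟩ : ∃ x : ℝ, x = ∑ p ∈ (PP P).filter (fun p => p ∈ cell w.factorial (2 * h) P b l),
      c p := ⟨_, rfl⟩
    obtain ⟨y, hy⟩ : ∃ y : ℝ, y = (((NN (primorial w) P).filter
      (fun m => m ∈ cell w.factorial (2 * h) P b l)).card : ℝ) := ⟨_, rfl⟩
    obtain ⟨z, hz⟩ : ∃ z : ℝ, z = (((PP P).filter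
      (fun p => p ∈ cell w.factorial (2 * h) P b l)).card : ℝ) := ⟨_, rfl⟩
    have hy0 : 0 ≤ y := by rw [hy]; exact Nat.cast_nonneg _
    rw [← hx] at hs0 hsl ⊢
    rw [← hy] at hr ⊢
    rw [← hz] at hsl hr
    refine ⟨by positivity, ?_⟩
    rcases hy0.eq_or_lt with h0 | h0
    · rw [← h0, div_zero]
      exact zero_le_one
    · rw [div_le_one h0]
      rw [div_le_iff₀ hPPc] at hr
      have e1 : x ≤ y / ((NN (primorial w) P).card : ℝ) * ((PP P).card : ℝ) := by linarith
      calc ((NN (primorial w) P).card : ℝ) / ((PP P).card : ℝ) * x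
          ≤ ((NN (primorial w) P).card : ℝ) / ((PP P).card : ℝ) *
            (y / ((NN (primorial w) P).card : ℝ) * ((PP P).card : ℝ)) :=
            mul_le_mul_of_nonneg_left e1 (by positivity)
        _ = y := by field_simp
  have hvempty : ∀ b l, (NN (primorial w) P).filter
      (fun m => m ∈ cell w.factorial (2 * h) P b l) = ∅ → v b l = 0 := by
    intro b l he
    rw [hvv, he, Finset.card_empty, Nat.cast_zero, div_zero]
  obtain ⟨ct, hct⟩ : ∃ ct, ct = Gen_ct w.factorial (2 * h) P v := ⟨_, rfl⟩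
  have hct1 : ∀ n, |ct n| ≤ 1 := by
    rw [hct]
    exact Gen_ct_abs v hv01
  have hmat : Mat w.factorial (primorial w) (2 * h) P c ct := by
    intro b hb l hl
    have e1 : ∑ m ∈ (NN (primorial w) P).filter (fun m => m ∈ cell w.factorial (2 * h) P b l), ct m =
        (((NN (primorial w) P).filter (fun m => m ∈ cell w.factorial (2 * h) P b l)).card : ℝ) *
          v b l := by
      rw [← nsmul_eq_mul, ← Finset.sum_const]
      refine Finset.sum_congr rfl fun m hm => ?_
      rw [hct]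
      exact Gen_ct_eq v hb hl (Finset.mem_filter.1 hm).2
    rw [e1]
    rcases ((NN (primorial w) P).filter
      (fun m => m ∈ cell w.factorial (2 * h) P b l)).eq_empty_or_nonempty with he | he
    · rw [he, Finset.card_empty, Nat.cast_zero, zero_mul, zero_div]
      have hr := hratio P (by omega) b hb l hl
      rw [he, Finset.card_empty, Nat.cast_zero, zero_div, mul_zero, div_le_iff₀ hPPc, zero_mul] at hr
      have e2 : ((PP P).filter (fun p => p ∈ cell w.factorial (2 * h) P b l)).card = 0 := by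
        have e3 : (((PP P).filter (fun p => p ∈ cell w.factorial (2 * h) P b l)).card : ℝ) = 0 :=
          le_antisymm hr (Nat.cast_nonneg _)
        exact_mod_cast e3
      rw [Finset.card_eq_zero.1 e2, Finset.sum_empty, zero_div]
    · have e4 : (0 : ℝ) < (((NN (primorial w) P).filter
          (fun m => m ∈ cell w.factorial (2 * h) P b l)).card : ℝ) := by
        exact_mod_cast he.card_pos
      rw [hvv]
      field_simp
  have hbd : ∀ n, |fC c ct (primorial w) P n| ≤ bd (primorial w) P n := Gen_bd hc1 hct1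
  have hF4 : F4 K J δ (fC c ct (primorial w) P) P :=
    Gen_F4 hbd (hone P (by omega)) (hmid1 P (by omega) c ct hc1 hct1)
      (hlow1 P (by omega) c ct hc1 hct1 hmat)
  have hmain := hker1 N hN1 P hP1 hP2 _ hbd hF4
  -- the coefficients
  obtain ⟨q, hq⟩ : ∃ q : ℝ, q = 4 * ((PP P).card : ℝ) / (S.card : ℝ) := ⟨_, rfl⟩
  have hq0 : 0 ≤ q := by
    rw [hq]
    positivity
  have hqκ : q ≤ 4 / κ := by
    rw [hq, div_le_div_iff₀ hSc hκ]
    linarith
  refine ⟨fun b l => if b < w.factorial ∧ l < 2 * h then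
    q * P * v b l / ((NN (primorial w) P).card : ℝ) else 0, ?_, ?_, ?_, ?_⟩
  · intro b l
    show |if b < w.factorial ∧ l < 2 * h then
      q * P * v b l / ((NN (primorial w) P).card : ℝ) else 0| ≤ _
    split_ifs with hbl
    · obtain ⟨e0, e1⟩ := hv01 b hbl.1 l hbl.2
      rw [abs_of_nonneg (by positivity)]
      have e2 := hNN P (by omega)
      have e3 : (P : ℝ) / ((NN (primorial w) P).card : ℝ) ≤
          8 * (primorial w : ℝ) / (primorial w).totient := by
        rw [div_le_div_iff₀ hNNc hφ]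
        rw [div_le_iff₀ (by positivity)] at e2
        linarith
      calc q * P * v b l / ((NN (primorial w) P).card : ℝ)
          = q * v b l * ((P : ℝ) / ((NN (primorial w) P).card : ℝ)) := by ring
        _ ≤ 4 / κ * (8 * (primorial w : ℝ) / (primorial w).totient) := by
            refine mul_le_mul ?_ e3 (by positivity) (by positivity)
            calc q * v b l ≤ q * 1 := mul_le_mul_of_nonneg_left e1 hq0
              _ ≤ 4 / κ := by rw [mul_one]; exact hqκ
    · rw [abs_zero]
      positivity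
  · intro b l hl
    show (if b < w.factorial ∧ l < 2 * h then
      q * P * v b l / ((NN (primorial w) P).card : ℝ) else 0) = 0
    have e1 : v b l = 0 := by
      apply hvempty
      rw [Finset.filter_eq_empty_iff]
      intro m hm hmc
      have hlh : l + 1 ≤ h := by omega
      have hhalf : h * P / (2 * h) = P / 2 := by
        rw [mul_comm 2 h]
        exact Nat.mul_div_mul_left P 2 hh0
      unfold cell at hmc
      rw [Finset.mem_filter, Finset.mem_Ioc] at hmc
      rw [mem_NN] at hm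
      have h2 : (l + 1) * P / (2 * h) ≤ h * P / (2 * h) :=
        Nat.div_le_div_right (Nat.mul_le_mul_right P hlh)
      omega
    rw [e1, mul_zero, zero_div]
    exact ite_self 0
  · calc _ ≤ ∑ b ∈ range w.factorial, ∑ l ∈ range (2 * h), q / ((NN (primorial w) P).card : ℝ) *
          (((NN (primorial w) P).filter (fun m => m ∈ cell w.factorial (2 * h) P b l)).card : ℝ) := by
          refine Finset.sum_le_sum fun b hb => Finset.sum_le_sum fun l hl => ?_
          show |if b < w.factorial ∧ l < 2 * h then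
            q * P * v b l / ((NN (primorial w) P).card : ℝ) else 0| / (P : ℝ) * _ ≤ _
          have hb' := Finset.mem_range.1 hb
          have hl' := Finset.mem_range.1 hl
          rw [if_pos ⟨hb', hl'⟩]
          obtain ⟨e0, e1⟩ := hv01 b hb' l hl'
          rw [abs_of_nonneg (by positivity)]
          rcases ((NN (primorial w) P).filter
            (fun m => m ∈ cell w.factorial (2 * h) P b l)).eq_empty_or_nonempty with he | ⟨m, hm⟩
          · rw [hvempty b l he, mul_zero, zero_div, zero_div, zero_mul]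
            positivity
          · have e2 : (NN (primorial w) P).filter (fun m => m ∈ cell w.factorial (2 * h) P b l) =
                cell w.factorial (2 * h) P b l := by
              ext n
              rw [Finset.mem_filter]
              refine ⟨fun hn => hn.2, fun hn => ⟨?_, hn⟩⟩
              have hm' := Finset.mem_filter.1 hm
              exact Gen_whole hw5 hl' hm'.2 hm'.1 hn
            rw [e2]
            have e3 : q * P * v b l / ((NN (primorial w) P).card : ℝ) / P =
                q / ((NN (primorial w) P).card : ℝ) * v b l := by field_simp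
            rw [e3]
            exact mul_le_mul_of_nonneg_right (mul_le_of_le_one_right (by positivity) e1)
              (Nat.cast_nonneg _)
      _ = q / ((NN (primorial w) P).card : ℝ) * ∑ b ∈ range w.factorial, ∑ l ∈ range (2 * h),
          (((NN (primorial w) P).filter (fun m => m ∈ cell w.factorial (2 * h) P b l)).card : ℝ) := by
          rw [Finset.mul_sum]
          refine Finset.sum_congr rfl fun b _ => ?_
          rw [Finset.mul_sum]
      _ ≤ q / ((NN (primorial w) P).card : ℝ) * ((NN (primorial w) P).card : ℝ) :=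
          mul_le_mul_of_nonneg_left (Gen_cnt _ _ _ _) (by positivity)
      _ = q := by field_simp
      _ ≤ 4 / κ := hqκ
  · intro A B hA hB
    have hpt : ∀ n : ℕ, ((if n ∈ S then 1 / (S.card : ℝ) else 0) -
          ∑ b ∈ range w.factorial, ∑ l ∈ range (2 * h),
            (if n ∈ cell w.factorial (2 * h) P b l then
              (fun b l => if b < w.factorial ∧ l < 2 * h then
                q * P * v b l / ((NN (primorial w) P).card : ℝ) else 0) b l / P else 0) : ℝ) =
        q * fC c ct (primorial w) P n := by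
      intro n
      unfold fC
      have e1 : q * (if n ∈ PP P then c n / ((PP P).card : ℝ) else 0) =
          if n ∈ S then 1 / (S.card : ℝ) else 0 := by
        by_cases hnS : n ∈ S
        · rw [if_pos (hS hnS), if_pos hnS, hc, hq]
          show 4 * ((PP P).card : ℝ) / (S.card : ℝ) * ((if n ∈ S then 1 / 4 else 0) /
            ((PP P).card : ℝ)) = _
          rw [if_pos hnS]
          field_simp
        · rw [if_neg hnS]
          have e2 : c n = 0 := by
            rw [hc]
            exact if_neg hnS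
          rw [e2, zero_div]
          split_ifs <;> rw [mul_zero]
      have e3 : q * (if n ∈ NN (primorial w) P then ct n / ((NN (primorial w) P).card : ℝ) else 0) =
          ∑ b ∈ range w.factorial, ∑ l ∈ range (2 * h),
            (if n ∈ cell w.factorial (2 * h) P b l then
              (fun b l => if b < w.factorial ∧ l < 2 * h then
                q * P * v b l / ((NN (primorial w) P).card : ℝ) else 0) b l / P else 0) := by
        by_cases hn : n ∈ NN (primorial w) P
        · rw [if_pos hn, hct]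
          unfold Gen_ct
          rw [Finset.sum_div, Finset.mul_sum]
          refine Finset.sum_congr rfl fun b hb => ?_
          rw [Finset.sum_div, Finset.mul_sum]
          refine Finset.sum_congr rfl fun l hl => ?_
          by_cases hcell : n ∈ cell w.factorial (2 * h) P b l
          · rw [if_pos hcell, if_pos hcell]
            show _ = (if b < w.factorial ∧ l < 2 * h then
                q * P * v b l / ((NN (primorial w) P).card : ℝ) else 0) / P
            rw [if_pos ⟨Finset.mem_range.1 hb, Finset.mem_range.1 hl⟩]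
            field_simp
          · rw [if_neg hcell, if_neg hcell, zero_div, mul_zero]
        · rw [if_neg hn, mul_zero]
          symm
          refine Finset.sum_eq_zero fun b hb => Finset.sum_eq_zero fun l hl => ?_
          by_cases hcell : n ∈ cell w.factorial (2 * h) P b l
          · rw [if_pos hcell]
            show (if b < w.factorial ∧ l < 2 * h then
                q * P * v b l / ((NN (primorial w) P).card : ℝ) else 0) / P = 0
            rw [if_pos ⟨Finset.mem_range.1 hb, Finset.mem_range.1 hl⟩]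
            have e4 : v b l = 0 := by
              apply hvempty
              rw [Finset.filter_eq_empty_iff]
              intro m hm hmc
              exact hn (Gen_whole hw5 (Finset.mem_range.1 hl) hmc hm hcell)
            rw [e4, mul_zero, zero_div, zero_div]
          · rw [if_neg hcell]
      rw [mul_sub, e1, e3]
    have hsum : ∑ s ∈ box N, ∑ t ∈ box N, A s * B t *
        ((((if (dt s t).toNat ∈ S then 1 / (S.card : ℝ) else 0) -
          ∑ b ∈ range w.factorial, ∑ l ∈ range (2 * h),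
            (if (dt s t).toNat ∈ cell w.factorial (2 * h) P b l then
              (fun b l => if b < w.factorial ∧ l < 2 * h then
                q * P * v b l / ((NN (primorial w) P).card : ℝ) else 0) b l / P else 0) : ℝ)) : ℂ) =
        (q : ℂ) * ∑ s ∈ box N, ∑ t ∈ box N, A s * B t *
          ((fz (fC c ct (primorial w) P) (dt s t) : ℝ) : ℂ) := by
      rw [Finset.mul_sum]
      refine Finset.sum_congr rfl fun s _ => ?_
      rw [Finset.mul_sum]
      refine Finset.sum_congr rfl fun t _ => ?_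
      rw [hpt, fz, Complex.ofReal_mul]
      ring
    rw [hsum, norm_mul, Complex.norm_real, Real.norm_eq_abs, abs_of_nonneg hq0]
    calc q * ‖∑ s ∈ box N, ∑ t ∈ box N, A s * B t *
          ((fz (fC c ct (primorial w) P) (dt s t) : ℝ) : ℂ)‖
        ≤ 4 / κ * (ε * κ / 4 * (N : ℝ) ^ 2) :=
          mul_le_mul hqκ (hmain A B hA hB) (norm_nonneg _) (by positivity)
      _ = ε * (N : ℝ) ^ 2 := by field_simp

end Pool.Agent.Lib.MP_d57abb_nt.KC
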