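import Pool.Agent.Lib.MP_d57abb_nt.KC.Defs

/-!
# a large sieve inequality from the Gram matrix

`S i = ∑_{m ∈ A} c m g i m`.  `T = ∑_i ‖S i‖² = ∑_m c m (∑_i conj (S i) g i m)`, so by Cauchy-Schwarz `T² ≤ (∑ (c m)²) ∑_m ‖∑_i conj (S i) g i m‖²`, and the
second factor is `∑_{i,j} conj (S i) S j ∑_m g i m conj (g j m) ≤ ∑_{i,j} ((‖S i‖² + ‖S j‖²)/2) ‖∑_m g i m conj (g j m)‖ ≤ T B` (the matrix of the norms is symmetric).  So `T² ≤ (∑ (c m)²) B T`.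
-/

open Finset

namespace Pool.Agent.Lib.MP_d57abb_nt.KC

theorem gram {ι : Type*} (A : Finset ℕ) (Ψ : Finset ι) (g : ι → ℕ → ℂ) (c : ℕ → ℝ) (B : ℝ) (hB0 : 0 ≤ B)
    (hB : ∀ i ∈ Ψ, ∑ j ∈ Ψ, ‖∑ m ∈ A, g i m * (starRingEnd ℂ) (g j m)‖ ≤ B) :
    ∑ i ∈ Ψ, ‖∑ m ∈ A, (c m : ℂ) * g i m‖ ^ 2 ≤ B * ∑ m ∈ A, (c m) ^ 2 := by
  classical
  obtain ⟨S, hS⟩ : ∃ S : ι → ℂ, S = fun i => ∑ m ∈ A, (c m : ℂ) * g i m := ⟨_, rfl⟩
  obtain ⟨G, hG⟩ : ∃ G : ι → ι → ℂ, G = fun i j => ∑ m ∈ A, g i m * (starRingEnd ℂ) (g j m) := ⟨_, rfl⟩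
  obtain ⟨U, hU⟩ : ∃ U : ℕ → ℂ, U = fun m => ∑ i ∈ Ψ, (starRingEnd ℂ) (S i) * g i m := ⟨_, rfl⟩
  obtain ⟨T, hT⟩ : ∃ T : ℝ, T = ∑ i ∈ Ψ, ‖S i‖ ^ 2 := ⟨_, rfl⟩
  have hgoal : ∑ i ∈ Ψ, ‖∑ m ∈ A, (c m : ℂ) * g i m‖ ^ 2 = T := by
    rw [hT, hS]
  rw [hgoal]
  have hT0 : 0 ≤ T := by
    rw [hT]
    exact Finset.sum_nonneg fun i _ => by positivity
  have hB' : ∀ i ∈ Ψ, ∑ j ∈ Ψ, ‖G i j‖ ≤ B := by
    rw [hG]
    exact hB
  have hsym : ∀ i j, ‖G i j‖ = ‖G j i‖ := by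
    intro i j
    have h1 : G i j = (starRingEnd ℂ) (G j i) := by
      rw [hG]
      simp only [map_sum, map_mul, Complex.conj_conj]
      exact Finset.sum_congr rfl fun m _ => mul_comm _ _
    rw [h1, RCLike.norm_conj]
  -- `T` as a sum over `m`
  have h1 : (T : ℂ) = ∑ m ∈ A, (c m : ℂ) * U m := by
    have h2 : (T : ℂ) = ∑ i ∈ Ψ, (starRingEnd ℂ) (S i) * S i := by
      rw [hT]
      push_cast
      refine Finset.sum_congr rfl fun i _ => ?_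
      rw [mul_comm, Complex.mul_conj, Complex.normSq_eq_norm_sq]
      push_cast
      rfl
    rw [h2, hU]
    have h3 : ∀ i ∈ Ψ, (starRingEnd ℂ) (S i) * S i
        = ∑ m ∈ A, (c m : ℂ) * ((starRingEnd ℂ) (S i) * g i m) := by
      intro i _
      conv_lhs => rw [show S i = ∑ m ∈ A, (c m : ℂ) * g i m by rw [hS]]
      rw [show (starRingEnd ℂ) (∑ m ∈ A, (c m : ℂ) * g i m) = (starRingEnd ℂ) (S i) by rw [hS],
        Finset.mul_sum]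
      exact Finset.sum_congr rfl fun m _ => by ring
    rw [Finset.sum_congr rfl h3, Finset.sum_comm]
    exact Finset.sum_congr rfl fun m _ => by rw [Finset.mul_sum]
  have h2 : T ≤ ∑ m ∈ A, |c m| * ‖U m‖ := by
    have h3 : T = ‖(T : ℂ)‖ := by rw [Complex.norm_real, Real.norm_of_nonneg hT0]
    rw [h3, h1]
    refine (norm_sum_le _ _).trans (Finset.sum_le_sum fun m _ => ?_)
    rw [norm_mul, Complex.norm_real, Real.norm_eq_abs]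
  have h3 : T ^ 2 ≤ (∑ m ∈ A, (c m) ^ 2) * ∑ m ∈ A, ‖U m‖ ^ 2 := by
    have h4 := Finset.sum_mul_sq_le_sq_mul_sq A (fun m => |c m|) (fun m => ‖U m‖)
    have h5 : T ^ 2 ≤ (∑ m ∈ A, |c m| * ‖U m‖) ^ 2 := pow_le_pow_left₀ hT0 h2 2
    simp only [sq_abs] at h4
    exact h5.trans h4
  -- the second factor
  have h4 : ∑ m ∈ A, ‖U m‖ ^ 2 ≤ ∑ i ∈ Ψ, ∑ j ∈ Ψ, ‖S i‖ * ‖S j‖ * ‖G i j‖ := by
    have h5 : ((∑ m ∈ A, ‖U m‖ ^ 2 : ℝ) : ℂ)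
        = ∑ i ∈ Ψ, ∑ j ∈ Ψ, (starRingEnd ℂ) (S i) * S j * G i j := by
      have h6 : ∀ m, ((‖U m‖ ^ 2 : ℝ) : ℂ) = ∑ i ∈ Ψ, ∑ j ∈ Ψ,
          (starRingEnd ℂ) (S i) * S j * (g i m * (starRingEnd ℂ) (g j m)) := by
        intro m
        rw [← Complex.normSq_eq_norm_sq, ← Complex.mul_conj, hU]
        simp only [map_sum, map_mul, Complex.conj_conj]
        rw [Finset.sum_mul_sum]
        exact Finset.sum_congr rfl fun i _ => Finset.sum_congr rfl fun j _ => by ring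
      push_cast
      have h7 : ∀ m ∈ A, ((‖U m‖ : ℂ)) ^ 2 = ∑ i ∈ Ψ, ∑ j ∈ Ψ,
          (starRingEnd ℂ) (S i) * S j * (g i m * (starRingEnd ℂ) (g j m)) := by
        intro m _
        rw [← h6 m]
        push_cast
        rfl
      rw [Finset.sum_congr rfl h7, Finset.sum_comm]
      refine Finset.sum_congr rfl fun i _ => ?_
      rw [Finset.sum_comm]
      refine Finset.sum_congr rfl fun j _ => ?_
      rw [hG, Finset.mul_sum]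
    have h8 : ∑ m ∈ A, ‖U m‖ ^ 2 = ‖((∑ m ∈ A, ‖U m‖ ^ 2 : ℝ) : ℂ)‖ := by
      rw [Complex.norm_real, Real.norm_of_nonneg]
      exact Finset.sum_nonneg fun m _ => by positivity
    rw [h8, h5]
    refine (norm_sum_le _ _).trans (Finset.sum_le_sum fun i _ => ?_)
    refine (norm_sum_le _ _).trans (Finset.sum_le_sum fun j _ => ?_)
    rw [norm_mul, norm_mul, RCLike.norm_conj]
  have h5 : ∑ i ∈ Ψ, ∑ j ∈ Ψ, ‖S i‖ * ‖S j‖ * ‖G i j‖ ≤ T * B := by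
    have h6 : ∑ i ∈ Ψ, ∑ j ∈ Ψ, ‖S i‖ ^ 2 * ‖G i j‖ ≤ T * B := by
      rw [hT, Finset.sum_mul]
      refine Finset.sum_le_sum fun i hi => ?_
      rw [← Finset.mul_sum]
      exact mul_le_mul_of_nonneg_left (hB' i hi) (by positivity)
    have h7 : ∑ i ∈ Ψ, ∑ j ∈ Ψ, ‖S j‖ ^ 2 * ‖G i j‖ = ∑ i ∈ Ψ, ∑ j ∈ Ψ, ‖S i‖ ^ 2 * ‖G i j‖ := by
      rw [Finset.sum_comm]
      exact Finset.sum_congr rfl fun i _ => Finset.sum_congr rfl fun j _ => by rw [hsym]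
    have h8 : ∑ i ∈ Ψ, ∑ j ∈ Ψ, ‖S i‖ * ‖S j‖ * ‖G i j‖ ≤ ∑ i ∈ Ψ, ∑ j ∈ Ψ,
        ((1 / 2 : ℝ) * (‖S i‖ ^ 2 * ‖G i j‖) + (1 / 2 : ℝ) * (‖S j‖ ^ 2 * ‖G i j‖)) := by
      refine Finset.sum_le_sum fun i _ => Finset.sum_le_sum fun j _ => ?_
      have h9 : ‖S i‖ * ‖S j‖ ≤ (1 / 2 : ℝ) * ‖S i‖ ^ 2 + (1 / 2 : ℝ) * ‖S j‖ ^ 2 := by
        nlinarith [sq_nonneg (‖S i‖ - ‖S j‖)]
      have h10 := mul_le_mul_of_nonneg_right h9 (norm_nonneg (G i j))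
      linarith
    refine h8.trans ?_
    simp only [Finset.sum_add_distrib, ← Finset.mul_sum]
    simp only [← Finset.mul_sum] at h6 h7
    rw [h7]
    linarith
  have h6 : T ^ 2 ≤ (∑ m ∈ A, (c m) ^ 2) * (T * B) :=
    h3.trans (mul_le_mul_of_nonneg_left (h4.trans h5) (Finset.sum_nonneg fun m _ => by positivity))
  rcases hT0.eq_or_lt with h7 | h7
  · rw [← h7]
    exact mul_nonneg hB0 (Finset.sum_nonneg fun m _ => by positivity)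
  · have h8 : T * T ≤ T * (B * ∑ m ∈ A, (c m) ^ 2) := by nlinarith
    exact le_of_mul_le_mul_left h8 h7

end Pool.Agent.Lib.MP_d57abb_nt.KC
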