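import Pool.Agent.Lib.MP_d57abb_nt.KC.Defs
import Pool.Agent.Lib.MP_d57abb_nt.KT.Kernel

/-!
# the mass on squares, common factors, bad pairs of squares
-/

open Finset

namespace Pool.Agent.Lib.MP_d57abb_nt.KC

open Pool.Agent.Lib.MP_d57abb_nt Pool.Agent.Lib.MP_d57abb_nt.KT

theorem bd_nonneg (W P n : ℕ) : 0 ≤ bd W P n := by
  unfold bd
  refine add_nonneg ?_ ?_
  · split_ifs <;> positivity
  · split_ifs <;> positivity

private theorem KerA_bd_zero (W P : ℕ) : bd W P 0 = 0 := by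
  unfold bd PP NN
  simp

/-- outside `(P/2, P]` the dominating function vanishes -/
theorem bd_support (W P n : ℕ) (h : n ∉ Ioc (P / 2) P) : bd W P n = 0 := by
  have h1 : n ∉ PP P := fun h1 => h (Finset.mem_filter.1 h1).1
  have h2 : n ∉ NN W P := fun h2 => h (Finset.mem_filter.1 h2).1
  unfold bd
  rw [if_neg h1, if_neg h2, add_zero]

theorem f_support {W P : ℕ} {f : ℕ → ℝ} (hf : ∀ n, |f n| ≤ bd W P n) (n : ℕ)
    (h : n ∉ Ioc (P / 2) P) : f n = 0 := by
  have h1 := hf n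
  rw [bd_support W P n h] at h1
  exact abs_eq_zero.1 (le_antisymm h1 (abs_nonneg _))

theorem fz_nonpos {W P : ℕ} {f : ℕ → ℝ} (hf : ∀ n, |f n| ≤ bd W P n) (x : ℤ) (hx : x ≤ 0) :
    fz f x = 0 := by
  unfold fz
  rw [Int.toNat_of_nonpos hx]
  refine f_support hf 0 ?_
  rw [Finset.mem_Ioc]
  omega

/-- if the coordinates of `s` have a common factor, no value is a large prime -/
private theorem KerA_noprime (P M : ℕ) (hM : M < P / 2) (a s : ℤ × ℤ) (L : ℕ) (hs : s ∈ Bx M) (hs0 : s ≠ 0)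
    (hg : Int.gcd s.1 s.2 ≠ 1) : (sq L a).filter (fun t => (dt s t).toNat ∈ PP P) = ∅ := by
  rw [Finset.filter_eq_empty_iff]
  intro t _ hmem
  rw [mem_PP] at hmem
  obtain ⟨⟨h1, h2⟩, hp, -⟩ := hmem
  have hpos : 0 < dt s t := by
    by_contra hcon
    rw [Int.toNat_of_nonpos (not_lt.1 hcon)] at hp
    exact Nat.not_prime_zero hp
  have hdvd : ((Int.gcd s.1 s.2 : ℕ) : ℤ) ∣ dt s t := by
    unfold dt
    exact dvd_sub (Dvd.dvd.mul_right (Int.gcd_dvd_left s.1 s.2) _) (Dvd.dvd.mul_left (Int.gcd_dvd_right s.1 s.2) _)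
  have hdvd' : Int.gcd s.1 s.2 ∣ (dt s t).toNat := by
    have : (((dt s t).toNat : ℕ) : ℤ) = dt s t := Int.toNat_of_nonneg hpos.le
    rw [← this] at hdvd
    exact_mod_cast hdvd
  have heq : Int.gcd s.1 s.2 = (dt s t).toNat := by
    rcases (Nat.dvd_prime hp).1 hdvd' with h | h
    · exact absurd h hg
    · exact h
  unfold Bx at hs
  rw [Finset.mem_product, Finset.mem_Icc, Finset.mem_Icc] at hs
  have hle : Int.gcd s.1 s.2 ≤ M := by
    by_cases hs1 : s.1 = 0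
    · have hs2 : s.2 ≠ 0 := fun h => hs0 (Prod.ext hs1 h)
      have h3 : Int.gcd s.1 s.2 ≤ s.2.natAbs :=
        Nat.le_of_dvd (Int.natAbs_pos.2 hs2) (Int.natCast_dvd.1 (Int.gcd_dvd_right s.1 s.2))
      have h4 : s.2.natAbs ≤ M := by omega
      exact h3.trans h4
    · have h3 : Int.gcd s.1 s.2 ≤ s.1.natAbs :=
        Nat.le_of_dvd (Int.natAbs_pos.2 hs1) (Int.natCast_dvd.1 (Int.gcd_dvd_left s.1 s.2))
      have h4 : s.1.natAbs ≤ M := by omega
      exact h3.trans h4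
  omega

/-- the sum of the values of `bd` on a square, by counting -/
private theorem KerA_count (W P L : ℕ) (a s : ℤ × ℤ) :
    ∑ t ∈ sq L a, bd W P (dt s t).toNat ≤
      (((sq L a).filter (fun t => (dt s t).toNat ∈ PP P)).card : ℝ) * (1 / ((PP P).card : ℝ)) +
      (((sq L a).filter (fun t => 0 < dt s t ∧ (dt s t).toNat.Coprime W)).card : ℝ) * (1 / ((NN W P).card : ℝ)) := by
  have h1 : ∀ t ∈ sq L a, bd W P (dt s t).toNat ≤
      (if (dt s t).toNat ∈ PP P then 1 / ((PP P).card : ℝ) else 0) +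
      (if 0 < dt s t ∧ (dt s t).toNat.Coprime W then 1 / ((NN W P).card : ℝ) else 0) := by
    intro t _
    unfold bd
    have h2 : (if (dt s t).toNat ∈ NN W P then 1 / ((NN W P).card : ℝ) else 0) ≤
        (if 0 < dt s t ∧ (dt s t).toNat.Coprime W then 1 / ((NN W P).card : ℝ) else 0) := by
      by_cases h : (dt s t).toNat ∈ NN W P
      · have h3 := mem_NN.1 h
        have h4 : 0 < dt s t := by
          by_contra hcon
          have : (dt s t).toNat = 0 := Int.toNat_of_nonpos (not_lt.1 hcon)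
          have h5 := h3.1.1
          rw [this] at h5
          omega
        rw [if_pos h, if_pos ⟨h4, h3.2.1⟩]
      · rw [if_neg h]
        split_ifs <;> positivity
    linarith
  refine (Finset.sum_le_sum h1).trans (le_of_eq ?_)
  rw [Finset.sum_add_distrib, ← Finset.sum_filter, ← Finset.sum_filter, Finset.sum_const, Finset.sum_const,
    nsmul_eq_mul, nsmul_eq_mul]

theorem KerA_GQ (K : ℕ) (hK : 1 ≤ K) : ∃ C₂ : ℝ, 0 < C₂ ∧ ∀ J : ℕ, 1 ≤ J → ∀ W : ℕ, 0 < W → 5 ∣ W → ∃ N₀ : ℕ, ∀ N : ℕ, N₀ ≤ N →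
    ∀ P : ℕ, P ≤ N ^ 2 → N ^ 2 ≤ K * P → ∀ a s : ℤ × ℤ, s ∈ Bx (J * N) →
    ∑ t ∈ sq (N / J + 1) a, bd W P (dt s t).toNat ≤ C₂ / (J : ℝ) ^ 2 := by
  obtain ⟨C, hC, L₀, hL₀⟩ := sq_primes
  obtain ⟨P₁, hP₁⟩ := PP_lower
  refine ⟨80 * C * K + 64 * K, by positivity, fun J hJ W hW h5 => ?_⟩
  obtain ⟨L₁, hL₁⟩ := sq_model W hW
  obtain ⟨P₂, hP₂⟩ := NN_lower W hW h5
  refine ⟨J * (L₀ + L₁ + 2) + K * (P₁ + P₂ + 2) + J ^ 2 + (2 * J * K + 4 * K) + 1, fun N hN P hPN hNP a s hs => ?_⟩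
  have hJpos : (0 : ℝ) < J := by exact_mod_cast hJ
  have hKpos : (0 : ℝ) < K := by exact_mod_cast hK
  have hN1 : J * (L₀ + L₁ + 2) ≤ N := by
    have h1 : 0 ≤ K * (P₁ + P₂ + 2) := Nat.zero_le _
    have h2 : 0 ≤ J ^ 2 := Nat.zero_le _
    have h3 : 0 ≤ 2 * J * K + 4 * K := Nat.zero_le _
    linarith
  have hN2 : K * (P₁ + P₂ + 2) ≤ N := by
    have h1 : 0 ≤ J * (L₀ + L₁ + 2) := Nat.zero_le _
    have h2 : 0 ≤ J ^ 2 := Nat.zero_le _
    have h3 : 0 ≤ 2 * J * K + 4 * K := Nat.zero_le _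
    linarith
  have hN3 : J ^ 2 ≤ N := by
    have h1 : 0 ≤ J * (L₀ + L₁ + 2) := Nat.zero_le _
    have h2 : 0 ≤ K * (P₁ + P₂ + 2) := Nat.zero_le _
    have h3 : 0 ≤ 2 * J * K + 4 * K := Nat.zero_le _
    linarith
  have hN4 : 2 * J * K + 4 * K ≤ N := by
    have h1 : 0 ≤ J * (L₀ + L₁ + 2) := Nat.zero_le _
    have h2 : 0 ≤ K * (P₁ + P₂ + 2) := Nat.zero_le _
    have h3 : 0 ≤ J ^ 2 := Nat.zero_le _
    linarith
  have hN5 : 1 ≤ N := by
    have h1 : 0 ≤ J * (L₀ + L₁ + 2) := Nat.zero_le _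
    have h2 : 0 ≤ K * (P₁ + P₂ + 2) := Nat.zero_le _
    have h3 : 0 ≤ J ^ 2 := Nat.zero_le _
    have h4 : 0 ≤ 2 * J * K + 4 * K := Nat.zero_le _
    linarith
  have hdiv : L₀ + L₁ + 2 ≤ N / J := by
    rw [Nat.le_div_iff_mul_le (by omega), mul_comm]
    exact hN1
  obtain ⟨L, hL⟩ : ∃ L, L = N / J + 1 := ⟨_, rfl⟩
  rw [← hL]
  have hLL0 : L₀ ≤ L := by omega
  have hLL1 : L₁ ≤ L := by omega
  have hNJL : N < J * L := by
    rw [hL]
    exact Nat.lt_mul_div_succ N (by omega)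
  have hPbig : P₁ + P₂ + 2 ≤ P := by
    by_contra hcon
    have h1 : K * P < K * (P₁ + P₂ + 2) := Nat.mul_lt_mul_of_pos_left (by omega) (by omega)
    have h2 : N ≤ N ^ 2 := by nlinarith
    omega
  have hPJ : 2 * (J * N) + 4 * N ≤ P := by
    by_contra hcon
    have h1 : K * P < K * (2 * (J * N) + 4 * N) := Nat.mul_lt_mul_of_pos_left (by omega) (by omega)
    have h2 : (2 * J * K + 4 * K) * N ≤ N * N := Nat.mul_le_mul_right N hN4
    nlinarith
  have hLP : L ≤ P := by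
    have h1 : N / J ≤ N := Nat.div_le_self N J
    omega
  have hhalf : J * N < P / 2 := by omega
  have hL4 : P ≤ L ^ 4 := by
    have h1 : N ≤ L ^ 2 := by
      by_contra hcon
      have h2 : J ^ 2 * L ^ 2 < J ^ 2 * N := Nat.mul_lt_mul_of_pos_left (by omega) (by positivity)
      have h3 : N * N < (J * L) * (J * L) := Nat.mul_self_lt_mul_self hNJL
      have h4 : J ^ 2 * N ≤ N * N := Nat.mul_le_mul_right N hN3
      nlinarith
    calc P ≤ N ^ 2 := hPN
      _ ≤ (L ^ 2) ^ 2 := Nat.pow_le_pow_left h1 2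
      _ = L ^ 4 := by ring
  have hPpos : (0 : ℝ) < P := by
    have : 0 < P := by omega
    exact_mod_cast this
  have hLpos : (0 : ℝ) < L := by
    have : 0 < L := by omega
    exact_mod_cast this
  have hlogL : 0 < Real.log L := by
    refine Real.log_pos ?_
    have : 1 < L := by omega
    exact_mod_cast this
  have hlogP : 0 < Real.log P := by
    refine Real.log_pos ?_
    have : 1 < P := by omega
    exact_mod_cast this
  have hlog : Real.log P ≤ 4 * Real.log L := by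
    have h1 : (P : ℝ) ≤ (L : ℝ) ^ 4 := by exact_mod_cast hL4
    have h2 := Real.log_le_log hPpos h1
    rw [Real.log_pow] at h2
    exact_mod_cast h2
  have hL2 : (L : ℝ) ≤ 2 * (N : ℝ) / J := by
    have h1 : ((N / J : ℕ) : ℝ) ≤ (N : ℝ) / J := Nat.cast_div_le
    have h2 : (1 : ℝ) ≤ (N : ℝ) / J := by
      have : (1 : ℝ) ≤ ((N / J : ℕ) : ℝ) := by
        have : 1 ≤ N / J := by omega
        exact_mod_cast this
      linarith
    have h3 : (L : ℝ) = ((N / J : ℕ) : ℝ) + 1 := by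
      rw [hL]
      push_cast
      ring
    rw [h3]
    have h4 : 2 * (N : ℝ) / J = (N : ℝ) / J + (N : ℝ) / J := by ring
    rw [h4]
    linarith
  have hL3 : (L : ℝ) ^ 2 / P ≤ 4 * K / (J : ℝ) ^ 2 := by
    have h1 : (L : ℝ) ^ 2 ≤ (2 * (N : ℝ) / J) ^ 2 := pow_le_pow_left₀ hLpos.le hL2 2
    have h2 : (N : ℝ) ^ 2 ≤ K * P := by exact_mod_cast hNP
    rw [div_le_iff₀ hPpos]
    refine h1.trans ?_
    rw [div_pow, div_mul_eq_mul_div]
    refine div_le_div_of_nonneg_right ?_ (by positivity)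
    nlinarith
  by_cases hs0 : s = 0
  · have hz : ∀ t ∈ sq L a, bd W P (dt s t).toNat = 0 := by
      intro t _
      have : dt s t = 0 := by
        rw [hs0]
        unfold dt
        simp
      rw [this, Int.toNat_zero, KerA_bd_zero]
    rw [Finset.sum_congr rfl hz, Finset.sum_const_zero]
    positivity
  · refine (KerA_count W P L a s).trans ?_
    have hPP := hP₁ P (by omega)
    have hNN := hP₂ P (by omega)
    have hφ : (0 : ℝ) < (W.totient : ℝ) := by
      have := Nat.totient_pos.2 hW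
      exact_mod_cast this
    have hWpos : (0 : ℝ) < (W : ℝ) := by exact_mod_cast hW
    have hA : (((sq L a).filter (fun t => (dt s t).toNat ∈ PP P)).card : ℝ) * (1 / ((PP P).card : ℝ)) ≤
        80 * C * K / (J : ℝ) ^ 2 := by
      by_cases hg : Int.gcd s.1 s.2 = 1
      · have h1 := hL₀ L hLL0 P hLP a s hg
        have h2 : 1 / ((PP P).card : ℝ) ≤ 5 * Real.log P / P := by
          have h3 : (0 : ℝ) < (P : ℝ) / (5 * Real.log P) := by positivity
          have h4 := one_div_le_one_div_of_le h3 hPP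
          rwa [one_div_div] at h4
        calc (((sq L a).filter (fun t => (dt s t).toNat ∈ PP P)).card : ℝ) * (1 / ((PP P).card : ℝ))
            ≤ (C * (L : ℝ) ^ 2 / Real.log L) * (5 * Real.log P / P) :=
              mul_le_mul h1 h2 (by positivity) (by positivity)
          _ = 5 * C * (Real.log P / Real.log L) * ((L : ℝ) ^ 2 / P) := by
              field_simp
          _ ≤ 5 * C * 4 * (4 * K / (J : ℝ) ^ 2) := by
              refine mul_le_mul ?_ hL3 (by positivity) (by positivity)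
              refine mul_le_mul_of_nonneg_left ?_ (by positivity)
              rw [div_le_iff₀ hlogL]
              exact hlog
          _ = 80 * C * K / (J : ℝ) ^ 2 := by ring
      · rw [KerA_noprime P (J * N) hhalf a s L hs hs0 hg, Finset.card_empty, Nat.cast_zero, zero_mul]
        positivity
    have hB : (((sq L a).filter (fun t => 0 < dt s t ∧ (dt s t).toNat.Coprime W)).card : ℝ) *
        (1 / ((NN W P).card : ℝ)) ≤ 64 * K / (J : ℝ) ^ 2 := by
      have h1 := hL₁ L hLL1 a s hs0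
      have h2 : 1 / ((NN W P).card : ℝ) ≤ 8 * W / (P * W.totient) := by
        have h3 : (0 : ℝ) < (P : ℝ) * (W.totient : ℝ) / (8 * W) := by positivity
        have h4 := one_div_le_one_div_of_le h3 hNN
        rwa [one_div_div] at h4
      calc (((sq L a).filter (fun t => 0 < dt s t ∧ (dt s t).toNat.Coprime W)).card : ℝ) *
            (1 / ((NN W P).card : ℝ))
          ≤ (2 * (L : ℝ) ^ 2 * (W.totient : ℝ) / W) * (8 * W / (P * W.totient)) :=
            mul_le_mul h1 h2 (by positivity) (by positivity)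
        _ = 16 * ((L : ℝ) ^ 2 / P) := by
            field_simp
            ring
        _ ≤ 16 * (4 * K / (J : ℝ) ^ 2) := mul_le_mul_of_nonneg_left hL3 (by norm_num)
        _ = 64 * K / (J : ℝ) ^ 2 := by ring
    calc _ ≤ 80 * C * K / (J : ℝ) ^ 2 + 64 * K / (J : ℝ) ^ 2 := add_le_add hA hB
      _ = (80 * C * K + 64 * K) / (J : ℝ) ^ 2 := by ring

private theorem KerA_dvd {w p : ℕ} (hp : p.Prime) (h : p ≤ w) : p ∣ primorial w := by
  unfold primorial
  apply Finset.dvd_prod_of_mem (fun p : ℕ => p)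
  rw [Finset.mem_filter, Finset.mem_range]
  exact ⟨by omega, hp⟩

private theorem KerA_fst (P e : ℕ) (he : 2 ≤ e) :
    ∑ m ∈ (Icc 1 P).filter (fun m => e ∣ m), (if m ∈ PP P then 1 / ((PP P).card : ℝ) else 0) ≤
      if e ∈ PP P then 1 / ((PP P).card : ℝ) else 0 := by
  have h1 : ∀ m ∈ (Icc 1 P).filter (fun m => e ∣ m), (if m ∈ PP P then 1 / ((PP P).card : ℝ) else 0) ≤
      (if m = e then (if e ∈ PP P then 1 / ((PP P).card : ℝ) else 0) else 0) := by
    intro m hm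
    rw [Finset.mem_filter] at hm
    by_cases hmP : m ∈ PP P
    · have hp := (mem_PP.mp hmP).2.1
      have hem : e = m := by
        rcases (Nat.dvd_prime hp).mp hm.2 with h | h
        · omega
        · exact h
      rw [if_pos hmP, if_pos hem.symm, hem, if_pos hmP]
    · rw [if_neg hmP]
      split_ifs <;> positivity
  refine (Finset.sum_le_sum h1).trans ?_
  rw [Finset.sum_ite_eq']
  split_ifs <;> first | exact le_rfl | positivity

private theorem KerA_snd (w P e : ℕ) (he : 2 ≤ e) :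
    ∑ m ∈ (Icc 1 P).filter (fun m => e ∣ m), (if m ∈ NN (primorial w) P then 1 / ((NN (primorial w) P).card : ℝ) else 0) ≤
      if w < e then (P : ℝ) / ((NN (primorial w) P).card : ℝ) * (1 / e) else 0 := by
  have he0 : (0 : ℝ) < e := by exact_mod_cast (by omega : 0 < e)
  split_ifs with hw
  · have h1 : ∀ m ∈ (Icc 1 P).filter (fun m => e ∣ m),
        (if m ∈ NN (primorial w) P then 1 / ((NN (primorial w) P).card : ℝ) else 0) ≤ 1 / ((NN (primorial w) P).card : ℝ) := by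
      intro m _
      split_ifs
      · exact le_rfl
      · positivity
    refine (Finset.sum_le_sum h1).trans ?_
    rw [Finset.sum_const, nsmul_eq_mul]
    have h2 : (((Icc 1 P).filter (fun m => e ∣ m)).card : ℝ) ≤ (P : ℝ) / e := by
      have h3 : ((Icc 1 P).filter (fun m => e ∣ m)).card = P / e := by
        have := Nat.Ioc_filter_dvd_card_eq_div P e
        rw [← this]
        congr 1
      rw [h3]
      exact Nat.cast_div_le
    calc (((Icc 1 P).filter (fun m => e ∣ m)).card : ℝ) * (1 / ((NN (primorial w) P).card : ℝ))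
        ≤ (P : ℝ) / e * (1 / ((NN (primorial w) P).card : ℝ)) := mul_le_mul_of_nonneg_right h2 (by positivity)
      _ = (P : ℝ) / ((NN (primorial w) P).card : ℝ) * (1 / e) := by ring
  · apply le_of_eq
    apply Finset.sum_eq_zero
    intro m hm
    rw [Finset.mem_filter] at hm
    rw [if_neg]
    intro hN
    have hc := (mem_NN.mp hN).2.1
    obtain ⟨p, hp, hpe⟩ := Nat.exists_prime_and_dvd (by omega : e ≠ 1)
    have hpw : p ≤ w := (Nat.le_of_dvd (by omega) hpe).trans (by omega)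
    have h1 : p ∣ Nat.gcd m (primorial w) := Nat.dvd_gcd (hpe.trans hm.2) (KerA_dvd hp hpw)
    rw [hc] at h1
    exact hp.one_lt.ne' (Nat.dvd_one.mp h1)

theorem KerA_NC (w P X : ℕ) (hw : 1 ≤ w) :
    ∑ e ∈ Icc 2 X, (∑ m ∈ (Icc 1 P).filter (fun m => e ∣ m), bd (primorial w) P m) ^ 2 ≤
      2 / ((PP P).card : ℝ) + 2 * ((P : ℝ) / ((NN (primorial w) P).card : ℝ)) ^ 2 / w := by
  set A : ℝ := (P : ℝ) / ((NN (primorial w) P).card : ℝ) with hA
  have hA0 : 0 ≤ A := by positivity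
  have h1 : ∀ e ∈ Icc 2 X, (∑ m ∈ (Icc 1 P).filter (fun m => e ∣ m), bd (primorial w) P m) ^ 2 ≤
      2 * (if e ∈ PP P then 1 / ((PP P).card : ℝ) else 0) ^ 2 + 2 * (if w < e then A * (1 / e) else 0) ^ 2 := by
    intro e he
    rw [Finset.mem_Icc] at he
    have h2 : ∑ m ∈ (Icc 1 P).filter (fun m => e ∣ m), bd (primorial w) P m ≤
        (if e ∈ PP P then 1 / ((PP P).card : ℝ) else 0) + (if w < e then A * (1 / e) else 0) := by
      unfold bd
      rw [Finset.sum_add_distrib]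
      exact add_le_add (KerA_fst P e he.1) (KerA_snd w P e he.1)
    have h3 : 0 ≤ ∑ m ∈ (Icc 1 P).filter (fun m => e ∣ m), bd (primorial w) P m :=
      Finset.sum_nonneg (fun _ _ => bd_nonneg _ _ _)
    nlinarith [sq_nonneg ((if e ∈ PP P then 1 / ((PP P).card : ℝ) else 0) - (if w < e then A * (1 / e) else 0))]
  refine (Finset.sum_le_sum h1).trans ?_
  rw [Finset.sum_add_distrib, ← Finset.mul_sum, ← Finset.mul_sum]
  have hP : ∑ e ∈ Icc 2 X, (if e ∈ PP P then 1 / ((PP P).card : ℝ) else 0) ^ 2 ≤ 1 / ((PP P).card : ℝ) := by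
    have e1 : ∀ e ∈ Icc 2 X, (if e ∈ PP P then 1 / ((PP P).card : ℝ) else 0) ^ 2 =
        (if e ∈ PP P then (1 / ((PP P).card : ℝ)) ^ 2 else 0) := by
      intro e _
      split_ifs <;> simp
    rw [Finset.sum_congr rfl e1, ← Finset.sum_filter, Finset.sum_const, nsmul_eq_mul]
    have h4 : (((Icc 2 X).filter (fun e => e ∈ PP P)).card : ℝ) ≤ ((PP P).card : ℝ) := by
      have : ((Icc 2 X).filter (fun e => e ∈ PP P)).card ≤ (PP P).card := by
        apply Finset.card_le_card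
        intro e he
        exact (Finset.mem_filter.mp he).2
      exact_mod_cast this
    rcases Nat.eq_zero_or_pos (PP P).card with h0 | h0
    · rw [h0]
      simp
    · have h5 : (0 : ℝ) < ((PP P).card : ℝ) := by exact_mod_cast h0
      calc (((Icc 2 X).filter (fun e => e ∈ PP P)).card : ℝ) * (1 / ((PP P).card : ℝ)) ^ 2
          ≤ ((PP P).card : ℝ) * (1 / ((PP P).card : ℝ)) ^ 2 := mul_le_mul_of_nonneg_right h4 (by positivity)
        _ = 1 / ((PP P).card : ℝ) := by field_simp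
  have hN : ∑ e ∈ Icc 2 X, (if w < e then A * (1 / e) else 0) ^ 2 ≤ A ^ 2 / w := by
    have e1 : ∀ e ∈ Icc 2 X, (if w < e then A * (1 / (e : ℝ)) else 0) ^ 2 =
        (if w < e then A ^ 2 * (((e : ℝ)) ^ 2)⁻¹ else 0) := by
      intro e _
      split_ifs
      · ring
      · simp
    rw [Finset.sum_congr rfl e1, ← Finset.sum_filter, ← Finset.mul_sum]
    have h6 : ∑ e ∈ (Icc 2 X).filter (fun e => w < e), (((e : ℝ)) ^ 2)⁻¹ ≤ (w : ℝ)⁻¹ := by
      rcases le_or_gt w X with hX | hX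
      · have h7 : (Icc 2 X).filter (fun e => w < e) ⊆ Ioc w X := by
          intro e he
          rw [Finset.mem_filter, Finset.mem_Icc] at he
          rw [Finset.mem_Ioc]
          exact ⟨he.2, he.1.2⟩
        refine (Finset.sum_le_sum_of_subset_of_nonneg h7 (fun _ _ _ => by positivity)).trans ?_
        refine (sum_Ioc_inv_sq_le_sub (α := ℝ) (by omega : w ≠ 0) hX).trans ?_
        have : (0 : ℝ) ≤ (X : ℝ)⁻¹ := by positivity
        linarith
      · have h7 : (Icc 2 X).filter (fun e => w < e) = ∅ := by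
          rw [Finset.filter_eq_empty_iff]
          intro e he
          rw [Finset.mem_Icc] at he
          omega
        rw [h7, Finset.sum_empty]
        positivity
    calc A ^ 2 * ∑ e ∈ (Icc 2 X).filter (fun e => w < e), (((e : ℝ)) ^ 2)⁻¹ ≤ A ^ 2 * (w : ℝ)⁻¹ :=
          mul_le_mul_of_nonneg_left h6 (by positivity)
      _ = A ^ 2 / w := by rw [div_eq_mul_inv]
  have e2 : 2 / ((PP P).card : ℝ) = 2 * (1 / ((PP P).card : ℝ)) := by ring
  have e3 : 2 * A ^ 2 / (w : ℝ) = 2 * (A ^ 2 / w) := by ring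
  rw [e2, e3]
  linarith

private theorem KerA_aux (J L : ℕ) (g : ℤ × ℤ → ℝ) (hg : ∀ t, 0 ≤ g t) (c : ℝ) (hc : 0 ≤ c) (hJ : 1 ≤ J)
    (hL : 1 ≤ L) (B : Finset (ℤ × ℤ)) (hB : ∀ t ∈ B, ix L t ∈ gr J)
    (hsum : ∀ a : ℤ × ℤ, ∑ t ∈ sq L a, g t ≤ c) :
    ∑ q ∈ (B ×ˢ B).filter (fun q => (dt (ix L q.1) (ix L q.2)).natAbs ≤ 4 * J), g q.1 * g q.2 ≤
      60 * (J : ℝ) ^ 3 * c ^ 2 := by
  classical
  set S := (B ×ˢ B).filter (fun q => (dt (ix L q.1) (ix L q.2)).natAbs ≤ 4 * J) with hS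
  set T := (gr J ×ˢ gr J).filter (fun q => (dt q.1 q.2).natAbs ≤ 4 * J) with hT
  have hmaps : ∀ q ∈ S, (fun q : (ℤ × ℤ) × (ℤ × ℤ) => (ix L q.1, ix L q.2)) q ∈ T := by
    intro q hq
    rw [hS, Finset.mem_filter, Finset.mem_product] at hq
    rw [hT, Finset.mem_filter, Finset.mem_product]
    exact ⟨⟨hB _ hq.1.1, hB _ hq.1.2⟩, hq.2⟩
  rw [← Finset.sum_fiberwise_of_maps_to hmaps]
  have h1 : ∀ v ∈ T, ∑ q ∈ S.filter (fun q => (fun q : (ℤ × ℤ) × (ℤ × ℤ) => (ix L q.1, ix L q.2)) q = v),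
      g q.1 * g q.2 ≤ c ^ 2 := by
    intro v hv
    have hsub : S.filter (fun q => (fun q : (ℤ × ℤ) × (ℤ × ℤ) => (ix L q.1, ix L q.2)) q = v) ⊆
        sq L ((L : ℤ) * v.1.1, (L : ℤ) * v.1.2) ×ˢ sq L ((L : ℤ) * v.2.1, (L : ℤ) * v.2.2) := by
      intro q hq
      rw [Finset.mem_filter] at hq
      obtain ⟨-, h⟩ := hq
      rw [Finset.mem_product, ← h]
      exact ⟨mem_sq L hL q.1, mem_sq L hL q.2⟩
    refine (Finset.sum_le_sum_of_subset_of_nonneg hsub
      (fun q _ _ => mul_nonneg (hg _) (hg _))).trans ?_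
    rw [Finset.sum_product, pow_two]
    have h2 : ∑ x ∈ sq L ((L : ℤ) * v.1.1, (L : ℤ) * v.1.2), ∑ y ∈ sq L ((L : ℤ) * v.2.1, (L : ℤ) * v.2.2),
        g (x, y).1 * g (x, y).2 =
        (∑ x ∈ sq L ((L : ℤ) * v.1.1, (L : ℤ) * v.1.2), g x) *
          ∑ y ∈ sq L ((L : ℤ) * v.2.1, (L : ℤ) * v.2.2), g y := by
      rw [Finset.sum_mul]
      refine Finset.sum_congr rfl (fun x _ => ?_)
      rw [Finset.mul_sum]
    rw [h2]
    exact mul_le_mul (hsum _) (hsum _) (Finset.sum_nonneg (fun t _ => hg t)) hc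
  refine (Finset.sum_le_sum h1).trans ?_
  rw [Finset.sum_const, nsmul_eq_mul]
  exact mul_le_mul_of_nonneg_right (bad_count J hJ) (by positivity)

theorem bad_pairs_abs (K : ℕ) (hK : 1 ≤ K) : ∃ C₃ : ℝ, 0 < C₃ ∧ ∀ J : ℕ, 1 ≤ J → ∀ W : ℕ, 0 < W → 5 ∣ W → ∃ N₀ : ℕ, ∀ N : ℕ, N₀ ≤ N →
    ∀ P : ℕ, P ≤ N ^ 2 → N ^ 2 ≤ K * P → ∀ f : ℕ → ℝ, (∀ n, |f n| ≤ bd W P n) →
    ∑ s ∈ Bx (J * N), Ph N s * ∑ q ∈ (box N ×ˢ box N).filter
        (fun q => (dt (ix (N / J + 1) q.1) (ix (N / J + 1) q.2)).natAbs ≤ 4 * J),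
      |fz f (dt s q.1)| * |fz f (dt s q.2)| ≤ C₃ * (N : ℝ) ^ 2 / J := by
  obtain ⟨C₂, hC₂, hG⟩ := KerA_GQ K hK
  refine ⟨12000 * C₂ ^ 2, by positivity, fun J hJ W hW h5 => ?_⟩
  obtain ⟨N₀, hN₀⟩ := hG J hJ W hW h5
  refine ⟨max 1 N₀, fun N hN P hP1 hP2 f hf => ?_⟩
  have hN1 : 1 ≤ N := (le_max_left _ _).trans hN
  have hN2 : N₀ ≤ N := (le_max_right _ _).trans hN
  have hJ' : (0 : ℝ) < J := by exact_mod_cast hJ
  have h1 : ∀ s ∈ Bx (J * N), Ph N s * ∑ q ∈ (box N ×ˢ box N).filter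
        (fun q => (dt (ix (N / J + 1) q.1) (ix (N / J + 1) q.2)).natAbs ≤ 4 * J),
      |fz f (dt s q.1)| * |fz f (dt s q.2)| ≤ Ph N s * (60 * (J : ℝ) ^ 3 * (C₂ / (J : ℝ) ^ 2) ^ 2) := by
    intro s hs
    refine mul_le_mul_of_nonneg_left ?_ (Ph_pos N s).le
    exact KerA_aux J (N / J + 1) (fun t => |fz f (dt s t)|) (fun t => abs_nonneg _) (C₂ / (J : ℝ) ^ 2)
      (by positivity) hJ (Nat.le_add_left 1 _) (KT.box N) (fun t ht => ix_mem N J hJ t ht)
      (fun a => (Finset.sum_le_sum fun t _ => hf _).trans (hN₀ N hN2 P hP1 hP2 a s hs))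
  refine (Finset.sum_le_sum h1).trans ?_
  rw [← Finset.sum_mul]
  have h2 := mul_le_mul_of_nonneg_right (Ph_sum N (J * N) hN1)
    (show (0 : ℝ) ≤ 60 * (J : ℝ) ^ 3 * (C₂ / (J : ℝ) ^ 2) ^ 2 by positivity)
  refine h2.trans (le_of_eq ?_)
  field_simp
  ring

end Pool.Agent.Lib.MP_d57abb_nt.KC
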