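import Pool.Agent.Lib.MP_d57abb_nt.KC.KerA

/-!
# the correlation of two columns, the main analytic bound
-/

open Finset

namespace Pool.Agent.Lib.MP_d57abb_nt.KC

open Pool.Agent.Lib.MP_d57abb_nt Pool.Agent.Lib.MP_d57abb_nt.KT

private theorem KerB_ne {N J : ℕ} {t t' : ℤ × ℤ} (hN : 0 < N)
    (hJ : N ^ 2 ≤ J * (dt t t').natAbs) : dt t t' ≠ 0 := by
  intro h
  rw [h, Int.natAbs_zero, Nat.mul_zero] at hJ
  have h1 : 0 < N ^ 2 := pow_pos hN 2
  omega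

/-- the weight in terms of the two determinants -/
private theorem KerB_w (P N : ℕ) (hN : 0 < N) (hP0 : 0 < P) (s t t' : ℤ × ℤ) (h : dt t t' ≠ 0)
    (m m' : ℕ) (hm : dt s t = (m : ℤ)) (hm' : dt s t' = (m' : ℤ)) :
    Ph N s = Real.exp 2 * Real.exp (ca P N t t' * ((m : ℝ) / P) ^ 2 +
        cb P N t t' * ((m' : ℝ) / P) ^ 2 + cc P N t t' * (((m : ℝ) / P) * ((m' : ℝ) / P))) := by
  have hN' : (N : ℝ) ≠ 0 := by exact_mod_cast hN.ne'
  have hP' : (P : ℝ) ≠ 0 := by exact_mod_cast hP0.ne'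
  have hD : ((dt t t' : ℤ) : ℝ) ≠ 0 := by exact_mod_cast h
  obtain ⟨h1, h2⟩ := dt_solve s t t'
  rw [hm, hm'] at h1 h2
  have h1' : ((dt t t' : ℤ) : ℝ) * (s.1 : ℝ) = (m' : ℝ) * t.1 - (m : ℝ) * t'.1 := by
    exact_mod_cast h1
  have h2' : ((dt t t' : ℤ) : ℝ) * (s.2 : ℝ) = (m' : ℝ) * t.2 - (m : ℝ) * t'.2 := by
    exact_mod_cast h2
  have e1 : (s.1 : ℝ) = ((m' : ℝ) * t.1 - (m : ℝ) * t'.1) / ((dt t t' : ℤ) : ℝ) := by
    rw [← h1']
    field_simp
  have e2 : (s.2 : ℝ) = ((m' : ℝ) * t.2 - (m : ℝ) * t'.2) / ((dt t t' : ℤ) : ℝ) := by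
    rw [← h2']
    field_simp
  unfold Ph
  rw [← Real.exp_add]
  congr 1
  rw [e1, e2]
  unfold ca cb cc
  generalize ((dt t t' : ℤ) : ℝ) = d at hD
  field_simp
  ring

/-- the solutions lie in the box -/
private theorem KerB_bx {N J P : ℕ} {D0 a b c m m' : ℤ} (hN : 0 < N) (hP : P ≤ N ^ 2)
    (hJ : N ^ 2 ≤ J * D0.natAbs) (h0 : D0 ≠ 0) (hb0 : 0 ≤ b) (hb : b ≤ N) (hc0 : 0 ≤ c)
    (hc : c ≤ N) (hm0 : 0 ≤ m) (hm : m ≤ P) (hm'0 : 0 ≤ m') (hm' : m' ≤ P)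
    (h : D0 * a = m' * b - m * c) : -((J * N : ℕ) : ℤ) ≤ a ∧ a ≤ ((J * N : ℕ) : ℤ) := by
  rw [← abs_le]
  have hD : 0 < |D0| := abs_pos.2 h0
  have h1 : |D0| * |a| ≤ (P : ℤ) * N := by
    rw [← abs_mul, h, abs_le]
    have h2 : m' * b ≤ (P : ℤ) * N := mul_le_mul hm' hb hb0 (by positivity)
    have h3 : m * c ≤ (P : ℤ) * N := mul_le_mul hm hc hc0 (by positivity)
    have h4 : 0 ≤ m' * b := mul_nonneg hm'0 hb0
    have h5 : 0 ≤ m * c := mul_nonneg hm0 hc0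
    constructor <;> linarith
  have h6 : (P : ℤ) ≤ J * |D0| := by
    have h7 : P ≤ J * D0.natAbs := hP.trans hJ
    have h8 : ((P : ℕ) : ℤ) ≤ ((J * D0.natAbs : ℕ) : ℤ) := by exact_mod_cast h7
    rw [Nat.cast_mul, Int.natCast_natAbs] at h8
    exact h8
  have h9 : |D0| * |a| ≤ |D0| * ((J * N : ℕ) : ℤ) := by
    refine h1.trans ?_
    rw [Nat.cast_mul]
    calc (P : ℤ) * N ≤ (J * |D0|) * N := mul_le_mul_of_nonneg_right h6 (by positivity)
      _ = |D0| * (J * N) := by ring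
  exact le_of_mul_le_mul_left h9 hD

theorem TT_eq_abs {W P : ℕ} {f : ℕ → ℝ} (hf : ∀ n, |f n| ≤ bd W P n) (N J : ℕ) (hN : 0 < N) (hP0 : 0 < P) (hP : P ≤ N ^ 2) (t t' : ℤ × ℤ) (ht : t ∈ box N)
    (ht' : t' ∈ box N) (hJ : N ^ 2 ≤ J * (dt t t').natAbs) :
    TT f N (J * N) t t' = Real.exp 2 * ∑ q ∈ Sq P (dt t t').natAbs (lam t t'),
      f q.1 * f q.2 * Real.exp (ca P N t t' * ((q.1 : ℝ) / P) ^ 2 +
        cb P N t t' * ((q.2 : ℝ) / P) ^ 2 + cc P N t t' * (((q.1 : ℝ) / P) * ((q.2 : ℝ) / P))) := by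
  have h0 := KerB_ne hN hJ
  rw [mem_box] at ht ht'
  obtain ⟨⟨⟨ht10, ht1⟩, ht20, ht2⟩, htg⟩ := ht
  obtain ⟨⟨⟨ht'10, ht'1⟩, ht'20, ht'2⟩, htg'⟩ := ht'
  rw [Finset.mul_sum]
  unfold TT
  have hr : ∑ s ∈ (Bx (J * N)).filter (fun s => (1 ≤ dt s t ∧ dt s t ≤ P) ∧
      (1 ≤ dt s t' ∧ dt s t' ≤ P)), Ph N s * (fz f (dt s t) * fz f (dt s t')) =
      ∑ s ∈ Bx (J * N), Ph N s * (fz f (dt s t) * fz f (dt s t')) := by
    apply Finset.sum_subset (Finset.filter_subset _ _)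
    intro s hs hns
    have key : ∀ x : ℤ, ¬ (1 ≤ x ∧ x ≤ P) → fz f x = 0 := by
      intro x hx
      rcases le_or_gt x 0 with h | h
      · exact fz_nonpos hf x h
      · unfold fz
        apply f_support hf
        rw [Finset.mem_Ioc]
        intro h'
        apply hx
        omega
    by_cases h1 : 1 ≤ dt s t ∧ dt s t ≤ P
    · by_cases h2 : 1 ≤ dt s t' ∧ dt s t' ≤ P
      · exact absurd (Finset.mem_filter.2 ⟨hs, h1, h2⟩) hns
      · rw [key _ h2, mul_zero, mul_zero]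
    · rw [key _ h1, zero_mul, mul_zero]
  rw [← hr]
  refine Finset.sum_bij (fun s _ => ((dt s t).toNat, (dt s t').toNat)) ?_ ?_ ?_ ?_
  · intro s hs
    rw [Finset.mem_filter] at hs
    obtain ⟨-, ⟨h1, h2⟩, h3, h4⟩ := hs
    unfold Sq
    rw [Finset.mem_filter, Finset.mem_product, Finset.mem_Icc, Finset.mem_Icc]
    refine ⟨⟨⟨?_, ?_⟩, ?_, ?_⟩, ?_⟩
    · show 1 ≤ (dt s t).toNat
      omega
    · show (dt s t).toNat ≤ P
      omega
    · show 1 ≤ (dt s t').toNat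
      omega
    · show (dt s t').toNat ≤ P
      omega
    · show (dt s t').toNat ≡ lam t t' * (dt s t).toNat [MOD (dt t t').natAbs]
      apply Nat.ModEq.symm
      rw [Nat.modEq_iff_dvd, Nat.cast_mul, Int.toNat_of_nonneg (by omega), Int.toNat_of_nonneg (by omega)]
      exact lam_dt s t t' htg h0
  · intro s hs s' hs' h
    rw [Finset.mem_filter] at hs hs'
    obtain ⟨-, ⟨h1, h2⟩, h3, h4⟩ := hs
    obtain ⟨-, ⟨h1', h2'⟩, h3', h4'⟩ := hs'
    have e1 : (dt s t).toNat = (dt s' t).toNat := (Prod.mk.inj h).1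
    have e2 : (dt s t').toNat = (dt s' t').toNat := (Prod.mk.inj h).2
    exact lam_uniq s s' t t' h0 (by omega) (by omega)
  · intro q hq
    unfold Sq at hq
    rw [Finset.mem_filter, Finset.mem_product, Finset.mem_Icc, Finset.mem_Icc] at hq
    obtain ⟨⟨⟨h1, h2⟩, h3, h4⟩, h5⟩ := hq
    have h6 := (Nat.modEq_iff_dvd.1 h5.symm)
    rw [Nat.cast_mul] at h6
    obtain ⟨s, hs1, hs2⟩ := lam_ex t t' htg h0 (q.1 : ℤ) (q.2 : ℤ) h6
    obtain ⟨e1, e2⟩ := dt_solve s t t'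
    rw [hs1, hs2] at e1 e2
    have b1 := KerB_bx hN hP hJ h0 ht10 ht1 ht'10 ht'1 (Int.natCast_nonneg q.1)
      (by exact_mod_cast h2) (Int.natCast_nonneg q.2) (by exact_mod_cast h4) e1
    have b2 := KerB_bx hN hP hJ h0 ht20 ht2 ht'20 ht'2 (Int.natCast_nonneg q.1)
      (by exact_mod_cast h2) (Int.natCast_nonneg q.2) (by exact_mod_cast h4) e2
    refine ⟨s, ?_, ?_⟩
    · rw [Finset.mem_filter, hs1, hs2]
      refine ⟨?_, ⟨by exact_mod_cast h1, by exact_mod_cast h2⟩, by exact_mod_cast h3,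
        by exact_mod_cast h4⟩
      unfold Bx
      rw [Finset.mem_product, Finset.mem_Icc, Finset.mem_Icc]
      exact ⟨b1, b2⟩
    · show ((dt s t).toNat, (dt s t').toNat) = q
      rw [hs1, hs2, Int.toNat_natCast, Int.toNat_natCast]
  · intro s hs
    rw [Finset.mem_filter] at hs
    obtain ⟨-, ⟨h1, h2⟩, h3, h4⟩ := hs
    show Ph N s * (f (dt s t).toNat * f (dt s t').toNat) = _
    rw [KerB_w P N hN hP0 s t t' h0 (dt s t).toNat (dt s t').toNat
      (Int.toNat_of_nonneg (by omega)).symm (Int.toNat_of_nonneg (by omega)).symm]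
    ring

private theorem KerB_sq {a b : ℝ} (h : a ^ 2 ≤ b ^ 2) (hb : 0 ≤ b) : a ≤ b := by
  have h1 := abs_le_of_sq_le_sq h hb
  exact (le_abs_self a).trans h1

private theorem KerB_gi_le (f : ℕ → ℝ) (P i m : ℕ) (hm : m ∈ Icc 1 P) : |gi f P i m| ≤ |f m| := by
  rw [Finset.mem_Icc] at hm
  have hP : (0 : ℝ) < (P : ℝ) := by exact_mod_cast (by omega : 0 < P)
  have h0 : (0 : ℝ) ≤ (m : ℝ) / P := by positivity
  have h1 : (m : ℝ) / P ≤ 1 := by
    rw [div_le_one hP]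
    exact_mod_cast hm.2
  have h2 : ((m : ℝ) / P) ^ i ≤ 1 := pow_le_one₀ h0 h1
  unfold gi
  rw [abs_mul, abs_of_nonneg (pow_nonneg h0 i)]
  calc |f m| * ((m : ℝ) / P) ^ i ≤ |f m| * 1 :=
        mul_le_mul_of_nonneg_left h2 (abs_nonneg _)
    _ = |f m| := mul_one _

private theorem KerB_un_card (D : ℕ) : (un D).card ≤ D := by
  unfold un
  exact (Finset.card_filter_le _ _).trans (le_of_eq (Finset.card_range D))

private theorem KerB_nc {W P : ℕ} {f : ℕ → ℝ} (hf : ∀ n, |f n| ≤ bd W P n) (K J i j : ℕ) :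
    ∑ D ∈ (Icc 1 (K * P)).filter (fun D => P ≤ J * D), ∑ l ∈ un D,
      |∑ q ∈ (Sq P D l).filter (fun q => ¬ q.1.Coprime D), gi f P i q.1 * gi f P j q.2| ≤
      ((K * P : ℕ) : ℝ) *
        ∑ e ∈ Icc 2 (K * P), (∑ m ∈ (Icc 1 P).filter (fun m => e ∣ m), bd W P m) ^ 2 := by
  refine le_trans ?_ (NC_bound (fun m => bd W P m) (fun m => bd_nonneg W P m) P (K * P))
  have hnn : ∀ D ∈ Icc 1 (K * P), D ∉ (Icc 1 (K * P)).filter (fun D => P ≤ J * D) →
      0 ≤ ∑ l ∈ un D, ∑ q ∈ (Sq P D l).filter (fun q => ¬ q.1.Coprime D),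
        bd W P q.1 * bd W P q.2 :=
    fun D _ _ => Finset.sum_nonneg fun l _ => Finset.sum_nonneg fun q _ =>
      mul_nonneg (bd_nonneg _ _ _) (bd_nonneg _ _ _)
  refine le_trans ?_ (Finset.sum_le_sum_of_subset_of_nonneg (Finset.filter_subset _ _) hnn)
  refine Finset.sum_le_sum fun D _ => Finset.sum_le_sum fun l _ => ?_
  refine (Finset.abs_sum_le_sum_abs _ _).trans (Finset.sum_le_sum fun q hq => ?_)
  have hq1 := (Finset.mem_filter.1 (Finset.mem_filter.1 hq).1).1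
  rw [Finset.mem_product] at hq1
  rw [abs_mul]
  exact mul_le_mul ((KerB_gi_le f P i q.1 hq1.1).trans (hf _)) ((KerB_gi_le f P j q.2 hq1.2).trans (hf _))
    (abs_nonneg _) (bd_nonneg _ _ _)

private theorem KerB_co (f : ℕ → ℝ) (P K J i j : ℕ) (d : ℝ)
    (hi : ∑ D ∈ (Icc 1 (K * P)).filter (fun D => P ≤ J * D), 1 / (D.totient : ℝ) *
      ∑ χ ∈ allc D, ‖SS P (gi f P i) χ‖ ^ 4 ≤ d)
    (hj : ∑ D ∈ (Icc 1 (K * P)).filter (fun D => P ≤ J * D), 1 / (D.totient : ℝ) *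
      ∑ χ ∈ allc D, ‖SS P (gi f P j) χ‖ ^ 4 ≤ d) :
    (∑ D ∈ (Icc 1 (K * P)).filter (fun D => P ≤ J * D), ∑ l ∈ un D,
      |∑ q ∈ (Sq P D l).filter (fun q => q.1.Coprime D), gi f P i q.1 * gi f P j q.2|) ^ 2 ≤
      ((K : ℝ) * P) ^ 2 * d := by
  set S : Finset ((_ : ℕ) × ℕ) :=
    ((Icc 1 (K * P)).filter (fun D => P ≤ J * D)).sigma (fun D => un D) with hS
  set T : ((_ : ℕ) × ℕ) → ℝ := fun s =>
    |∑ q ∈ (Sq P s.1 s.2).filter (fun q => q.1.Coprime s.1), gi f P i q.1 * gi f P j q.2| with hT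
  have h1 : ∑ D ∈ (Icc 1 (K * P)).filter (fun D => P ≤ J * D), ∑ l ∈ un D,
      |∑ q ∈ (Sq P D l).filter (fun q => q.1.Coprime D), gi f P i q.1 * gi f P j q.2|
      = ∑ s ∈ S, T s := by
    rw [hS, Finset.sum_sigma]
  rw [h1]
  have h2 : (∑ s ∈ S, T s) ^ 2 ≤ (S.card : ℝ) * ∑ s ∈ S, T s ^ 2 := sq_sum_le_card_mul_sum_sq
  have h3 : (S.card : ℝ) ≤ ((K : ℝ) * P) ^ 2 := by
    have a1 : S.card ≤ (K * P) * (K * P) := by
      rw [hS, Finset.card_sigma]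
      calc ∑ D ∈ (Icc 1 (K * P)).filter (fun D => P ≤ J * D), (un D).card
          ≤ ∑ D ∈ (Icc 1 (K * P)).filter (fun D => P ≤ J * D), K * P := by
            refine Finset.sum_le_sum fun D hD => (KerB_un_card D).trans ?_
            exact (Finset.mem_Icc.1 (Finset.mem_filter.1 hD).1).2
        _ = ((Icc 1 (K * P)).filter (fun D => P ≤ J * D)).card * (K * P) := by
            rw [Finset.sum_const, smul_eq_mul]
        _ ≤ (K * P) * (K * P) := by
            refine Nat.mul_le_mul_right _ ((Finset.card_filter_le _ _).trans ?_)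
            rw [Nat.card_Icc]
            omega
    have a2 : (S.card : ℝ) ≤ (((K * P) * (K * P) : ℕ) : ℝ) := by exact_mod_cast a1
    refine a2.trans (le_of_eq ?_)
    push_cast
    ring
  have h4 : ∑ s ∈ S, T s ^ 2 ≤ d := by
    rw [hS, Finset.sum_sigma]
    have b1 : ∀ D ∈ (Icc 1 (K * P)).filter (fun D => P ≤ J * D),
        ∑ l ∈ un D, T ⟨D, l⟩ ^ 2 ≤
          (1 / (D.totient : ℝ) * ∑ χ ∈ allc D, ‖SS P (gi f P i) χ‖ ^ 4) / 2 +
          (1 / (D.totient : ℝ) * ∑ χ ∈ allc D, ‖SS P (gi f P j) χ‖ ^ 4) / 2 := by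
      intro D hD
      have hD0 : 0 < D := by
        have := (Finset.mem_Icc.1 (Finset.mem_filter.1 hD).1).1
        omega
      have c1 := parseval_l D hD0 P (gi f P i) (gi f P j)
      have c2 : ∑ l ∈ un D, T ⟨D, l⟩ ^ 2 =
          ∑ l ∈ un D, (∑ q ∈ (Sq P D l).filter (fun q => q.1.Coprime D),
            gi f P i q.1 * gi f P j q.2) ^ 2 := by
        refine Finset.sum_congr rfl fun l _ => ?_
        rw [hT]
        exact sq_abs _
      rw [c2]
      refine c1.trans ?_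
      have c3 : ∑ χ ∈ allc D, ‖SS P (gi f P i) χ‖ ^ 2 * ‖SS P (gi f P j) χ‖ ^ 2 ≤
          (∑ χ ∈ allc D, ‖SS P (gi f P i) χ‖ ^ 4) / 2 +
          (∑ χ ∈ allc D, ‖SS P (gi f P j) χ‖ ^ 4) / 2 := by
        rw [Finset.sum_div, Finset.sum_div, ← Finset.sum_add_distrib]
        refine Finset.sum_le_sum fun χ _ => ?_
        nlinarith [sq_nonneg (‖SS P (gi f P i) χ‖ ^ 2 - ‖SS P (gi f P j) χ‖ ^ 2)]
      have c4 : (0 : ℝ) ≤ 1 / (D.totient : ℝ) := by positivity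
      calc 1 / (D.totient : ℝ) * ∑ χ ∈ allc D, ‖SS P (gi f P i) χ‖ ^ 2 * ‖SS P (gi f P j) χ‖ ^ 2
          ≤ 1 / (D.totient : ℝ) * ((∑ χ ∈ allc D, ‖SS P (gi f P i) χ‖ ^ 4) / 2 +
          (∑ χ ∈ allc D, ‖SS P (gi f P j) χ‖ ^ 4) / 2) := mul_le_mul_of_nonneg_left c3 c4
        _ = _ := by ring
    refine (Finset.sum_le_sum b1).trans ?_
    rw [Finset.sum_add_distrib, ← Finset.sum_div, ← Finset.sum_div]
    linarith
  have h5 : 0 ≤ ∑ s ∈ S, T s ^ 2 := Finset.sum_nonneg fun s _ => sq_nonneg _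
  calc (∑ s ∈ S, T s) ^ 2 ≤ (S.card : ℝ) * ∑ s ∈ S, T s ^ 2 := h2
    _ ≤ ((K : ℝ) * P) ^ 2 * d := mul_le_mul h3 h4 h5 (by positivity)

private theorem KerB_log (C : ℝ) (η : ℝ) (hη : 0 < η) :
    ∃ P₀ : ℕ, ∀ P : ℕ, P₀ ≤ P → C * Real.log P ≤ η * P := by
  have h := Real.isLittleO_log_id_atTop
  have h1 : ∀ᶠ x : ℝ in Filter.atTop, ‖Real.log x‖ ≤ η / (|C| + 1) * ‖x‖ :=
    h.bound (by positivity)
  have h2 := (tendsto_natCast_atTop_atTop (R := ℝ)).eventually h1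
  obtain ⟨P₀, hP₀⟩ := Filter.eventually_atTop.1 h2
  refine ⟨P₀, fun P hP => ?_⟩
  have h3 := hP₀ P hP
  rw [Real.norm_eq_abs, Real.norm_eq_abs, abs_of_nonneg (a := (P : ℝ)) (Nat.cast_nonneg P)] at h3
  have h4 : (0 : ℝ) < |C| + 1 := by positivity
  calc C * Real.log P ≤ |C * Real.log P| := le_abs_self _
    _ = |C| * |Real.log P| := abs_mul _ _
    _ ≤ (|C| + 1) * (η / (|C| + 1) * P) :=
        mul_le_mul (by linarith) h3 (abs_nonneg _) h4.le
    _ = η * P := by field_simp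

theorem main_bound_abs (K J : ℕ) (δ : ℝ) (hδ : 0 < δ) : ∃ w₀ : ℕ, ∀ w : ℕ, w₀ ≤ w → ∃ P₀ : ℕ, ∀ P : ℕ, P₀ ≤ P →
    ∀ f : ℕ → ℝ, (∀ n, |f n| ≤ bd (primorial w) P n) → F4 K J ((δ / (2 * ((K : ℝ) + 1))) ^ 2) f P →
    ∀ i j : ℕ, ∑ D ∈ (Icc 1 (K * P)).filter (fun D => P ≤ J * D), ∑ l ∈ un D,
      |∑ q ∈ Sq P D l, gi f P i q.1 * gi f P j q.2| ≤ δ * P := by
  have hK1 : (0 : ℝ) < (K : ℝ) + 1 := by positivity
  have hη : 0 < δ / (512 * ((K : ℝ) + 1)) := by positivity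
  have hδ1 : 0 < (δ / (2 * ((K : ℝ) + 1))) ^ 2 := by positivity
  obtain ⟨w1, hw1⟩ := cw (δ / (512 * ((K : ℝ) + 1))) hη
  refine ⟨max w1 5, fun w hw => ?_⟩
  have hww1 : w1 ≤ w := le_trans (le_max_left _ _) hw
  have hw5 : 5 ≤ w := le_trans (le_max_right _ _) hw
  have hW : 0 < primorial w := primorial_pos w
  obtain ⟨P3, hP3⟩ := NN_lower (primorial w) hW (five_dvd_primorial w hw5)
  obtain ⟨P4, hP4⟩ := PP_lower
  obtain ⟨P5, hP5⟩ := KerB_log (10 * K) (δ / 4) (by positivity)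
  refine ⟨max P3 (max (max P4 P5) 3), fun P hP f hf hF4 i j => ?_⟩
  have hPP3 : P3 ≤ P := le_trans (le_max_left _ _) hP
  have hPP4 : P4 ≤ P :=
    le_trans (le_trans (le_trans (le_max_left _ _) (le_max_left _ _)) (le_max_right _ _)) hP
  have hPP5 : P5 ≤ P :=
    le_trans (le_trans (le_trans (le_max_right _ _) (le_max_left _ _)) (le_max_right _ _)) hP
  have hPP6 : 3 ≤ P := le_trans (le_trans (le_max_right _ _) (le_max_right _ _)) hP
  have hP0 : (0 : ℝ) < (P : ℝ) := by exact_mod_cast (by omega : 0 < P)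
  have hlog : 0 < Real.log P := Real.log_pos (by exact_mod_cast (by omega : 1 < P))
  have hw0 : (0 : ℝ) < (w : ℝ) := by exact_mod_cast (by omega : 0 < w)
  -- the terms with a common factor
  have hnc : ∑ D ∈ (Icc 1 (K * P)).filter (fun D => P ≤ J * D), ∑ l ∈ un D,
      |∑ q ∈ (Sq P D l).filter (fun q => ¬ q.1.Coprime D),
        gi f P i q.1 * gi f P j q.2| ≤ (δ / 2) * P := by
    refine (KerB_nc hf K J i j).trans ?_
    have a1 := KerA_NC w P (K * P) (by omega)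
    have a2 : 2 / ((PP P).card : ℝ) ≤ 10 * Real.log P / P := by
      have b1 := hP4 P hPP4
      have b2 : (0 : ℝ) < (P : ℝ) / (5 * Real.log P) := by positivity
      have b3 : (0 : ℝ) < ((PP P).card : ℝ) := lt_of_lt_of_le b2 b1
      calc 2 / ((PP P).card : ℝ) ≤ 2 / ((P : ℝ) / (5 * Real.log P)) :=
            div_le_div_of_nonneg_left (by norm_num) b2 b1
        _ = 10 * Real.log P / P := by field_simp; ring
    have a3 : 2 * ((P : ℝ) / ((NN (primorial w) P).card : ℝ)) ^ 2 / w ≤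
        128 * (δ / (512 * ((K : ℝ) + 1))) := by
      have b1 := hP3 P hPP3
      have hφ : (0 : ℝ) < ((primorial w).totient : ℝ) := by
        exact_mod_cast Nat.totient_pos.2 hW
      have hWr : (0 : ℝ) < (primorial w : ℝ) := by exact_mod_cast hW
      have b2 : (0 : ℝ) < (P : ℝ) * ((primorial w).totient : ℝ) / (8 * (primorial w : ℝ)) := by
        positivity
      have b3 : (P : ℝ) / ((NN (primorial w) P).card : ℝ) ≤
          8 * ((primorial w : ℝ) / ((primorial w).totient : ℝ)) := by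
        calc (P : ℝ) / ((NN (primorial w) P).card : ℝ) ≤
              (P : ℝ) / ((P : ℝ) * ((primorial w).totient : ℝ) / (8 * (primorial w : ℝ))) :=
              div_le_div_of_nonneg_left hP0.le b2 b1
          _ = 8 * ((primorial w : ℝ) / ((primorial w).totient : ℝ)) := by field_simp
      have b4 : ((P : ℝ) / ((NN (primorial w) P).card : ℝ)) ^ 2 ≤
          (8 * ((primorial w : ℝ) / ((primorial w).totient : ℝ))) ^ 2 :=
        pow_le_pow_left₀ (by positivity) b3 2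
      have b5 := hw1 w hww1
      have b6 : (8 * ((primorial w : ℝ) / ((primorial w).totient : ℝ))) ^ 2 =
          64 * ((primorial w : ℝ) / ((primorial w).totient : ℝ)) ^ 2 := by ring
      rw [b6] at b4
      rw [div_le_iff₀ hw0]
      nlinarith
    have a4 : (0 : ℝ) ≤ ((K * P : ℕ) : ℝ) := Nat.cast_nonneg _
    have a5 : ((K * P : ℕ) : ℝ) = (K : ℝ) * P := by push_cast; ring
    calc ((K * P : ℕ) : ℝ) * ∑ e ∈ Icc 2 (K * P),
          (∑ m ∈ (Icc 1 P).filter (fun m => e ∣ m), bd (primorial w) P m) ^ 2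
        ≤ ((K * P : ℕ) : ℝ) * (10 * Real.log P / P + 128 * (δ / (512 * ((K : ℝ) + 1)))) :=
          mul_le_mul_of_nonneg_left (a1.trans (add_le_add a2 a3)) a4
      _ = 10 * K * Real.log P + (δ / 4) * P * ((K : ℝ) / ((K : ℝ) + 1)) := by
          rw [a5]; field_simp; ring
      _ ≤ (δ / 4) * P + (δ / 4) * P * 1 := by
          refine add_le_add (hP5 P hPP5) (mul_le_mul_of_nonneg_left ?_ (by positivity))
          rw [div_le_one hK1]
          linarith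
      _ = (δ / 2) * P := by ring
  -- the coprime terms
  have hco : ∑ D ∈ (Icc 1 (K * P)).filter (fun D => P ≤ J * D), ∑ l ∈ un D,
      |∑ q ∈ (Sq P D l).filter (fun q => q.1.Coprime D),
        gi f P i q.1 * gi f P j q.2| ≤ (δ / 2) * P := by
    have a1 := KerB_co f P K J i j ((δ / (2 * ((K : ℝ) + 1))) ^ 2) (hF4 i) (hF4 j)
    have a2 : ((K : ℝ) * P) ^ 2 * (δ / (2 * ((K : ℝ) + 1))) ^ 2 ≤ ((δ / 2) * P) ^ 2 := by
      rw [← mul_pow]
      refine pow_le_pow_left₀ (by positivity) ?_ 2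
      have b1 : (K : ℝ) * P * (δ / (2 * ((K : ℝ) + 1))) = (δ / 2) * P * ((K : ℝ) / ((K : ℝ) + 1)) := by
        field_simp
      rw [b1]
      calc (δ / 2) * P * ((K : ℝ) / ((K : ℝ) + 1)) ≤ (δ / 2) * P * 1 := by
            refine mul_le_mul_of_nonneg_left ?_ (by positivity)
            rw [div_le_one hK1]
            linarith
        _ = (δ / 2) * P := mul_one _
    have a3 : (0 : ℝ) ≤ (δ / 2) * P := by positivity
    exact KerB_sq (a1.trans a2) a3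
  have hsplit : ∀ D l : ℕ,
      |∑ q ∈ Sq P D l, gi f P i q.1 * gi f P j q.2| ≤
      |∑ q ∈ (Sq P D l).filter (fun q => q.1.Coprime D),
        gi f P i q.1 * gi f P j q.2| +
      |∑ q ∈ (Sq P D l).filter (fun q => ¬ q.1.Coprime D),
        gi f P i q.1 * gi f P j q.2| := by
    intro D l
    rw [← Finset.sum_filter_add_sum_filter_not (Sq P D l) (fun q => q.1.Coprime D)]
    exact abs_add_le _ _
  calc ∑ D ∈ (Icc 1 (K * P)).filter (fun D => P ≤ J * D), ∑ l ∈ un D,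
      |∑ q ∈ Sq P D l, gi f P i q.1 * gi f P j q.2|
      ≤ ∑ D ∈ (Icc 1 (K * P)).filter (fun D => P ≤ J * D), ∑ l ∈ un D,
      (|∑ q ∈ (Sq P D l).filter (fun q => q.1.Coprime D),
        gi f P i q.1 * gi f P j q.2| +
      |∑ q ∈ (Sq P D l).filter (fun q => ¬ q.1.Coprime D),
        gi f P i q.1 * gi f P j q.2|) :=
        Finset.sum_le_sum fun D _ => Finset.sum_le_sum fun l _ => hsplit D l
    _ = ∑ D ∈ (Icc 1 (K * P)).filter (fun D => P ≤ J * D), ∑ l ∈ un D,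
      |∑ q ∈ (Sq P D l).filter (fun q => q.1.Coprime D),
        gi f P i q.1 * gi f P j q.2| +
      ∑ D ∈ (Icc 1 (K * P)).filter (fun D => P ≤ J * D), ∑ l ∈ un D,
      |∑ q ∈ (Sq P D l).filter (fun q => ¬ q.1.Coprime D),
        gi f P i q.1 * gi f P j q.2| := by
        rw [← Finset.sum_add_distrib]
        exact Finset.sum_congr rfl fun D _ => Finset.sum_add_distrib
    _ ≤ (δ / 2) * P + (δ / 2) * P := add_le_add hco hnc
    _ = δ * P := by ring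

end Pool.Agent.Lib.MP_d57abb_nt.KC
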