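import Pool.Agent.Lib.MP_d57abb_nt.KC.Defs
import Pool.Agent.Lib.MP_d57abb_nt.KT.Kernel
import Pool.Agent.Lib.MP_d57abb_nt.KC.KerB

/-!
# The kernel theorem for a function with small fourth moments

Copy of `KT/GQ` (`GQ_bound`), `KT/BadS`, `KT/TId` (`TT_eq`), `KT/Mab`, `KT/Good`, `KT/Kernel` with `f`, `fz f`, `TT f`, `gi f` in
place of `fN W P`, `ff W P`, `TT W P`, `gi W P`; the only properties of `fN` used there are `abs_fN_le` (now the hypothesis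
`|f n| ≤ bd W P n`, which gives `f n = 0` outside `(P/2, P]`, so also `fz f x = 0` for `x ≤ 0`) and `fourth` (now the hypothesis
`F4`).  All thresholds do not depend on `f`.
-/

open Finset

namespace Pool.Agent.Lib.MP_d57abb_nt.KC

open Pool.Agent.Lib.MP_d57abb_nt Pool.Agent.Lib.MP_d57abb_nt.KT

private theorem Ker_good (K J : ℕ) (hK : 1 ≤ K) (δ : ℝ) (hδ : 0 < δ) : ∃ δ' : ℝ, 0 < δ' ∧ ∃ w₀ : ℕ, ∀ w : ℕ, w₀ ≤ w →
    ∃ N₀ : ℕ, ∀ N : ℕ, N₀ ≤ N → ∀ P : ℕ, P ≤ N ^ 2 → N ^ 2 ≤ K * P →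
    ∀ f : ℕ → ℝ, (∀ n, |f n| ≤ bd (primorial w) P n) → F4 K J δ' f P →
    ∑ q ∈ (box N ×ˢ box N).filter (fun q => N ^ 2 ≤ J * (dt q.1 q.2).natAbs),
      |TT f N (J * N) q.1 q.2| ≤ δ * (N : ℝ) ^ 2 := by
  set C : ℝ := Real.exp 2 * Real.exp (3 * (4 * (J : ℝ) ^ 2)) * (2 * (2 * (J : ℝ) + 1) ^ 4) with hC
  have hCpos : 0 < C := by positivity
  obtain ⟨w₀, hw₀⟩ := main_bound_abs K J (δ / C) (by positivity)
  refine ⟨(δ / C / (2 * ((K : ℝ) + 1))) ^ 2, by positivity, w₀, fun w hw => ?_⟩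
  obtain ⟨P₀, hP₀⟩ := hw₀ w hw
  refine ⟨K * P₀ + 1, fun N hN P hP1 hP2 f hf hF4 => ?_⟩
  have hN0 : 0 < N := by omega
  have hNN : N ≤ N ^ 2 := by nlinarith
  have hPP : P₀ ≤ P := by
    by_contra hcon
    have h1 : K * P ≤ K * P₀ := Nat.mul_le_mul_left K (by omega)
    omega
  have hP0 : 0 < P := by
    rcases Nat.eq_zero_or_pos P with h | h
    · rw [h, Nat.mul_zero] at hP2
      omega
    · exact h
  set F := (box N ×ˢ box N).filter (fun q => N ^ 2 ≤ J * (dt q.1 q.2).natAbs) with hF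
  have hmem : ∀ q ∈ F, q.1 ∈ box N ∧ q.2 ∈ box N ∧ N ^ 2 ≤ J * (dt q.1 q.2).natAbs := by
    intro q hq
    rw [hF, Finset.mem_filter, Finset.mem_product] at hq
    exact ⟨hq.1.1, hq.1.2, hq.2⟩
  set B : ℝ := 2 * (2 * (J : ℝ) + 1) ^ 4 * (δ / C * P) with hB
  have hBB : ∀ j k : ℕ, ∑ q ∈ F, |∑ p ∈ Sq P (dt q.1 q.2).natAbs (lam q.1 q.2),
      f p.1 * f p.2 * (((p.1 : ℝ) / P) ^ j * ((p.2 : ℝ) / P) ^ k)| ≤ B := by
    intro j k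
    have h1 := mult_bound N J hN0 F hmem
      (fun D l => |∑ p ∈ Sq P D l, gi f P j p.1 * gi f P k p.2|) (fun D l => abs_nonneg _)
    have h2 : ∑ q ∈ F, |∑ p ∈ Sq P (dt q.1 q.2).natAbs (lam q.1 q.2),
      f p.1 * f p.2 * (((p.1 : ℝ) / P) ^ j * ((p.2 : ℝ) / P) ^ k)| =
        ∑ q ∈ F, |∑ p ∈ Sq P (dt q.1 q.2).natAbs (lam q.1 q.2),
          gi f P j p.1 * gi f P k p.2| := by
      refine Finset.sum_congr rfl (fun q _ => ?_)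
      refine congrArg abs (Finset.sum_congr rfl (fun p _ => ?_))
      unfold gi
      ring
    rw [h2]
    refine h1.trans ?_
    rw [hB]
    refine mul_le_mul_of_nonneg_left ?_ (by positivity)
    refine le_trans (Finset.sum_le_sum_of_subset_of_nonneg ?_ ?_) (hP₀ P hPP f hf hF4 j k)
    · intro D hD
      rw [Finset.mem_filter, Finset.mem_Icc] at hD ⊢
      exact ⟨⟨hD.1.1, hD.1.2.trans hP2⟩, hP1.trans hD.2⟩
    · intro D _ _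
      exact Finset.sum_nonneg (fun l _ => abs_nonneg _)
  have hT := taylor_sep F (fun q => Sq P (dt q.1 q.2).natAbs (lam q.1 q.2))
    (fun _ p => f p.1 * f p.2) (fun p => (p.1 : ℝ) / P) (fun p => (p.2 : ℝ) / P)
    (fun q => ca P N q.1 q.2) (fun q => cb P N q.1 q.2) (fun q => cc P N q.1 q.2) (4 * (J : ℝ) ^ 2) B
    (by positivity) (fun q hq => ca_le P N J hN0 hP1 q.1 q.2 (hmem q hq).1 (hmem q hq).2.1 (hmem q hq).2.2)
    (fun q hq => cb_le P N J hN0 hP1 q.1 q.2 (hmem q hq).1 (hmem q hq).2.1 (hmem q hq).2.2)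
    (fun q hq => cc_le P N J hN0 hP1 q.1 q.2 (hmem q hq).1 (hmem q hq).2.1 (hmem q hq).2.2) hBB
  have e1 : ∀ q ∈ F, |TT f N (J * N) q.1 q.2| = Real.exp 2 *
      |∑ p ∈ Sq P (dt q.1 q.2).natAbs (lam q.1 q.2), f p.1 * f p.2 *
        Real.exp (ca P N q.1 q.2 * ((p.1 : ℝ) / P) ^ 2 + cb P N q.1 q.2 * ((p.2 : ℝ) / P) ^ 2 +
          cc P N q.1 q.2 * (((p.1 : ℝ) / P) * ((p.2 : ℝ) / P)))| := by
    intro q hq
    rw [TT_eq_abs hf N J hN0 hP0 hP1 q.1 q.2 (hmem q hq).1 (hmem q hq).2.1 (hmem q hq).2.2, abs_mul,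
      abs_of_pos (Real.exp_pos 2)]
  rw [Finset.sum_congr rfl e1, ← Finset.mul_sum]
  have h3 : Real.exp 2 * (Real.exp (3 * (4 * (J : ℝ) ^ 2)) * B) = δ * P := by
    have : Real.exp 2 * (Real.exp (3 * (4 * (J : ℝ) ^ 2)) * B) = C * (δ / C * P) := by
      rw [hB, hC]
      ring
    rw [this, ← mul_assoc, mul_div_cancel₀ _ hCpos.ne']
  have h4 : (P : ℝ) ≤ (N : ℝ) ^ 2 := by exact_mod_cast hP1
  calc Real.exp 2 * _ ≤ Real.exp 2 * (Real.exp (3 * (4 * (J : ℝ) ^ 2)) * B) :=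
        mul_le_mul_of_nonneg_left hT (Real.exp_pos 2).le
    _ = δ * P := h3
    _ ≤ δ * (N : ℝ) ^ 2 := mul_le_mul_of_nonneg_left h4 hδ.le

theorem kernel_abs (K : ℕ) (hK : 1 ≤ K) (ε : ℝ) (hε : 0 < ε) : ∃ (J : ℕ) (δ : ℝ), 0 < δ ∧ ∃ w₀ : ℕ, ∀ w : ℕ, w₀ ≤ w →
    ∃ N₀ : ℕ, ∀ N : ℕ, N₀ ≤ N → ∀ P : ℕ, P ≤ N ^ 2 → N ^ 2 ≤ K * P →
    ∀ f : ℕ → ℝ, (∀ n, |f n| ≤ bd (primorial w) P n) → F4 K J δ f P →
    ∀ A B : ℤ × ℤ → ℂ, (∀ v, ‖A v‖ ≤ 1) → (∀ v, ‖B v‖ ≤ 1) →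
    ‖∑ s ∈ box N, ∑ t ∈ box N, A s * B t * ((fz f (dt s t) : ℝ) : ℂ)‖ ≤ ε * (N : ℝ) ^ 2 := by
  classical
  obtain ⟨C₃, hC₃, hbad⟩ := bad_pairs_abs K hK
  obtain ⟨J, hJ⟩ := exists_nat_ge (8 * C₃ / ε ^ 2)
  have hJ0 : (0 : ℝ) < J := lt_of_lt_of_le (by positivity) hJ
  have hJ1 : 1 ≤ J := by
    have h : 0 < J := by exact_mod_cast hJ0
    exact h
  obtain ⟨δ, hδ, w₀, hw₀⟩ := Ker_good K J hK (ε ^ 2 / 8) (by positivity)
  refine ⟨J, δ, hδ, max w₀ 5, fun w hw => ?_⟩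
  obtain ⟨N₁, hN₁⟩ := hw₀ w (le_trans (le_max_left _ _) hw)
  have hW : 0 < primorial w := primorial_pos w
  have h5 : 5 ∣ primorial w := five_dvd_primorial w (le_trans (le_max_right _ _) hw)
  obtain ⟨N₂, hN₂⟩ := hbad J hJ1 (primorial w) hW h5
  refine ⟨max (max N₁ N₂) 1, fun N hN P hP1 hP2 f hf hF4 A B hA hB => ?_⟩
  have hNa : N₁ ≤ N := le_trans (le_trans (le_max_left _ _) (le_max_left _ _)) hN
  have hNb : N₂ ≤ N := le_trans (le_trans (le_max_right _ _) (le_max_left _ _)) hN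
  have hNc : 1 ≤ N := le_trans (le_max_right _ _) hN
  have hNr : (1 : ℝ) ≤ N := by exact_mod_cast hNc
  have good := hN₁ N hNa P hP1 hP2 f hf hF4
  have bad := hN₂ N hNb P hP1 hP2 f hf
  have hC : C₃ * (N : ℝ) ^ 2 / J ≤ ε ^ 2 / 8 * (N : ℝ) ^ 2 := by
    rw [div_le_iff₀ hJ0]
    have h1 : 8 * C₃ ≤ J * ε ^ 2 := by rwa [div_le_iff₀ (by positivity)] at hJ
    have h2 : (0 : ℝ) ≤ (N : ℝ) ^ 2 := by positivity
    nlinarith
  have hR : N ≤ J * N := Nat.le_mul_of_pos_left N hJ1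
  have h1 := cs N (J * N) hR (fun s t => fz f (dt s t)) A B hA
  have h2 := expand N (fun s t => fz f (dt s t)) (Bx (J * N)) (KT.box N) B hB
    (fun q => (dt (ix (N / J + 1) q.1) (ix (N / J + 1) q.2)).natAbs ≤ 4 * J)
  have h3 : ∑ q ∈ (KT.box N ×ˢ KT.box N).filter (fun q => ¬ (dt (ix (N / J + 1) q.1) (ix (N / J + 1) q.2)).natAbs ≤ 4 * J),
      |∑ s ∈ Bx (J * N), Ph N s * (fz f (dt s q.1) * fz f (dt s q.2))| ≤
      ε ^ 2 / 8 * (N : ℝ) ^ 2 := by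
    refine le_trans ?_ good
    refine Finset.sum_le_sum_of_subset_of_nonneg ?_ (fun _ _ _ => abs_nonneg _)
    intro q hq
    rw [Finset.mem_filter] at hq ⊢
    refine ⟨hq.1, ?_⟩
    rw [Finset.mem_product] at hq
    exact geo N J hJ1 q.1 q.2 hq.1.1 hq.1.2 hq.2
  have h4 : ‖∑ s ∈ KT.box N, ∑ t ∈ KT.box N, A s * B t * ((fz f (dt s t) : ℝ) : ℂ)‖ ^ 2 ≤
      (ε * (N : ℝ) ^ 2) ^ 2 := by
    refine h1.trans ?_
    calc ((N : ℝ) + 1) ^ 2 * ∑ s ∈ Bx (J * N), Ph N s *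
          ‖∑ t ∈ KT.box N, B t * ((fz f (dt s t) : ℝ) : ℂ)‖ ^ 2
        ≤ ((N : ℝ) + 1) ^ 2 * (ε ^ 2 / 8 * (N : ℝ) ^ 2 + ε ^ 2 / 8 * (N : ℝ) ^ 2) := by
          refine mul_le_mul_of_nonneg_left ?_ (by positivity)
          exact h2.trans (add_le_add (bad.trans hC) h3)
      _ ≤ (2 * (N : ℝ)) ^ 2 * (ε ^ 2 / 8 * (N : ℝ) ^ 2 + ε ^ 2 / 8 * (N : ℝ) ^ 2) := by
          refine mul_le_mul_of_nonneg_right ?_ (by positivity)
          exact pow_le_pow_left₀ (by positivity) (by linarith) 2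
      _ = (ε * (N : ℝ) ^ 2) ^ 2 := by ring
  exact (pow_le_pow_iff_left₀ (norm_nonneg _) (by positivity) two_ne_zero).1 h4

end Pool.Agent.Lib.MP_d57abb_nt.KC
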