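import Pool.Agent.Lib.MP_d57abb_nt.KC.Defs
import Pool.Agent.Lib.MP_d57abb_nt.KT.Gen

/-!
# pairs of primitive characters

* `prod_gnr`: let `ψ` modulo `r`, `ψ'` modulo `r'`, `χ = changeLevel ψ * (changeLevel ψ')⁻¹` modulo `r r'`, so `χ m = ψ m conj (ψ' m)` for all `m` (both sides vanish if `m` is not prime to `r r'`; values of characters have
  norm one or zero, so the inverse is the conjugate).  Either `χ h = 1` for all `h` with `R5 h`, `h` prime to `r r'` (then `ψ h = ψ' h`), or `Gnr χ` by `Gen_case1` of `KT/Gen.lean` (private there, copy it; it does not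
  need primitivity).
* `partner`: fix `(r, ψ)`.  Let `(r₁, ψ₁)`, `(r₂, ψ₂)` be two members of the set and let `u` be a prime, `u % 5 = 2`, larger than `R` (and `≥ 7`).  `ψ₁ (u)² = ψ₁ (u²) = ψ (u²)` since `u² % 5 = 4`, so `ψ₁ u = ± ψ u₀`...: the number
  `ψ₁ u` is one of the two square roots of `ψ (u²)`.  If `ψ₁ u = ψ₂ u` then `ψ₁ m = ψ₂ m` for all `m` prime to `5 r r₁ r₂` : if `R5 m` both are `ψ m`; otherwise `R5 (m u)` and `ψ₁ m ψ₁ u = ψ (m u) = ψ₂ m ψ₂ u`.  Two primitive
  characters which agree at all `m` prime to some `n` have the same conductor and are equal (`changeLevel` to `5 r r₁ r₂`: equal characters; `DirichletCharacter.conductor`, `primitiveCharacter`,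
  `changeLevel_primitiveCharacter`, `factorsThrough_..`; see `KT/Cond.lean` for `χ` is determined by conductor and primitive character, and search Mathlib for `conductor` lemmas).  So the map
  `(r₁, ψ₁) ↦ ψ₁ u` is injective on the set, with at most two values.
-/

open Finset

namespace Pool.Agent.Lib.MP_d57abb_nt.KC

open Pool.Agent.Lib.MP_d57abb_nt Pool.Agent.Lib.MP_d57abb_nt.KT

private theorem Par_mod5 (n a : ℕ) (h : 5 ∣ n) : (a % n) % 5 = a % 5 :=
  Nat.mod_mod_of_dvd a h

private theorem Par_R5_mul {a b : ℕ} (ha : R5 a) (hb : R5 b) : R5 (a * b) := by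
  unfold R5 at *
  rw [Nat.mul_mod]
  rcases ha with h | h <;> rcases hb with h' | h' <;> rw [h, h'] <;> simp

private theorem Par_R5_congr {a b : ℕ} (h : a % 5 = b % 5) (ha : R5 a) : R5 b := by
  unfold R5 at *
  rw [← h]; exact ha

private theorem Par_cop5 {a : ℕ} (ha : R5 a) : a.Coprime 5 := by
  have h5 : Nat.Prime 5 := by norm_num
  rw [Nat.coprime_comm]
  refine (Nat.Prime.coprime_iff_not_dvd h5).2 ?_
  intro hd
  unfold R5 at ha
  omega

private theorem Par_case1 (r : ℕ) (hr : 0 < r) (ψ : DirichletCharacter ℂ r) (h : ℕ)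
    (hc : h.Coprime r) (hR : R5 h) (hne : ψ (h : ZMod r) ≠ 1) : Gnr ψ := by
  intro c hc5
  have hn : 0 < 5 * r := by positivity
  have hcn : h.Coprime (5 * r) := Nat.Coprime.mul_right (Par_cop5 hR) hc
  set E : Finset ℕ := (range (5 * r)).filter (fun e => R5 (c * e)) with hE
  have hmaps : ∀ e ∈ E, (h * e) % (5 * r) ∈ E := by
    intro e he
    rw [hE, mem_filter, mem_range] at he ⊢
    refine ⟨Nat.mod_lt _ hn, ?_⟩
    refine Par_R5_congr (a := h * (c * e)) ?_ (Par_R5_mul hR he.2)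
    have h1 : ((h * e) % (5 * r)) % 5 = (h * e) % 5 := Par_mod5 _ _ (Dvd.intro r rfl)
    have h2 : h * (c * e) = c * (h * e) := by ring
    rw [h2, Nat.mul_mod, Nat.mul_mod c ((h * e) % (5 * r)), h1]
  have hinj : Set.InjOn (fun e => (h * e) % (5 * r)) (E : Set ℕ) := by
    intro a ha b hb hab
    have ha' := (mem_filter.1 (Finset.mem_coe.1 ha)).1
    have hb' := (mem_filter.1 (Finset.mem_coe.1 hb)).1
    rw [mem_range] at ha' hb'
    have h1 : h * a ≡ h * b [MOD (5 * r)] := hab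
    have h2 : a ≡ b [MOD (5 * r)] :=
      Nat.ModEq.cancel_left_of_coprime (by rw [Nat.coprime_comm] at hcn; exact hcn) h1
    have h3 : a % (5 * r) = b % (5 * r) := h2
    rwa [Nat.mod_eq_of_lt ha', Nat.mod_eq_of_lt hb'] at h3
  have himg : E.image (fun e => (h * e) % (5 * r)) = E := by
    apply Finset.eq_of_subset_of_card_le
    · intro x hx
      obtain ⟨e, he, rfl⟩ := Finset.mem_image.1 hx
      exact hmaps e he
    · rw [Finset.card_image_of_injOn hinj]
  have hsum : ∑ e ∈ E, ψ (e : ZMod r) = ψ (h : ZMod r) * ∑ e ∈ E, ψ (e : ZMod r) := by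
    have h1 : ∑ e ∈ E.image (fun e => (h * e) % (5 * r)), ψ (e : ZMod r)
        = ∑ e ∈ E, ψ (((h * e) % (5 * r) : ℕ) : ZMod r) := Finset.sum_image hinj
    rw [himg] at h1
    refine h1.trans ?_
    rw [Finset.mul_sum]
    refine Finset.sum_congr rfl ?_
    intro e _
    have h2 : (((h * e) % (5 * r) : ℕ) : ZMod r) = ((h * e : ℕ) : ZMod r) := by
      rw [ZMod.natCast_eq_natCast_iff]
      have h3 : (h * e) % (5 * r) ≡ h * e [MOD (5 * r)] := Nat.mod_modEq _ _
      exact h3.of_mul_left 5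
    rw [h2, Nat.cast_mul, map_mul]
  have h0 : (ψ (h : ZMod r) - 1) * ∑ e ∈ E, ψ (e : ZMod r) = 0 := by
    rw [sub_mul, one_mul, ← hsum, sub_self]
  rcases mul_eq_zero.1 h0 with h1 | h1
  · exact absurd (sub_eq_zero.1 h1) hne
  · exact h1

private theorem Par_norm {r : ℕ} (ψ : DirichletCharacter ℂ r) (m : ℕ) (h : m.Coprime r) :
    ‖ψ (m : ZMod r)‖ = 1 := by
  have h1 : IsUnit (m : ZMod r) := (ZMod.isUnit_iff_coprime m r).2 h
  have h2 := ψ.unit_norm_eq_one h1.unit
  rwa [IsUnit.unit_spec] at h2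

private theorem Par_zero {r : ℕ} (ψ : DirichletCharacter ℂ r) (m : ℕ) (h : ¬ m.Coprime r) :
    ψ (m : ZMod r) = 0 :=
  ψ.map_nonunit (by rwa [ZMod.isUnit_iff_coprime])

private theorem Par_level {r n : ℕ} (hn : r ∣ n) (ψ : DirichletCharacter ℂ r) (m : ℕ)
    (h : m.Coprime n) :
    DirichletCharacter.changeLevel hn ψ (m : ZMod n) = ψ (m : ZMod r) := by
  have h1 : IsCoprime (m : ℤ) (n : ℤ) := Nat.isCoprime_iff_coprime.mpr h
  have h2 := ψ.changeLevel_eq_cast_of_dvd' hn h1
  push_cast at h2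
  exact h2

/-- Two primitive characters that agree at the integers prime to `n` are equal. -/
private theorem Par_eq {n : ℕ} (hn : 0 < n) (y z : Σ r : ℕ, DirichletCharacter ℂ r)
    (hy : y.1 ∣ n) (hz : z.1 ∣ n) (hyp : y.2.IsPrimitive) (hzp : z.2.IsPrimitive)
    (h : ∀ m : ℕ, m.Coprime n → y.2 (m : ZMod y.1) = z.2 (m : ZMod z.1)) : y = z := by
  obtain ⟨r, ψ⟩ := y
  obtain ⟨r', ψ'⟩ := z
  have : NeZero n := ⟨hn.ne'⟩
  dsimp only at hy hz hyp hzp h
  have h1 : DirichletCharacter.changeLevel hy ψ = DirichletCharacter.changeLevel hz ψ' := by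
    ext1 a
    have ha : ((a : ZMod n).val).Coprime n := ZMod.val_coe_unit_coprime a
    have h2 := Par_level hy ψ _ ha
    have h3 := Par_level hz ψ' _ ha
    rw [ZMod.natCast_zmod_val] at h2 h3
    rw [h2, h3]
    exact h _ ha
  have h4 : r = r' := by
    have h5 := congrArg DirichletCharacter.conductor h1
    rw [DirichletCharacter.conductor_changeLevel, DirichletCharacter.conductor_changeLevel] at h5
    have h6 : ψ.conductor = r := hyp
    have h7 : ψ'.conductor = r' := hzp
    rw [h6, h7] at h5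
    exact h5
  subst h4
  have h8 : ψ = ψ' := DirichletCharacter.changeLevel_injective hy h1
  rw [h8]

/-- `ψ` and `ψ'` agree at the integers `1, 4` modulo `5` -/
def Agr (x y : Σ r : ℕ, DirichletCharacter ℂ r) : Prop :=
  ∀ m : ℕ, R5 m → m.Coprime (x.1 * y.1) → x.2 (m : ZMod x.1) = y.2 (m : ZMod y.1)

theorem prod_gnr {r r' : ℕ} (hr : 0 < r) (hr' : 0 < r') (ψ : DirichletCharacter ℂ r) (ψ' : DirichletCharacter ℂ r') :
    ∃ χ : DirichletCharacter ℂ (r * r'),
      (∀ m : ℕ, χ (m : ZMod (r * r')) = ψ (m : ZMod r) * (starRingEnd ℂ) (ψ' (m : ZMod r'))) ∧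
      (Gnr χ ∨ Agr ⟨r, ψ⟩ ⟨r', ψ'⟩) := by
  have hrr : 0 < r * r' := Nat.mul_pos hr hr'
  have hval : ∀ m : ℕ, (DirichletCharacter.changeLevel (Dvd.intro r' rfl) ψ *
      (DirichletCharacter.changeLevel (Dvd.intro_left r rfl) ψ')⁻¹ : DirichletCharacter ℂ (r * r'))
        (m : ZMod (r * r')) = ψ (m : ZMod r) * (starRingEnd ℂ) (ψ' (m : ZMod r')) := by
    intro m
    by_cases hm : m.Coprime (r * r')
    · have h1 : m.Coprime r := hm.coprime_dvd_right (Dvd.intro r' rfl)
      have h2 : m.Coprime r' := hm.coprime_dvd_right (Dvd.intro_left r rfl)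
      rw [MulChar.mul_apply, MulChar.inv_apply_eq_inv', Par_level _ ψ m hm, Par_level _ ψ' m hm,
        Complex.inv_eq_conj (Par_norm ψ' m h2)]
    · rw [Par_zero _ m hm]
      by_cases h1 : m.Coprime r
      · have h2 : ¬ m.Coprime r' := fun h2 => hm (Nat.Coprime.mul_right h1 h2)
        rw [Par_zero ψ' m h2, map_zero, mul_zero]
      · rw [Par_zero ψ m h1, zero_mul]
  refine ⟨_, hval, ?_⟩
  by_cases hex : ∃ h : ℕ, h.Coprime (r * r') ∧ R5 h ∧
      (DirichletCharacter.changeLevel (Dvd.intro r' rfl) ψ *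
      (DirichletCharacter.changeLevel (Dvd.intro_left r rfl) ψ')⁻¹ : DirichletCharacter ℂ (r * r'))
        (h : ZMod (r * r')) ≠ 1
  · obtain ⟨h, hc, hR, hne⟩ := hex
    exact Or.inl (Par_case1 _ hrr _ h hc hR hne)
  · refine Or.inr fun m hR hm => ?_
    have h2 : m.Coprime r' := hm.coprime_dvd_right (Dvd.intro_left r rfl)
    have h3 : ψ (m : ZMod r) * (starRingEnd ℂ) (ψ' (m : ZMod r')) = 1 := by
      rw [← hval m]
      by_contra hne
      exact hex ⟨m, hm, hR, hne⟩
    have h4 : (starRingEnd ℂ) (ψ' (m : ZMod r')) * ψ' (m : ZMod r') = 1 := by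
      rw [← Complex.inv_eq_conj (Par_norm ψ' m h2)]
      refine inv_mul_cancel₀ ?_
      intro h5
      have h6 := Par_norm ψ' m h2
      rw [h5, norm_zero] at h6
      exact zero_ne_one h6
    show ψ (m : ZMod r) = ψ' (m : ZMod r')
    calc ψ (m : ZMod r) = ψ (m : ZMod r) * ((starRingEnd ℂ) (ψ' (m : ZMod r')) * ψ' (m : ZMod r')) := by
          rw [h4, mul_one]
      _ = ψ' (m : ZMod r') := by rw [← mul_assoc, h3, one_mul]

open Classical in
theorem partner (R : ℕ) (x : Σ r : ℕ, DirichletCharacter ℂ r) (hx : x ∈ PrC R) :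
    ((PrC R).filter (fun y => Agr x y)).card ≤ 2 := by
  obtain ⟨u, huR, hup, hu5⟩ := Nat.forall_exists_prime_gt_and_modEq (R + 7) (q := 5) (a := 2)
    (by norm_num) (by norm_num)
  have hu2 : u % 5 = 2 := hu5
  have huu : R5 (u * u) := by
    unfold R5
    rw [Nat.mul_mod, hu2]
    exact Or.inr rfl
  have hcop : ∀ y ∈ PrC R, u.Coprime y.1 := by
    intro y hy
    have h1 := (Finset.mem_Icc.1 (Finset.mem_sigma.1 hy).1)
    refine (Nat.Prime.coprime_iff_not_dvd hup).2 fun hd => ?_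
    have h2 := Nat.le_of_dvd (by omega) hd
    omega
  have hpos : ∀ y ∈ PrC R, 0 < y.1 := fun y hy =>
    lt_of_lt_of_le Nat.zero_lt_one (Finset.mem_Icc.1 (Finset.mem_sigma.1 hy).1).1
  have hprim : ∀ y ∈ PrC R, y.2.IsPrimitive := fun y hy =>
    (mem_prim (hpos y hy) y.2).1 (Finset.mem_sigma.1 hy).2
  have hx0 := hpos x hx
  have hxu := hcop x hx
  set b : ℂ := x.2 (u : ZMod x.1) with hb
  -- the value at `u`
  have hmaps : ∀ y ∈ (PrC R).filter (fun y => Agr x y),
      y.2 (u : ZMod y.1) ∈ ({b, -b} : Finset ℂ) := by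
    intro y hy
    obtain ⟨hy1, hy2⟩ := Finset.mem_filter.1 hy
    have h1 : (u * u).Coprime (x.1 * y.1) :=
      Nat.Coprime.mul_left (Nat.Coprime.mul_right hxu (hcop y hy1))
        (Nat.Coprime.mul_right hxu (hcop y hy1))
    have h2 := hy2 (u * u) huu h1
    rw [Nat.cast_mul, Nat.cast_mul, map_mul, map_mul] at h2
    have h3 : (y.2 (u : ZMod y.1) - b) * (y.2 (u : ZMod y.1) + b) = 0 := by
      rw [hb]
      linear_combination -h2
    rw [Finset.mem_insert, Finset.mem_singleton]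
    rcases mul_eq_zero.1 h3 with h4 | h4
    · exact Or.inl (sub_eq_zero.1 h4)
    · exact Or.inr (eq_neg_of_add_eq_zero_left h4)
  have hinj : Set.InjOn (fun y : Σ r : ℕ, DirichletCharacter ℂ r => y.2 (u : ZMod y.1))
      ((PrC R).filter (fun y => Agr x y) : Finset (Σ r : ℕ, DirichletCharacter ℂ r)) := by
    intro y hy z hz hyz
    obtain ⟨hy1, hy2⟩ := Finset.mem_filter.1 (Finset.mem_coe.1 hy)
    obtain ⟨hz1, hz2⟩ := Finset.mem_filter.1 (Finset.mem_coe.1 hz)
    have hyz' : y.2 (u : ZMod y.1) = z.2 (u : ZMod z.1) := hyz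
    have hn : 0 < 5 * (x.1 * (y.1 * z.1)) := by
      have := hpos y hy1
      have := hpos z hz1
      positivity
    refine Par_eq hn y z ?_ ?_ (hprim y hy1) (hprim z hz1) ?_
    · exact ((Dvd.intro z.1 rfl).trans (Dvd.intro_left x.1 rfl)).trans (Dvd.intro_left 5 rfl)
    · exact ((Dvd.intro_left y.1 rfl).trans (Dvd.intro_left x.1 rfl)).trans (Dvd.intro_left 5 rfl)
    · intro m hm
      have hm5 : m.Coprime 5 := hm.coprime_dvd_right (Dvd.intro _ rfl)
      have hm' : m.Coprime (x.1 * (y.1 * z.1)) := hm.coprime_dvd_right (Dvd.intro_left 5 rfl)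
      have hmx : m.Coprime x.1 := hm'.coprime_dvd_right (Dvd.intro _ rfl)
      have hmyz : m.Coprime (y.1 * z.1) := hm'.coprime_dvd_right (Dvd.intro_left _ rfl)
      have hmy : m.Coprime y.1 := hmyz.coprime_dvd_right (Dvd.intro _ rfl)
      have hmz : m.Coprime z.1 := hmyz.coprime_dvd_right (Dvd.intro_left _ rfl)
      by_cases hR : R5 m
      · rw [← hy2 m hR (Nat.Coprime.mul_right hmx hmy), ← hz2 m hR (Nat.Coprime.mul_right hmx hmz)]
      · have hRu : R5 (m * u) := by
          have h5 : ¬ 5 ∣ m := by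
            intro hd
            have h6 : Nat.gcd m 5 = 5 := Nat.gcd_eq_right hd
            rw [Nat.Coprime, h6] at hm5
            omega
          unfold R5 at hR ⊢
          rw [Nat.mul_mod, hu2]
          have h7 : m % 5 = 2 ∨ m % 5 = 3 := by omega
          rcases h7 with h7 | h7 <;> rw [h7] <;> norm_num
        have hcy : (m * u).Coprime (x.1 * y.1) :=
          Nat.Coprime.mul_left (Nat.Coprime.mul_right hmx hmy)
            (Nat.Coprime.mul_right hxu (hcop y hy1))
        have hcz : (m * u).Coprime (x.1 * z.1) :=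
          Nat.Coprime.mul_left (Nat.Coprime.mul_right hmx hmz)
            (Nat.Coprime.mul_right hxu (hcop z hz1))
        have h8 := hy2 (m * u) hRu hcy
        have h9 := hz2 (m * u) hRu hcz
        have h10 : y.2 ((m * u : ℕ) : ZMod y.1) = z.2 ((m * u : ℕ) : ZMod z.1) := h8.symm.trans h9
        rw [Nat.cast_mul, Nat.cast_mul, map_mul, map_mul, ← hyz'] at h10
        refine mul_right_cancel₀ ?_ h10
        intro h11
        have h12 := Par_norm y.2 u (hcop y hy1)
        rw [h11, norm_zero] at h12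
        exact zero_ne_one h12
  calc ((PrC R).filter (fun y => Agr x y)).card ≤ ({b, -b} : Finset ℂ).card :=
        Finset.card_le_card_of_injOn _ hmaps hinj
    _ ≤ 2 := Finset.card_le_two

end Pool.Agent.Lib.MP_d57abb_nt.KC
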