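import Pool.Agent.Lib.MP_d57abb_nt.KC.Defs
import Pool.Agent.Lib.MP_d57abb_nt.KT.SmP
import Pool.Agent.Lib.MP_d57abb_nt.KT.SmN

/-!
# sums of generic characters over the primes and over the model, moduli up to `(log P)^18`

The proofs of `KT/SmP` (`small_primes`) and `KT/SmN` (`small_model`) with `sw 80 20` in place of `sw 30 10` and `i = 0`, `k = 1` (no weights, no condition `m` prime to `k`), modulus `r ≤ (log P)^18`.
-/

open Finset

namespace Pool.Agent.Lib.MP_d57abb_nt.KC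

open Pool.Agent.Lib.MP_d57abb_nt Pool.Agent.Lib.MP_d57abb_nt.KT

open Pool.Agent.Lib.MP_d57abb_nt.All (lp sw)

/-- fibering over the residues modulo `5 r` -/
private theorem SmC_P_fiber (r : ℕ) (hr : 0 < r) (ψ : DirichletCharacter ℂ r) (y : ℕ) :
    ∑ n ∈ (Ioc 0 y).filter (fun n => R5 n), (lp n : ℂ) * ψ (n : ZMod r) =
      ∑ c ∈ (range (5 * r)).filter (fun c => R5 c), ψ (c : ZMod r) *
        ((∑ n ∈ (Ioc 0 y).filter (fun n => n ≡ c [MOD 5 * r]), lp n : ℝ) : ℂ) := by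
  have hmaps : ∀ n ∈ (Ioc 0 y).filter (fun n => R5 n),
      n % (5 * r) ∈ (range (5 * r)).filter (fun c => R5 c) := by
    intro n hn
    rw [mem_filter] at hn ⊢
    refine ⟨mem_range.2 (Nat.mod_lt _ (by omega)), ?_⟩
    unfold R5 at hn ⊢
    rw [Nat.mod_mul_right_mod]
    exact hn.2
  rw [← Finset.sum_fiberwise_of_maps_to hmaps]
  refine Finset.sum_congr rfl fun c hc => ?_
  rw [mem_filter, mem_range] at hc
  have hset : ((Ioc 0 y).filter (fun n => R5 n)).filter (fun n => n % (5 * r) = c) =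
      (Ioc 0 y).filter (fun n => n ≡ c [MOD 5 * r]) := by
    ext n
    simp only [mem_filter]
    unfold Nat.ModEq
    rw [Nat.mod_eq_of_lt hc.1]
    constructor
    · rintro ⟨⟨h1, _⟩, h3⟩
      exact ⟨h1, h3⟩
    · rintro ⟨h1, h3⟩
      refine ⟨⟨h1, ?_⟩, h3⟩
      have h4 := hc.2
      unfold R5 at h4 ⊢
      rw [← h3, Nat.mod_mul_right_mod] at h4
      exact h4
  rw [hset]
  push_cast
  rw [Finset.mul_sum]
  refine Finset.sum_congr rfl fun n hn => ?_
  rw [mem_filter] at hn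
  have h5 : (n : ZMod r) = (c : ZMod r) := by
    rw [ZMod.natCast_eq_natCast_iff]
    exact hn.2.of_mul_left 5
  rw [h5, mul_comm]

/-- the sum over the primes up to `y` -/
private theorem SmC_P_theta (r : ℕ) (hr : 0 < r) (ψ : DirichletCharacter ℂ r) (hψ : Gnr ψ) (y : ℕ)
    (E : ℝ) (h : ∀ c : ℕ, Nat.Coprime c (5 * r) →
      |∑ n ∈ (Ioc 0 y).filter (fun n => n ≡ c [MOD 5 * r]), lp n -
        (y : ℝ) / (Nat.totient (5 * r) : ℝ)| ≤ E) (hE : 0 ≤ E) :
    ‖∑ n ∈ (Ioc 0 y).filter (fun n => R5 n), (lp n : ℂ) * ψ (n : ZMod r)‖ ≤ 5 * r * E := by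
  rw [SmC_P_fiber r hr ψ y]
  have h0 : ∑ c ∈ (range (5 * r)).filter (fun c => R5 c), ψ (c : ZMod r) = 0 := by
    have h1 := hψ 1 (by norm_num)
    simpa using h1
  have h2 : ∑ c ∈ (range (5 * r)).filter (fun c => R5 c), ψ (c : ZMod r) *
        ((∑ n ∈ (Ioc 0 y).filter (fun n => n ≡ c [MOD 5 * r]), lp n : ℝ) : ℂ) =
      ∑ c ∈ (range (5 * r)).filter (fun c => R5 c), ψ (c : ZMod r) *
        (((∑ n ∈ (Ioc 0 y).filter (fun n => n ≡ c [MOD 5 * r]), lp n) -
          (y : ℝ) / (Nat.totient (5 * r) : ℝ) : ℝ) : ℂ) := by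
    have h3 : ∑ c ∈ (range (5 * r)).filter (fun c => R5 c), ψ (c : ZMod r) *
        (((y : ℝ) / (Nat.totient (5 * r) : ℝ) : ℝ) : ℂ) = 0 := by
      rw [← Finset.sum_mul, h0, zero_mul]
    rw [← sub_zero (∑ c ∈ (range (5 * r)).filter (fun c => R5 c), ψ (c : ZMod r) *
        ((∑ n ∈ (Ioc 0 y).filter (fun n => n ≡ c [MOD 5 * r]), lp n : ℝ) : ℂ)), ← h3,
      ← Finset.sum_sub_distrib]
    refine Finset.sum_congr rfl fun c _ => ?_
    rw [← mul_sub, ← Complex.ofReal_sub]
  rw [h2]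
  have h4 : ∀ c ∈ (range (5 * r)).filter (fun c => R5 c), ‖ψ (c : ZMod r) *
        (((∑ n ∈ (Ioc 0 y).filter (fun n => n ≡ c [MOD 5 * r]), lp n) -
          (y : ℝ) / (Nat.totient (5 * r) : ℝ) : ℝ) : ℂ)‖ ≤ E := by
    intro c hc
    rw [mem_filter, mem_range] at hc
    rw [norm_mul, Complex.norm_real, Real.norm_eq_abs]
    by_cases hcr : Nat.Coprime c r
    · have hc5 : Nat.Coprime c 5 := by
        rw [Nat.coprime_comm, Nat.Prime.coprime_iff_not_dvd (by norm_num)]
        intro hd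
        have := hc.2
        unfold R5 at this
        omega
      have h5 := h c (Nat.Coprime.mul_right hc5 hcr)
      have h6 : ‖ψ (c : ZMod r)‖ ≤ 1 := ψ.norm_le_one _
      calc ‖ψ (c : ZMod r)‖ * _ ≤ 1 * _ := mul_le_mul_of_nonneg_right h6 (abs_nonneg _)
        _ ≤ E := by
          rw [one_mul]
          exact h5
    · have h5 : ψ (c : ZMod r) = 0 := by
        apply MulChar.map_nonunit
        rw [ZMod.isUnit_iff_coprime]
        exact hcr
      rw [h5, norm_zero, zero_mul]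
      exact hE
  refine (norm_sum_le _ _).trans ((Finset.sum_le_card_nsmul _ _ _ h4).trans ?_)
  rw [nsmul_eq_mul]
  apply mul_le_mul_of_nonneg_right _ hE
  have h5 : ((range (5 * r)).filter (fun c => R5 c)).card ≤ 5 * r := by
    refine (Finset.card_filter_le _ _).trans ?_
    rw [Finset.card_range]
  exact_mod_cast h5

/-- from the bound for `Θ` to the bound for the weighted sum -/
private theorem SmC_P_abel (P r : ℕ) (hP : 6 ≤ P) (ψ : DirichletCharacter ℂ r) (E : ℝ)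
    (h : ∀ y : ℕ, P / 2 ≤ y → y ≤ P →
      ‖∑ n ∈ (Ioc 0 y).filter (fun n => R5 n), (lp n : ℂ) * ψ (n : ZMod r)‖ ≤ E) (i : ℕ) :
    ‖∑ p ∈ PP P, ((((p : ℝ) / P) ^ i : ℝ) : ℂ) * ψ (p : ZMod r)‖ ≤ 4 * E := by
  classical
  have hE : 0 ≤ E := (norm_nonneg _).trans (h P (Nat.div_le_self _ _) le_rfl)
  have hPpos : (0 : ℝ) < P := by exact_mod_cast (by omega : 0 < P)
  set a : ℕ → ℂ := fun n => if n ∈ PP P then (Real.log n : ℂ) * ψ (n : ZMod r) else 0 with ha
  set b : ℕ → ℂ := fun n => if n ∈ PP P then ψ (n : ZMod r) else 0 with hb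
  set Θ : ℕ → ℂ := fun y =>
    ∑ n ∈ (Ioc 0 y).filter (fun n => R5 n), (lp n : ℂ) * ψ (n : ZMod r) with hΘ
  -- partial sums of `a`
  have hA1 : ∀ u, P / 2 ≤ u → u ≤ P → ∑ n ∈ Ioc (P / 2) u, a n = Θ u - Θ (P / 2) := by
    intro u hu1 hu2
    have h1 : ∀ v, Θ v = ∑ n ∈ Ioc 0 v, if R5 n then (lp n : ℂ) * ψ (n : ZMod r) else 0 := by
      intro v
      rw [hΘ]
      exact Finset.sum_filter _ _
    rw [h1 u, h1 (P / 2), ← Finset.sum_Ioc_consecutive _ (Nat.zero_le _) hu1, add_sub_cancel_left]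
    refine Finset.sum_congr rfl fun n hn => ?_
    rw [mem_Ioc] at hn
    rw [ha]
    simp only [mem_PP]
    unfold All.lp
    by_cases hp : n.Prime
    · by_cases h5 : R5 n
      · rw [if_pos ⟨⟨hn.1, hn.2.trans hu2⟩, hp, h5⟩, if_pos h5, if_pos hp]
      · rw [if_neg (fun hh => h5 hh.2.2), if_neg h5]
    · rw [if_neg (fun hh => hp hh.2.1), if_neg hp]
      simp
  have hA2 : ∀ u, ‖∑ n ∈ Ioc (P / 2) u, a n‖ ≤ 2 * E := by
    intro u
    rcases Nat.lt_or_ge u (P / 2) with hu | hu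
    · rw [Finset.Ioc_eq_empty_of_le hu.le, Finset.sum_empty, norm_zero]
      linarith
    · rcases Nat.lt_or_ge P u with hu2 | hu2
      · have h1 : ∑ n ∈ Ioc (P / 2) u, a n = ∑ n ∈ Ioc (P / 2) P, a n := by
          rw [← Finset.sum_Ioc_consecutive a (Nat.div_le_self P 2) hu2.le]
          have h2 : ∑ n ∈ Ioc P u, a n = 0 := by
            apply Finset.sum_eq_zero
            intro n hn
            rw [mem_Ioc] at hn
            rw [ha]
            simp only [mem_PP]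
            exact if_neg (fun hh => by omega)
          rw [h2, add_zero]
        rw [h1, hA1 P (Nat.div_le_self P 2) le_rfl]
        refine (norm_sub_le _ _).trans ?_
        have h3 := h P (Nat.div_le_self P 2) le_rfl
        have h4 := h (P / 2) le_rfl (Nat.div_le_self P 2)
        rw [hΘ]
        simp only
        linarith
      · rw [hA1 u hu hu2]
        refine (norm_sub_le _ _).trans ?_
        have h3 := h u hu hu2
        have h4 := h (P / 2) le_rfl (Nat.div_le_self P 2)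
        rw [hΘ]
        simp only
        linarith
  -- partial sums of `b`
  have hlog : ∀ n : ℕ, P / 2 < n → 1 ≤ Real.log n := by
    intro n hn
    have h1 : (Real.exp 1 : ℝ) ≤ n := by
      have h2 := Real.exp_one_lt_d9
      have h3 : (3 : ℝ) ≤ n := by exact_mod_cast (by omega : 3 ≤ n)
      linarith
    have h4 : (0 : ℝ) < n := lt_of_lt_of_le (Real.exp_pos 1) h1
    rwa [Real.le_log_iff_exp_le h4]
  have hB : ∀ u, ‖∑ n ∈ Ioc (P / 2) u, b n‖ ≤ 2 * E := by
    intro u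
    have h1 := Pool.Agent.Lib.MP_42948a_nt.OM.abel_norm a (fun n => 1 / Real.log n) (2 * E) (P / 2) u
      (fun n hn => by
        have := hlog n hn
        positivity)
      (fun n hn => by
        have h2 := hlog n hn
        have h3 : (0 : ℝ) < n := by exact_mod_cast (by omega : 0 < n)
        apply one_div_le_one_div_of_le (by linarith)
        apply Real.log_le_log h3
        exact_mod_cast (by omega : n ≤ n + 1)) hA2
    have h4 : ∑ n ∈ Ioc (P / 2) u, b n =
        ∑ n ∈ Ioc (P / 2) u, a n * ((1 / Real.log n : ℝ) : ℂ) := by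
      refine Finset.sum_congr rfl fun n hn => ?_
      rw [mem_Ioc] at hn
      have h5 := hlog n hn.1
      have h6 : (Real.log n : ℂ) ≠ 0 := by
        rw [Complex.ofReal_ne_zero]
        linarith
      rw [ha, hb]
      simp only
      split_ifs with hm
      · rw [one_div, Complex.ofReal_inv]
        field_simp
      · simp
    rw [h4]
    refine h1.trans ?_
    have h7 := hlog (P / 2 + 1) (by omega)
    have h8 : 1 / Real.log ((P / 2 + 1 : ℕ) : ℝ) ≤ 1 := by
      rw [div_le_one (by linarith)]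
      exact h7
    calc 2 * E * (1 / Real.log ((P / 2 + 1 : ℕ) : ℝ)) ≤ 2 * E * 1 :=
          mul_le_mul_of_nonneg_left h8 (by linarith)
      _ = 2 * E := mul_one _
  have hB2 : ∀ k, ‖∑ d ∈ range k, b d‖ ≤ 2 * E := by
    intro k
    have h1 : ∑ d ∈ range k, b d = ∑ d ∈ Ioc (P / 2) (k - 1), b d := by
      symm
      apply Finset.sum_subset
      · intro d hd
        rw [mem_Ioc] at hd
        rw [mem_range]
        omega
      · intro d hd1 hd2
        rw [mem_range] at hd1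
        rw [mem_Ioc] at hd2
        rw [hb]
        simp only [mem_PP]
        exact if_neg (fun hh => hd2 ⟨hh.1.1, by omega⟩)
    rw [h1]
    exact hB _
  set w : ℕ → ℝ := fun n => ((min n P : ℕ) / (P : ℝ)) ^ i with hw
  have hwm : Monotone w := by
    intro m n hmn
    rw [hw]
    simp only
    apply pow_le_pow_left₀ (by positivity)
    apply div_le_div_of_nonneg_right _ hPpos.le
    exact_mod_cast min_le_min_right P hmn
  have h9 := Pool.Agent.Lib.MP_2a816b_nt.abel_sum b w (2 * E) hwm (by positivity) hB2 (P + 1)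
  have h10 : ∑ p ∈ PP P, ((((p : ℝ) / P) ^ i : ℝ) : ℂ) * ψ (p : ZMod r) =
      ∑ d ∈ range (P + 1), (w d : ℂ) * b d := by
    have h11 : ∑ d ∈ range (P + 1), (w d : ℂ) * b d =
        ∑ d ∈ PP P, (w d : ℂ) * b d := by
      symm
      apply Finset.sum_subset
      · intro d hd
        rw [mem_PP] at hd
        rw [mem_range]
        omega
      · intro d _ hd2
        rw [hb]
        simp only
        rw [if_neg hd2, mul_zero]
    rw [h11]
    refine Finset.sum_congr rfl fun p hp => ?_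
    have hp' := mem_PP.1 hp
    rw [hb, hw]
    simp only
    rw [if_pos hp, min_eq_left hp'.1.2]
  rw [h10]
  refine h9.trans ?_
  have h12 : w (P + 1) = 1 := by
    rw [hw]
    simp only
    rw [min_eq_right (by omega), div_self hPpos.ne', one_pow]
  rw [h12]
  linarith

private theorem SmC_N_moeb {Q : ℕ} (hQ : 0 < Q) {d : ℕ} :
    (∑ e ∈ Q.divisors, if e ∣ d then ((ArithmeticFunction.moebius e : ℤ) : ℂ) else 0) =
      if d.Coprime Q then 1 else 0 := by
  have h1 : Q.divisors.filter (fun e => e ∣ d) = (Nat.gcd d Q).divisors := by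
    ext e
    rw [mem_filter, Nat.mem_divisors, Nat.mem_divisors, Nat.dvd_gcd_iff]
    have hg : Nat.gcd d Q ≠ 0 := (Nat.gcd_pos_of_pos_right d hQ).ne'
    constructor
    · rintro ⟨⟨h1, _⟩, h2⟩
      exact ⟨⟨h2, h1⟩, hg⟩
    · rintro ⟨⟨h1, h2⟩, _⟩
      exact ⟨⟨h2, hQ.ne'⟩, h1⟩
  rw [← sum_filter, h1]
  have h2 : ∑ e ∈ (Nat.gcd d Q).divisors, (ArithmeticFunction.moebius e : ℤ) =
      if Nat.gcd d Q = 1 then 1 else 0 := by
    rw [← ArithmeticFunction.coe_mul_zeta_apply, ArithmeticFunction.moebius_mul_coe_zeta,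
      ArithmeticFunction.one_apply]
  have h3 := congrArg (fun z : ℤ => (z : ℂ)) h2
  simp only [Int.cast_sum] at h3
  rw [h3]
  unfold Nat.Coprime
  split_ifs <;> simp

private theorem SmC_N_per {r : ℕ} (hr : 0 < r) (ψ : DirichletCharacter ℂ r) (hψ : Gnr ψ) (e n : ℕ) :
    ‖∑ d ∈ range n, (if R5 (e * d) then ψ (d : ZMod r) else 0)‖ ≤ 5 * r := by
  by_cases he : e.Coprime 5
  · have h := Pool.Agent.Lib.MP_2a816b_nt.periodic_sum_bound
      (fun d => if R5 (e * d) then ψ (d : ZMod r) else 0) (5 * r) 1 (by omega) ?_ ?_ ?_ n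
    · rw [one_mul] at h
      refine h.trans (le_of_eq ?_)
      push_cast
      ring
    · intro d
      have h1 : R5 (e * (5 * r + d)) ↔ R5 (e * d) := by
        have h2 : e * (5 * r + d) = 5 * (e * r) + e * d := by ring
        unfold R5
        rw [h2, Nat.mul_add_mod]
      have h3 : (((5 * r + d : ℕ)) : ZMod r) = (d : ZMod r) := by
        push_cast
        rw [ZMod.natCast_self, mul_zero, zero_add]
      show (if R5 (e * (5 * r + d)) then ψ ((5 * r + d : ℕ) : ZMod r) else 0) = _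
      rw [h3]
      by_cases h4 : R5 (e * d)
      · rw [if_pos (h1.2 h4), if_pos h4]
      · rw [if_neg (fun h5 => h4 (h1.1 h5)), if_neg h4]
    · rw [← sum_filter]
      exact hψ e he
    · intro d
      show ‖if R5 (e * d) then ψ (d : ZMod r) else 0‖ ≤ 1
      split_ifs
      · exact DirichletCharacter.norm_le_one ψ _
      · rw [norm_zero]
        exact zero_le_one
  · have h5 : 5 ∣ e := by
      by_contra h6
      exact he (((Nat.Prime.coprime_iff_not_dvd (by norm_num)).2 h6).symm)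
    have h7 : ∀ d ∈ range n, (if R5 (e * d) then ψ (d : ZMod r) else 0) = 0 := by
      intro d _
      rw [if_neg]
      intro h8
      have h9 : e * d % 5 = 0 := Nat.mod_eq_zero_of_dvd (dvd_mul_of_dvd_left h5 d)
      unfold R5 at h8
      omega
    rw [sum_eq_zero h7, norm_zero]
    positivity

private theorem SmC_N_mult {e : ℕ} (he : 0 < e) (t : ℕ) (H : ℕ → ℂ) :
    ∃ n, ∑ d ∈ range t, (if e ∣ d then H d else 0) = ∑ d ∈ range n, H (e * d) := by
  refine ⟨(t + e - 1) / e, ?_⟩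
  rw [← sum_filter]
  have key : ∀ d, e * d < t ↔ d < (t + e - 1) / e := by
    intro d
    rw [Nat.lt_iff_add_one_le, Nat.lt_iff_add_one_le, Nat.le_div_iff_mul_le he]
    have h1 : (d + 1) * e = e * d + e := by ring
    omega
  refine sum_nbij' (fun d => d / e) (fun d => e * d) ?_ ?_ ?_ ?_ ?_
  · intro d hd
    rw [mem_filter, mem_range] at hd
    rw [mem_range, ← key, Nat.mul_div_cancel' hd.2]
    exact hd.1
  · intro d hd
    rw [mem_range] at hd
    rw [mem_filter, mem_range]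
    exact ⟨(key d).2 hd, dvd_mul_right e d⟩
  · intro d hd
    rw [mem_filter] at hd
    exact Nat.mul_div_cancel' hd.2
  · intro d _
    exact Nat.mul_div_cancel_left d he
  · intro d hd
    rw [mem_filter] at hd
    show H d = H (e * (d / e))
    rw [Nat.mul_div_cancel' hd.2]

private theorem SmC_N_one {r : ℕ} (hr : 0 < r) (ψ : DirichletCharacter ℂ r) (hψ : Gnr ψ) {e : ℕ}
    (he : 0 < e) (t : ℕ) :
    ‖∑ d ∈ range t, (if e ∣ d then (if R5 d then ψ (d : ZMod r) else 0) else 0)‖ ≤ 5 * r := by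
  obtain ⟨n, hn⟩ := SmC_N_mult he t (fun d => if R5 d then ψ (d : ZMod r) else 0)
  rw [hn]
  have h1 : ∀ d ∈ range n, (if R5 (e * d) then ψ (((e * d : ℕ)) : ZMod r) else 0) =
      ψ (e : ZMod r) * (if R5 (e * d) then ψ (d : ZMod r) else 0) := by
    intro d _
    rw [Nat.cast_mul, map_mul]
    split_ifs
    · rfl
    · rw [mul_zero]
  rw [sum_congr rfl h1, ← mul_sum, norm_mul]
  have h2 := DirichletCharacter.norm_le_one ψ (e : ZMod r)
  have h3 := SmC_N_per hr ψ hψ e n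
  calc _ ≤ 1 * (5 * (r : ℝ)) := mul_le_mul h2 h3 (norm_nonneg _) zero_le_one
    _ = 5 * r := one_mul _

private theorem SmC_N_G {r : ℕ} (hr : 0 < r) (ψ : DirichletCharacter ℂ r) (hψ : Gnr ψ) {Q : ℕ}
    (hQ : 0 < Q) (t : ℕ) :
    ‖∑ d ∈ range t, (if d.Coprime Q then (if R5 d then ψ (d : ZMod r) else 0) else 0)‖ ≤
      (Q.divisors.card : ℝ) * (5 * r) := by
  have h1 : ∀ d ∈ range t, (if d.Coprime Q then (if R5 d then ψ (d : ZMod r) else 0) else 0) =
      ∑ e ∈ Q.divisors, ((ArithmeticFunction.moebius e : ℤ) : ℂ) *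
        (if e ∣ d then (if R5 d then ψ (d : ZMod r) else 0) else 0) := by
    intro d _
    have h2 : (if d.Coprime Q then (if R5 d then ψ (d : ZMod r) else 0) else 0) =
        (if d.Coprime Q then 1 else 0) * (if R5 d then ψ (d : ZMod r) else 0) := by
      by_cases h : d.Coprime Q
      · rw [if_pos h, if_pos h, one_mul]
      · rw [if_neg h, if_neg h, zero_mul]
    rw [h2, ← SmC_N_moeb hQ, sum_mul]
    refine sum_congr rfl fun e _ => ?_
    by_cases h : e ∣ d
    · rw [if_pos h, if_pos h]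
    · rw [if_neg h, if_neg h, zero_mul, mul_zero]
  rw [sum_congr rfl h1, sum_comm]
  refine (norm_sum_le _ _).trans ?_
  have h3 : ∀ e ∈ Q.divisors, ‖∑ d ∈ range t, ((ArithmeticFunction.moebius e : ℤ) : ℂ) *
        (if e ∣ d then (if R5 d then ψ (d : ZMod r) else 0) else 0)‖ ≤ 5 * r := by
    intro e he
    rw [← mul_sum, norm_mul]
    have h4 : ‖((ArithmeticFunction.moebius e : ℤ) : ℂ)‖ ≤ 1 := by
      rw [Complex.norm_intCast]
      exact_mod_cast ArithmeticFunction.abs_moebius_le_one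
    have h5 := SmC_N_one hr ψ hψ (Nat.pos_of_mem_divisors he) t
    calc _ ≤ 1 * (5 * (r : ℝ)) := mul_le_mul h4 h5 (norm_nonneg _) zero_le_one
      _ = 5 * r := one_mul _
  refine (sum_le_sum h3).trans ?_
  rw [sum_const, nsmul_eq_mul]

private theorem SmC_N_F {r : ℕ} (hr : 0 < r) (ψ : DirichletCharacter ℂ r) (hψ : Gnr ψ) {Q : ℕ}
    (hQ : 0 < Q) (P t : ℕ) :
    ‖∑ d ∈ range t, (if P / 2 < d then
      (if d.Coprime Q then (if R5 d then ψ (d : ZMod r) else 0) else 0) else 0)‖ ≤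
      2 * ((Q.divisors.card : ℝ) * (5 * r)) := by
  have h0 : 0 ≤ (Q.divisors.card : ℝ) * (5 * r) := by positivity
  rcases le_or_gt t (P / 2 + 1) with ht | ht
  · rw [sum_eq_zero, norm_zero]
    · linarith
    · intro d hd
      rw [mem_range] at hd
      rw [if_neg (by omega)]
  · obtain ⟨s, rfl⟩ : ∃ s, t = (P / 2 + 1) + s := ⟨t - (P / 2 + 1), by omega⟩
    have h1 : ∑ d ∈ range (P / 2 + 1 + s), (if P / 2 < d then
        (if d.Coprime Q then (if R5 d then ψ (d : ZMod r) else 0) else 0) else 0) =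
        ∑ d ∈ range (P / 2 + 1 + s),
          (if d.Coprime Q then (if R5 d then ψ (d : ZMod r) else 0) else 0) -
        ∑ d ∈ range (P / 2 + 1),
          (if d.Coprime Q then (if R5 d then ψ (d : ZMod r) else 0) else 0) := by
      rw [sum_range_add _ (P / 2 + 1) s, sum_range_add _ (P / 2 + 1) s]
      have h2 : ∑ d ∈ range (P / 2 + 1), (if P / 2 < d then
          (if d.Coprime Q then (if R5 d then ψ (d : ZMod r) else 0) else 0) else 0) = 0 := by
        refine sum_eq_zero fun d hd => ?_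
        rw [mem_range] at hd
        rw [if_neg (by omega)]
      have h3 : ∀ x ∈ range s, (if P / 2 < P / 2 + 1 + x then
          (if (P / 2 + 1 + x).Coprime Q then
            (if R5 (P / 2 + 1 + x) then ψ (((P / 2 + 1 + x : ℕ)) : ZMod r) else 0) else 0) else 0) =
          (if (P / 2 + 1 + x).Coprime Q then
            (if R5 (P / 2 + 1 + x) then ψ (((P / 2 + 1 + x : ℕ)) : ZMod r) else 0) else 0) := by
        intro x _
        rw [if_pos (by omega)]
      rw [h2, sum_congr rfl h3]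
      ring
    rw [h1]
    refine (norm_sub_le _ _).trans ?_
    have h4 := SmC_N_G hr ψ hψ hQ (P / 2 + 1 + s)
    have h5 := SmC_N_G hr ψ hψ hQ (P / 2 + 1)
    linarith

private theorem SmC_N_sum {r : ℕ} (hr : 0 < r) (ψ : DirichletCharacter ℂ r) (hψ : Gnr ψ)
    {W P k : ℕ} (hW : 0 < W) (hk : 0 < k) (hP : 0 < P) (i : ℕ) :
    ‖∑ m ∈ (NN W P).filter (fun m => m.Coprime k),
        ((((m : ℝ) / P) ^ i : ℝ) : ℂ) * ψ (m : ZMod r)‖ ≤
      20 * ((W * k).divisors.card : ℝ) * r := by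
  have hQ : 0 < W * k := Nat.mul_pos hW hk
  have hP' : (0 : ℝ) < P := by exact_mod_cast hP
  have hw : Monotone (fun n : ℕ => (((min n P : ℕ) : ℝ) / P) ^ i) := by
    intro a b hab
    show (((min a P : ℕ) : ℝ) / P) ^ i ≤ (((min b P : ℕ) : ℝ) / P) ^ i
    refine pow_le_pow_left₀ (by positivity) ?_ i
    refine div_le_div_of_nonneg_right ?_ hP'.le
    exact_mod_cast min_le_min_right P hab
  have hmain := Pool.Agent.Lib.MP_2a816b_nt.abel_sum
    (fun d => if P / 2 < d then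
      (if d.Coprime (W * k) then (if R5 d then ψ (d : ZMod r) else 0) else 0) else 0)
    (fun n : ℕ => (((min n P : ℕ) : ℝ) / P) ^ i)
    (2 * (((W * k).divisors.card : ℝ) * (5 * r))) hw (by positivity)
    (fun t => SmC_N_F hr ψ hψ hQ P t) (P + 1)
  have e1 : ∑ m ∈ (NN W P).filter (fun m => m.Coprime k),
        ((((m : ℝ) / P) ^ i : ℝ) : ℂ) * ψ (m : ZMod r) =
      ∑ d ∈ range (P + 1), (((((min d P : ℕ) : ℝ) / P) ^ i : ℝ) : ℂ) *
        (if P / 2 < d then
      (if d.Coprime (W * k) then (if R5 d then ψ (d : ZMod r) else 0) else 0) else 0) := by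
    have h1 : (NN W P).filter (fun m => m.Coprime k) = (range (P + 1)).filter
        (fun d => P / 2 < d ∧ d.Coprime (W * k) ∧ R5 d) := by
      ext m
      rw [mem_filter, mem_NN, mem_filter, mem_range, Nat.coprime_mul_iff_right]
      constructor
      · rintro ⟨⟨⟨h1, h2⟩, h3, h4⟩, h5⟩
        exact ⟨by omega, h1, ⟨h3, h5⟩, h4⟩
      · rintro ⟨h1, h2, ⟨h3, h4⟩, h5⟩
        exact ⟨⟨⟨h2, by omega⟩, h3, h5⟩, h4⟩
    rw [h1, sum_filter]
    refine sum_congr rfl fun d hd => ?_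
    rw [mem_range] at hd
    have h2 : min d P = d := min_eq_left (by omega)
    rw [h2]
    by_cases c1 : P / 2 < d
    · by_cases c2 : d.Coprime (W * k)
      · by_cases c3 : R5 d
        · rw [if_pos ⟨c1, c2, c3⟩, if_pos c1, if_pos c2, if_pos c3]
        · rw [if_neg (fun h => c3 h.2.2), if_pos c1, if_pos c2, if_neg c3, mul_zero]
      · rw [if_neg (fun h => c2 h.2.1), if_pos c1, if_neg c2, mul_zero]
    · rw [if_neg (fun h => c1 h.1), if_neg c1, mul_zero]
  rw [e1]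
  refine hmain.trans (le_of_eq ?_)
  have h3 : min (P + 1) P = P := min_eq_right (by omega)
  show 2 * (((min (P + 1) P : ℕ) : ℝ) / P) ^ i * (2 * (((W * k).divisors.card : ℝ) * (5 * r))) = _
  rw [h3, div_self hP'.ne', one_pow]
  ring

theorem small_P : ∃ P₀ : ℕ, ∀ P : ℕ, P₀ ≤ P → ∀ r : ℕ, 0 < r → (r : ℝ) ≤ Real.log P ^ 18 →
    ∀ χ : DirichletCharacter ℂ r, Gnr χ → ‖∑ p ∈ PP P, χ (p : ZMod r)‖ ≤ P / Real.log P ^ 20 := by
  obtain ⟨y₀, hy₀⟩ := sw 80 20
  refine ⟨max (max (2 * y₀ + 2) 6) ⌈Real.exp 5120⌉₊, ?_⟩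
  intro P hP r hr hrP ψ hψ
  have hP1 : 2 * y₀ + 2 ≤ P := (le_max_left _ _).trans ((le_max_left _ _).trans hP)
  have hP2 : 6 ≤ P := (le_max_right _ _).trans ((le_max_left _ _).trans hP)
  have hP3 : Real.exp 5120 ≤ P := by
    refine (Nat.le_ceil _).trans ?_
    exact_mod_cast (le_max_right _ _).trans hP
  have hPpos : (0 : ℝ) < P := lt_of_lt_of_le (Real.exp_pos _) hP3
  set Λ : ℝ := Real.log P with hΛ
  have hΛ1 : 5120 ≤ Λ := by
    rw [hΛ, Real.le_log_iff_exp_le hPpos]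
    exact hP3
  have hΛ0 : 0 < Λ := by linarith
  -- the bound for `Θ`
  have hTheta : ∀ y : ℕ, P / 2 ≤ y → y ≤ P →
      ‖∑ n ∈ (Ioc 0 y).filter (fun n => R5 n), (lp n : ℂ) * ψ (n : ZMod r)‖ ≤
        5 * r * (P / (Λ / 2) ^ 80) := by
    intro y hy1 hy2
    have hyy : y₀ ≤ y := by omega
    have hypos : (0 : ℝ) < y := by exact_mod_cast (by omega : 0 < y)
    have hsq : P ≤ y * y := by
      have h1 : P ≤ 2 * y + 1 := by omega
      have h2 : 3 ≤ y := by omega
      nlinarith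
    have hlogy : Λ / 2 ≤ Real.log y := by
      have h1 : Real.log P ≤ Real.log ((y : ℝ) * y) := by
        apply Real.log_le_log hPpos
        exact_mod_cast hsq
      rw [Real.log_mul hypos.ne' hypos.ne'] at h1
      rw [hΛ]
      linarith
    have hmod : ((5 * r : ℕ) : ℝ) ≤ Real.log y ^ 20 := by
      have h1 : (Λ / 2) ^ 20 ≤ Real.log y ^ 20 := pow_le_pow_left₀ (by linarith) hlogy 20
      have h2 : 5 * Λ ^ 18 ≤ (Λ / 2) ^ 20 := by
        have h3 : (Λ / 2) ^ 20 = Λ ^ 18 * (Λ / 1024) ^ 2 := by ring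
        rw [h3]
        have h4 : (5 : ℝ) ≤ Λ / 1024 := by
          rw [le_div_iff₀ (by norm_num)]
          linarith
        have h4' : (5 : ℝ) ≤ (Λ / 1024) ^ 2 := by nlinarith
        have h5 : 0 ≤ Λ ^ 18 := by positivity
        nlinarith
      push_cast
      linarith
    have hE : (0 : ℝ) ≤ P / (Λ / 2) ^ 80 := by positivity
    refine SmC_P_theta r hr ψ hψ y _ ?_ hE
    intro c hc
    refine (hy₀ y hyy (5 * r) (by omega) hmod c hc).trans ?_
    have h6 : (Λ / 2) ^ 80 ≤ Real.log y ^ 80 := pow_le_pow_left₀ (by linarith) hlogy 80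
    have h7 : (y : ℝ) ≤ P := by exact_mod_cast hy2
    exact div_le_div₀ hPpos.le h7 (by positivity) h6
  have hab := SmC_P_abel P r hP2 ψ _ hTheta 0
  have e0 : ∑ p ∈ PP P, ((((p : ℝ) / P) ^ 0 : ℝ) : ℂ) * ψ (p : ZMod r) =
      ∑ p ∈ PP P, ψ (p : ZMod r) := by
    refine sum_congr rfl fun p _ => ?_
    rw [pow_zero, Complex.ofReal_one, one_mul]
  rw [e0] at hab
  refine hab.trans ?_
  have h1 : 4 * (5 * (r : ℝ) * (P / (Λ / 2) ^ 80)) ≤ 4 * (5 * Λ ^ 18 * (P / (Λ / 2) ^ 80)) := by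
    have h2 : (0 : ℝ) ≤ P / (Λ / 2) ^ 80 := by positivity
    have h3 := mul_le_mul_of_nonneg_right hrP h2
    linarith
  refine h1.trans ?_
  have h4 : 4 * (5 * Λ ^ 18 * (P / (Λ / 2) ^ 80)) = (20 * 2 ^ 80 / Λ ^ 42) * (P / Λ ^ 20) := by
    have e1 : (Λ / 2) ^ 80 = Λ ^ 18 * (Λ ^ 42 * Λ ^ 20) / 2 ^ 80 := by
      rw [div_pow]
      congr 1
      rw [← pow_add, ← pow_add]
    rw [e1]
    have a1 : Λ ^ 18 ≠ 0 := by positivity
    have a2 : Λ ^ 42 ≠ 0 := by positivity
    have a3 : Λ ^ 20 ≠ 0 := by positivity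
    generalize Λ ^ 18 = u at a1 ⊢
    generalize Λ ^ 42 = v at a2 ⊢
    generalize Λ ^ 20 = w at a3 ⊢
    field_simp
    ring
  rw [h4]
  have h5 : 20 * 2 ^ 80 / Λ ^ 42 ≤ 1 := by
    rw [div_le_one (by positivity)]
    have h6 : (5120 : ℝ) ^ 42 ≤ Λ ^ 42 := pow_le_pow_left₀ (by norm_num) hΛ1 42
    refine le_trans ?_ h6
    norm_num
  have h7 : (0 : ℝ) ≤ P / Λ ^ 20 := by positivity
  calc (20 * 2 ^ 80 / Λ ^ 42) * (P / Λ ^ 20) ≤ 1 * (P / Λ ^ 20) :=
        mul_le_mul_of_nonneg_right h5 h7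
    _ = P / Λ ^ 20 := one_mul _

private theorem SmC_N_large (A : ℝ) : ∃ P₀ : ℕ, 1 < P₀ ∧ ∀ P : ℕ, P₀ ≤ P →
    A * Real.log P ^ 38 ≤ P := by
  have h1 : (fun x : ℝ => Real.log x ^ (38 : ℝ)) =o[Filter.atTop] fun x : ℝ => x ^ (1 : ℝ) :=
    isLittleO_log_rpow_rpow_atTop 38 (by norm_num)
  have hc : (0 : ℝ) < 1 / (|A| + 1) := by positivity
  have h2 := h1.def hc
  obtain ⟨x₀, hx₀⟩ := Filter.eventually_atTop.1 h2
  refine ⟨⌈x₀⌉₊ + 2, by omega, fun P hP => ?_⟩
  have hP1 : (1 : ℝ) ≤ P := by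
    have : 1 ≤ P := by omega
    exact_mod_cast this
  have hP0 : (0 : ℝ) < P := by linarith
  have hPx : x₀ ≤ (P : ℝ) := by
    have h3 : (⌈x₀⌉₊ : ℝ) ≤ P := by
      have : ⌈x₀⌉₊ ≤ P := by omega
      exact_mod_cast this
    exact (Nat.le_ceil x₀).trans h3
  have h3 := hx₀ P hPx
  have hlog : 0 ≤ Real.log P := Real.log_nonneg hP1
  have e9 : Real.log (P : ℝ) ^ (38 : ℝ) = Real.log P ^ 38 := by
    rw [← Real.rpow_natCast]
    norm_num
  rw [e9, Real.rpow_one, Real.norm_of_nonneg (by positivity), Real.norm_of_nonneg hP0.le] at h3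
  have h6 : A * Real.log P ^ 38 ≤ (|A| + 1) * Real.log P ^ 38 := by
    refine mul_le_mul_of_nonneg_right ?_ (by positivity)
    linarith [le_abs_self A]
  refine h6.trans ?_
  have hA : (0 : ℝ) < |A| + 1 := by positivity
  have h7 := mul_le_mul_of_nonneg_left h3 hA.le
  have h8 : (|A| + 1) * (1 / (|A| + 1) * (P : ℝ)) = P := by
    field_simp
  rw [h8] at h7
  exact h7

theorem small_N (W : ℕ) (hW : 0 < W) (h5 : 5 ∣ W) : ∃ P₀ : ℕ, ∀ P : ℕ, P₀ ≤ P → ∀ r : ℕ, 0 < r → (r : ℝ) ≤ Real.log P ^ 18 →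
    ∀ χ : DirichletCharacter ℂ r, Gnr χ → ‖∑ m ∈ NN W P, χ (m : ZMod r)‖ ≤ P / Real.log P ^ 20 := by
  obtain ⟨P₀, hP₀, hlarge⟩ := SmC_N_large (20 * (W.divisors.card : ℝ))
  refine ⟨P₀, fun P hP r hr hrP ψ hψ => ?_⟩
  have hP1 : 0 < P := by omega
  have hPr : (1 : ℝ) < P := by
    have : 1 < P := by omega
    exact_mod_cast this
  have hlog : 0 < Real.log P := Real.log_pos hPr
  have h1 := SmC_N_sum hr ψ hψ hW (k := 1) one_pos hP1 0
  have e0 : ∑ m ∈ (NN W P).filter (fun m => m.Coprime 1),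
        ((((m : ℝ) / P) ^ 0 : ℝ) : ℂ) * ψ (m : ZMod r) = ∑ m ∈ NN W P, ψ (m : ZMod r) := by
    have e1 : (NN W P).filter (fun m => m.Coprime 1) = NN W P :=
      filter_true_of_mem fun m _ => Nat.coprime_one_right m
    rw [e1]
    refine sum_congr rfl fun m _ => ?_
    rw [pow_zero, Complex.ofReal_one, one_mul]
  rw [e0, mul_one] at h1
  refine h1.trans ?_
  rw [le_div_iff₀ (by positivity)]
  refine le_trans ?_ (hlarge P hP)
  have h2 : 20 * (W.divisors.card : ℝ) * r * Real.log P ^ 20 ≤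
      20 * (W.divisors.card : ℝ) * Real.log P ^ 18 * Real.log P ^ 20 := by
    refine mul_le_mul_of_nonneg_right ?_ (by positivity)
    exact mul_le_mul_of_nonneg_left hrP (by positivity)
  refine h2.trans (le_of_eq ?_)
  rw [mul_assoc, ← pow_add]

end Pool.Agent.Lib.MP_d57abb_nt.KC
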