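import Pool.Agent.Lib.MP_d57abb_nt.KC.Gram
import Pool.Agent.Lib.MP_d57abb_nt.KC.Par
import Pool.Agent.Lib.MP_d57abb_nt.KC.SmC
import Pool.Agent.Lib.MP_d57abb_nt.KT.CntP
import Pool.Agent.Lib.MP_d57abb_nt.KT.CntN

/-!
# the large sieve for small conductors

`gram` with `Ψ = PrC (R0 P)`, `g x m = x.2 m`, `A = PP P` (or `NN W P`).  For `x, y ∈ Ψ`: `r, r' ≤ R0 P ≤ (log P)^9` for large `P`, so `r r' ≤ (log P)^18`, and by `prod_gnr` either `Agr x y` (at most two `y`, `partner`; the sum over `A` is at most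
`#A` in norm) or the sum is at most `P/(log P)^20` (`small_P`, `small_N`).  `#Ψ ≤ (R0 P)² ≤ (log P)^18` (`card_allc_le`).  So the row sums are at most `2 #A + P/(log P)^2 ≤ 3 #A` (`PP_lower`: `#PP ≥ P/(5 log P)`; `NN_lower`).
-/

open Finset

namespace Pool.Agent.Lib.MP_d57abb_nt.KC

open Pool.Agent.Lib.MP_d57abb_nt Pool.Agent.Lib.MP_d57abb_nt.KT

private theorem LS_R0 {P : ℕ} (hL : 2 ≤ Real.log P) : (R0 P : ℝ) ≤ Real.log P ^ 9 := by
  have h1 : (R0 P : ℝ) ≤ Real.log P ^ 8 + 1 := by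
    unfold R0
    exact (Nat.ceil_lt_add_one (by positivity)).le
  have h2 : (1 : ℝ) ≤ Real.log P ^ 8 := one_le_pow₀ (by linarith)
  have h3 : Real.log P ^ 9 = Real.log P ^ 8 * Real.log P := pow_succ _ _
  rw [h3]
  nlinarith

private theorem LS_card (R : ℕ) : (PrC R).card ≤ R * R := by
  unfold PrC
  rw [Finset.card_sigma]
  calc ∑ r ∈ Icc 1 R, (prim r).card ≤ ∑ _r ∈ Icc 1 R, R := by
        refine Finset.sum_le_sum fun r hr => ?_
        have h1 : (prim r).card ≤ (allc r).card := by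
          classical
          unfold prim
          exact Finset.card_filter_le _ _
        exact h1.trans ((card_allc_le r).trans (Finset.mem_Icc.1 hr).2)
    _ = R * R := by simp

private theorem LS_norm {r : ℕ} (χ : DirichletCharacter ℂ r) (a : ZMod r) : ‖χ a‖ ≤ 1 :=
  χ.norm_le_one a

private theorem LS_core (A : Finset ℕ) (P : ℕ) (hL : 2 ≤ Real.log P)
    (hA : (P : ℝ) / Real.log P ^ 2 ≤ (A.card : ℝ))
    (h : ∀ r : ℕ, 0 < r → (r : ℝ) ≤ Real.log P ^ 18 →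
      ∀ χ : DirichletCharacter ℂ r, Gnr χ → ‖∑ m ∈ A, χ (m : ZMod r)‖ ≤ P / Real.log P ^ 20)
    (c : ℕ → ℝ) :
    ∑ x ∈ PrC (R0 P), ‖∑ m ∈ A, (c m : ℂ) * x.2 (m : ZMod x.1)‖ ^ 2 ≤
      3 * (A.card : ℝ) * ∑ m ∈ A, (c m) ^ 2 := by
  classical
  have hL0 : 0 < Real.log P := by linarith
  refine gram A (PrC (R0 P)) (fun x m => x.2 (m : ZMod x.1)) c (3 * (A.card : ℝ)) (by positivity) ?_
  intro x hx
  have hxr : 0 < x.1 ∧ x.1 ≤ R0 P := by
    have := (Finset.mem_sigma.1 hx).1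
    rw [Finset.mem_Icc] at this
    exact ⟨this.1, this.2⟩
  have key : ∀ y ∈ PrC (R0 P), ‖∑ m ∈ A, x.2 (m : ZMod x.1) * (starRingEnd ℂ) (y.2 (m : ZMod y.1))‖ ≤
      (if Agr x y then (A.card : ℝ) else 0) + P / Real.log P ^ 20 := by
    intro y hy
    have hyr : 0 < y.1 ∧ y.1 ≤ R0 P := by
      have := (Finset.mem_sigma.1 hy).1
      rw [Finset.mem_Icc] at this
      exact ⟨this.1, this.2⟩
    obtain ⟨χ, hχ, hG⟩ := prod_gnr hxr.1 hyr.1 x.2 y.2
    have hP0 : (0 : ℝ) ≤ P / Real.log P ^ 20 := by positivity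
    by_cases hag : Agr x y
    · rw [if_pos hag]
      have h1 : ‖∑ m ∈ A, x.2 (m : ZMod x.1) * (starRingEnd ℂ) (y.2 (m : ZMod y.1))‖ ≤
          ∑ _m ∈ A, (1 : ℝ) := by
        refine (norm_sum_le _ _).trans (Finset.sum_le_sum fun m _ => ?_)
        rw [norm_mul, RCLike.norm_conj]
        exact mul_le_one₀ (LS_norm _ _) (norm_nonneg _) (LS_norm _ _)
      rw [Finset.sum_const, nsmul_eq_mul, mul_one] at h1
      linarith
    · rw [if_neg hag, zero_add]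
      have hG' : Gnr χ := hG.resolve_right fun h' => hag h'
      have h1 : ∑ m ∈ A, x.2 (m : ZMod x.1) * (starRingEnd ℂ) (y.2 (m : ZMod y.1)) =
          ∑ m ∈ A, χ (m : ZMod (x.1 * y.1)) := Finset.sum_congr rfl fun m _ => (hχ m).symm
      rw [h1]
      refine h (x.1 * y.1) (Nat.mul_pos hxr.1 hyr.1) ?_ χ hG'
      have h2 : (x.1 : ℝ) ≤ Real.log P ^ 9 := (Nat.cast_le.2 hxr.2).trans (LS_R0 hL)
      have h3 : (y.1 : ℝ) ≤ Real.log P ^ 9 := (Nat.cast_le.2 hyr.2).trans (LS_R0 hL)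
      calc ((x.1 * y.1 : ℕ) : ℝ) = (x.1 : ℝ) * y.1 := by push_cast; ring
        _ ≤ Real.log P ^ 9 * Real.log P ^ 9 := mul_le_mul h2 h3 (Nat.cast_nonneg _) (by positivity)
        _ = Real.log P ^ 18 := by ring
  refine (Finset.sum_le_sum key).trans ?_
  rw [Finset.sum_add_distrib, ← Finset.sum_filter, Finset.sum_const, Finset.sum_const, nsmul_eq_mul,
    nsmul_eq_mul]
  have h4 : ((((PrC (R0 P)).filter (fun y => Agr x y)).card : ℕ) : ℝ) ≤ 2 := by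
    have := partner (R0 P) x hx
    have h5 : ((PrC (R0 P)).filter (fun y => Agr x y)).card ≤ 2 := by
      refine le_trans (le_of_eq ?_) this
      congr 1
    exact_mod_cast h5
  have h6 : (((PrC (R0 P)).card : ℕ) : ℝ) ≤ Real.log P ^ 18 := by
    have h7 : (((PrC (R0 P)).card : ℕ) : ℝ) ≤ (R0 P : ℝ) * R0 P := by exact_mod_cast LS_card (R0 P)
    refine h7.trans ?_
    calc (R0 P : ℝ) * R0 P ≤ Real.log P ^ 9 * Real.log P ^ 9 :=
          mul_le_mul (LS_R0 hL) (LS_R0 hL) (Nat.cast_nonneg _) (by positivity)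
      _ = Real.log P ^ 18 := by ring
  have h8 : (((PrC (R0 P)).card : ℕ) : ℝ) * (P / Real.log P ^ 20) ≤ P / Real.log P ^ 2 := by
    calc (((PrC (R0 P)).card : ℕ) : ℝ) * (P / Real.log P ^ 20) ≤
        Real.log P ^ 18 * (P / Real.log P ^ 20) := mul_le_mul_of_nonneg_right h6 (by positivity)
      _ = P / Real.log P ^ 2 := by
          field_simp
  have h9 : ((((PrC (R0 P)).filter (fun y => Agr x y)).card : ℕ) : ℝ) * (A.card : ℝ) ≤
      2 * (A.card : ℝ) := mul_le_mul_of_nonneg_right h4 (by positivity)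
  linarith

theorem ls_P : ∃ P₀ : ℕ, ∀ P : ℕ, P₀ ≤ P → ∀ c : ℕ → ℝ,
    ∑ x ∈ PrC (R0 P), ‖∑ m ∈ PP P, (c m : ℂ) * x.2 (m : ZMod x.1)‖ ^ 2 ≤
      3 * ((PP P).card : ℝ) * ∑ m ∈ PP P, (c m) ^ 2 := by
  obtain ⟨P1, h1⟩ := small_P
  obtain ⟨P2, h2⟩ := PP_lower
  obtain ⟨P3, h3⟩ := Filter.eventually_atTop.1 (CntP_log.eventually_ge_atTop 5)
  refine ⟨max P1 (max P2 P3), fun P hP c => ?_⟩
  have hPa : P1 ≤ P := (le_max_left _ _).trans hP
  have hPb : P2 ≤ P := ((le_max_left _ _).trans (le_max_right _ _)).trans hP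
  have hPc : P3 ≤ P := ((le_max_right _ _).trans (le_max_right _ _)).trans hP
  have hL : (5 : ℝ) ≤ Real.log P := h3 P hPc
  refine LS_core (PP P) P (by linarith) ?_ (h1 P hPa) c
  refine le_trans ?_ (h2 P hPb)
  refine div_le_div_of_nonneg_left (Nat.cast_nonneg _) (by positivity) ?_
  nlinarith

theorem ls_N (W : ℕ) (hW : 0 < W) (h5 : 5 ∣ W) : ∃ P₀ : ℕ, ∀ P : ℕ, P₀ ≤ P → ∀ c : ℕ → ℝ,
    ∑ x ∈ PrC (R0 P), ‖∑ m ∈ NN W P, (c m : ℂ) * x.2 (m : ZMod x.1)‖ ^ 2 ≤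
      3 * ((NN W P).card : ℝ) * ∑ m ∈ NN W P, (c m) ^ 2 := by
  obtain ⟨P1, h1⟩ := small_N W hW h5
  obtain ⟨P2, h2⟩ := NN_lower W hW h5
  obtain ⟨P3, h3⟩ := Filter.eventually_atTop.1 (CntP_log.eventually_ge_atTop (8 * W + 2 : ℝ))
  refine ⟨max P1 (max P2 P3), fun P hP c => ?_⟩
  have hPa : P1 ≤ P := (le_max_left _ _).trans hP
  have hPb : P2 ≤ P := ((le_max_left _ _).trans (le_max_right _ _)).trans hP
  have hPc : P3 ≤ P := ((le_max_right _ _).trans (le_max_right _ _)).trans hP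
  have hL : (8 * W + 2 : ℝ) ≤ Real.log P := h3 P hPc
  have hW' : (1 : ℝ) ≤ W := by exact_mod_cast hW
  refine LS_core (NN W P) P (by linarith) ?_ (h1 P hPa) c
  refine le_trans ?_ (h2 P hPb)
  have hφ : (1 : ℝ) ≤ W.totient := by exact_mod_cast Nat.totient_pos.2 hW
  calc (P : ℝ) / Real.log P ^ 2 ≤ P / (8 * W) :=
        div_le_div_of_nonneg_left (Nat.cast_nonneg _) (by positivity) (by nlinarith)
    _ ≤ (P : ℝ) * (W.totient : ℝ) / (8 * W) :=
        div_le_div_of_nonneg_right (le_mul_of_one_le_right (Nat.cast_nonneg _) hφ) (by positivity)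

end Pool.Agent.Lib.MP_d57abb_nt.KC
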